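import Pool.Agent.H92Cone.Quot
import Pool.Agent.H55.Cone.Final

/-!
# Pulling back cones along an injective integral matrix

`rcone S` of `Pool.Agent.H92Cone.Basic` is the pointed cone spanned by the rational vectors of `S`; as
a set it is `Pool.Agent.H55.Cone.ratCone S` (both are `PointedCone.hull ℝ (ratVec '' S)`).

PROOFS.
* `comap_ratCone`: `Pool.Agent.H92Cone.rcone_comap P hP S 1` (`act 1 = id`).
* `comap_hull`: let `D' = {d | pull P (intVec d) ∈ hull (intVec '' D)}`. `⊇` is clear (`Submodule.span_le`). `⊆`: let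
  `pull P z ∈ hull (intVec '' D)`. Then it is in the hull of a finite subset
  (`Submodule.mem_span_finite_of_mem_span` or `Submodule.span` finitary) `intVec '' D₀`, i.e. in `ratCone S` with `S` the finite
  set of the vectors of `D₀` as rational vectors. `comap_ratCone` gives `S'` with
  `z ∈ ratCone S'` and `pull P (ratVec s) ∈ ratCone S ⊆ hull (intVec '' D)` for all `s ∈ S'`. Each
  `s ∈ S'` is `N⁻¹` times an integral vector `d` (`N > 0`), `d ∈ D'`. (Compare
  `Pool.Agent.H55.Cone.ratVec_mem_hull`.)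
-/

set_option autoImplicit false

namespace Pool.Agent.SymCone

open Pool.Agent.H93Cone Pool.Agent.H55.Cone Pool.Agent.H92Cone

variable {n m : ℕ}

lemma comap_ratCone (P : Matrix (Fin n) (Fin m) ℤ) (hP : Function.Injective (pull P))
    (S : Finset (Fin n → ℚ)) :
    ∃ S' : Finset (Fin m → ℚ), ∀ z, z ∈ ratCone S' ↔ pull P z ∈ ratCone S := by
  obtain ⟨S', hS'⟩ := rcone_comap P hP S 1
  refine ⟨S', fun z => ?_⟩
  constructor
  · intro hz
    obtain ⟨y, hy, h1⟩ := (hS' z).1 hz
    rw [act_one] at h1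
    rw [← h1]
    exact hy
  · intro hz
    exact (hS' z).2 ⟨pull P z, hz, by rw [act_one]; rfl⟩

lemma comap_hull (P : Matrix (Fin n) (Fin m) ℤ) (hP : Function.Injective (pull P))
    (D : Set (Fin n → ℤ)) :
    ∃ D' : Set (Fin m → ℤ), (PointedCone.hull ℝ (intVec '' D)).comap (pull P) =
      PointedCone.hull ℝ (intVec '' D') := by
  classical
  refine ⟨{d | pull P (intVec d) ∈ PointedCone.hull ℝ (intVec '' D)}, le_antisymm ?_ ?_⟩
  · intro z hz
    have hz' : pull P z ∈ PointedCone.hull ℝ (intVec '' D) := hz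
    obtain ⟨T, hT1, hT2⟩ := Submodule.mem_span_finite_of_mem_span hz'
    obtain ⟨D₀, hD₀, hD₀T⟩ : ∃ D₀ : Finset (Fin n → ℤ), (D₀ : Set (Fin n → ℤ)) ⊆ D ∧
        intVec '' (D₀ : Set (Fin n → ℤ)) = (T : Set (Fin n → ℝ)) := by
      obtain ⟨D₁, h1, h2⟩ := Set.subset_image_iff.1 hT1
      obtain ⟨D₂, h3, h4⟩ := Finset.subset_set_image_iff.1 hT1
      exact ⟨D₂, h3, by rw [← h4, Finset.coe_image]⟩
    set S : Finset (Fin n → ℚ) := D₀.image (fun d i => (d i : ℚ)) with hS
    have hST : ratVec '' (S : Set (Fin n → ℚ)) = (T : Set (Fin n → ℝ)) := by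
      rw [← hD₀T, hS, Finset.coe_image, Set.image_image]
      apply Set.image_congr
      intro d _
      funext i
      simp [ratVec, intVec]
    have hzS : pull P z ∈ ratCone S := by
      show pull P z ∈ PointedCone.hull ℝ (ratVec '' (S : Set (Fin n → ℚ)))
      rw [hST]; exact hT2
    have hSD : ratCone S ⊆ (PointedCone.hull ℝ (intVec '' D) : Set (Fin n → ℝ)) := by
      intro y hy
      have hy' : y ∈ PointedCone.hull ℝ (ratVec '' (S : Set (Fin n → ℚ))) := hy
      rw [hST] at hy'
      exact Submodule.span_mono hT1 hy'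
    obtain ⟨S', hS'⟩ := comap_ratCone P hP S
    have hz2 : z ∈ ratCone S' := (hS' z).2 hzS
    have hle : PointedCone.hull ℝ (ratVec '' (S' : Set (Fin m → ℚ))) ≤ PointedCone.hull ℝ
        (intVec '' {d : Fin m → ℤ | pull P (intVec d) ∈ PointedCone.hull ℝ (intVec '' D)}) := by
      refine Submodule.span_le.2 ?_
      rintro _ ⟨s, hs, rfl⟩
      have hs1 : pull P (ratVec s) ∈ PointedCone.hull ℝ (intVec '' D) := by
        apply hSD
        exact (hS' _).1 (Submodule.subset_span ⟨s, hs, rfl⟩)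
      obtain ⟨N, hN, d, hd⟩ := exists_int_mul s
      have hN' : (0 : ℝ) < N := by exact_mod_cast hN
      have h1 : intVec d = (N : ℝ) • ratVec s := by
        funext i
        have h2 := hd i
        simp only [intVec, ratVec, Pi.smul_apply, smul_eq_mul]
        have h3 : ((N : ℚ) * s i : ℚ) = ((d i : ℤ) : ℚ) := h2
        have h4 : (((N : ℚ) * s i : ℚ) : ℝ) = (((d i : ℤ) : ℚ) : ℝ) := by rw [h3]
        push_cast at h4
        exact h4.symm
      have h2 : ratVec s = (N : ℝ)⁻¹ • intVec d := by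
        rw [h1, smul_smul, inv_mul_cancel₀ hN'.ne', one_smul]
      rw [h2]
      refine PointedCone.smul_mem _ (inv_nonneg.2 hN'.le) (Submodule.subset_span ⟨d, ?_, rfl⟩)
      show pull P (intVec d) ∈ PointedCone.hull ℝ (intVec '' D)
      rw [h1, map_smul]
      exact PointedCone.smul_mem _ hN'.le hs1
    exact hle hz2
  · refine Submodule.span_le.2 ?_
    rintro _ ⟨d, hd, rfl⟩
    exact hd

end Pool.Agent.SymCone
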