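import Pool.Agent.SymCone.Basic
import Pool.Agent.H55.Cone.Final

/-!
# Compact sets of the positive cone

PROOFS.
* `exists_ratCone_compact`: `Pool.Agent.H55.Cone.exists_ratCone_nhds` and compactness
  (`IsCompact.elim_nhds_subcover`); the union of the finite sets works (`Submodule.span_mono`). The
  argument is in the proof of `Pool.Agent.H55.Cone.final` (search for `hCS`).
* `isOpen_openPos`: `form B x x` and `form B h x` are continuous in `x` (finite sums of products of
  coordinates).
* `frame_cone`: let `K` be the set of `z` in `closedPos B h` with `form B z z = 1` and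
  `(form B z (intVec fun i => A i j))^2 <= C` for all `j`. `K` is closed. It is bounded: the linear
  map `z ↦ (form B z (intVec fun i => A i j))_j` is `z ↦ z ᵥ* (B A)` with `det (B A) ≠ 0`, so it
  is injective and `‖z‖ <= c ‖image of z‖` for some `c` (`LinearMap.exists_antilipschitzWith` or
  `LinearEquiv` continuity, or the adjugate formula). So `K` is compact
  (`Metric.isCompact_of_isClosed_isBounded`), `K ⊆ openPos` by `hB.mem_openPos`; apply
  `exists_ratCone_compact isOpen_openPos`.
-/

set_option autoImplicit false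

namespace Pool.Agent.SymCone

open Pool.Agent.H93Cone Pool.Agent.H55.Cone

variable {n : ℕ} {B : Matrix (Fin n) (Fin n) ℤ} {h : Fin n → ℝ}

lemma exists_ratCone_compact {U K : Set (Fin n → ℝ)} (hU : IsOpen U) (hK : IsCompact K)
    (hKU : K ⊆ U) : ∃ S : Finset (Fin n → ℚ), (∀ v ∈ S, ratVec v ∈ U) ∧ K ⊆ ratCone S := by
  classical
  have hloc : ∀ x ∈ K, ∃ S : Finset (Fin n → ℚ),
      (∀ v ∈ S, ratVec v ∈ U) ∧ ratCone S ∈ nhds x :=
    fun x hx => exists_ratCone_nhds hU (hKU hx)
  choose! T hT1 hT2 using hloc
  obtain ⟨t, htC, htcov⟩ := hK.elim_nhds_subcover (fun x => ratCone (T x)) hT2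
  refine ⟨t.biUnion T, ?_, ?_⟩
  · intro v hv
    obtain ⟨x, hx, hvx⟩ := Finset.mem_biUnion.1 hv
    exact hT1 x (htC x hx) v hvx
  · intro x hx
    obtain ⟨y, hy⟩ := Set.mem_iUnion.1 (htcov hx)
    obtain ⟨hyt, hxy⟩ := Set.mem_iUnion.1 hy
    refine Submodule.span_mono ?_ hxy
    refine Set.image_mono fun v hv => ?_
    exact Finset.mem_coe.2 (Finset.mem_biUnion.2 ⟨y, hyt, hv⟩)

lemma continuous_form (y : Fin n → ℝ) : Continuous (fun x => form B x y) := by
  unfold form dotProduct
  refine continuous_finsetSum _ fun i _ => ?_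
  exact (continuous_apply i).mul continuous_const

lemma continuous_form_self : Continuous (fun x => form B x x) := by
  unfold form dotProduct Matrix.mulVec dotProduct
  refine continuous_finsetSum _ fun i _ => ?_
  refine (continuous_apply i).mul (continuous_finsetSum _ fun j _ => ?_)
  exact continuous_const.mul (continuous_apply j)

lemma cpt_continuous_form_right (y : Fin n → ℝ) : Continuous (fun x => form B y x) := by
  unfold form dotProduct Matrix.mulVec dotProduct
  refine continuous_finsetSum _ fun i _ => ?_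
  refine continuous_const.mul (continuous_finsetSum _ fun j _ => ?_)
  exact continuous_const.mul (continuous_apply j)

lemma isOpen_openPos : IsOpen (openPos B h) := by
  have h1 : openPos B h = {x | 0 < form B x x} ∩ {x | 0 < form B h x} := rfl
  rw [h1]
  exact (isOpen_lt continuous_const continuous_form_self).inter
    (isOpen_lt continuous_const (cpt_continuous_form_right h))

lemma frame_cone (hB : Hyperbolic B h) (A : Matrix (Fin n) (Fin n) ℤ) (hA : A.det ≠ 0) (C : ℝ) :
    ∃ S : Finset (Fin n → ℚ), (∀ s ∈ S, ratVec s ∈ openPos B h) ∧ ∀ z ∈ openPos B h,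
      form B z z = 1 → (∀ j, (form B z (intVec fun i => A i j)) ^ 2 ≤ C) → z ∈ ratCone S := by
  classical
  set N : Matrix (Fin n) (Fin n) ℝ :=
    B.map (Int.cast : ℤ → ℝ) * A.map (Int.cast : ℤ → ℝ) with hN
  have hNdet : N.det ≠ 0 := by
    rw [hN, Matrix.det_mul]
    have h1 : (B.map (Int.cast : ℤ → ℝ)).det = (B.det : ℝ) := (Int.cast_det (R := ℝ) B).symm
    have h2 : (A.map (Int.cast : ℤ → ℝ)).det = (A.det : ℝ) := (Int.cast_det (R := ℝ) A).symm
    rw [h1, h2]
    exact mul_ne_zero (by exact_mod_cast hB.det_ne_zero) (by exact_mod_cast hA)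
  have hform : ∀ z : Fin n → ℝ, ∀ j, form B z (intVec fun i => A i j) = Matrix.vecMul z N j := by
    intro z j
    rw [hN, ← Matrix.vecMul_vecMul]
    unfold form
    rw [Matrix.dotProduct_mulVec]
    rfl
  set K : Set (Fin n → ℝ) := {z | 0 ≤ form B z z ∧ 0 ≤ form B h z ∧ form B z z = 1 ∧
    ∀ j, (form B z (intVec fun i => A i j)) ^ 2 ≤ C} with hK
  have hKclosed : IsClosed K := by
    have h1 : K = {z | 0 ≤ form B z z} ∩ ({z | 0 ≤ form B h z} ∩ ({z | form B z z = 1} ∩
        ⋂ j, {z | (form B z (intVec fun i => A i j)) ^ 2 ≤ C})) := by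
      ext z
      simp only [hK, Set.mem_ofPred_eq, Set.mem_inter_iff, Set.mem_iInter]
    rw [h1]
    refine (isClosed_le continuous_const continuous_form_self).inter
      ((isClosed_le continuous_const (cpt_continuous_form_right h)).inter
        ((isClosed_eq continuous_form_self continuous_const).inter
          (isClosed_iInter fun j => isClosed_le ((continuous_form _).pow 2) continuous_const)))
  set r : ℝ := |C| + 1 with hr
  set D : Set (Fin n → ℝ) := (fun w : Fin n → ℝ => Matrix.vecMul w N⁻¹) ''
    (Set.pi Set.univ fun _ => Set.Icc (-r) r) with hD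
  have hDc : IsCompact D := by
    refine (isCompact_univ_pi fun _ => isCompact_Icc).image ?_
    refine continuous_pi fun i => ?_
    unfold Matrix.vecMul dotProduct
    refine continuous_finsetSum _ fun j _ => ?_
    exact (continuous_apply j).mul continuous_const
  have hKD : K ⊆ D := by
    intro z hz
    refine ⟨Matrix.vecMul z N, ?_, ?_⟩
    · intro j _
      have h1 := hz.2.2.2 j
      rw [hform] at h1
      have h2 : (Matrix.vecMul z N j) ^ 2 ≤ r ^ 2 := by
        have h3 : C ≤ |C| := le_abs_self C
        have h4 : 0 ≤ |C| := abs_nonneg C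
        rw [hr]
        nlinarith
      have h5 : |Matrix.vecMul z N j| ≤ r := abs_le_of_sq_le_sq h2 (by rw [hr]; positivity)
      exact abs_le.1 h5
    · show Matrix.vecMul (Matrix.vecMul z N) N⁻¹ = z
      rw [Matrix.vecMul_vecMul, Matrix.mul_nonsing_inv _ (isUnit_iff_ne_zero.2 hNdet),
        Matrix.vecMul_one]
  have hKc : IsCompact K := hDc.of_isClosed_subset hKclosed hKD
  have hKU : K ⊆ openPos B h := by
    intro z hz
    exact hB.mem_openPos ⟨hz.1, hz.2.1⟩ (by rw [hz.2.2.1]; norm_num)
  obtain ⟨S, hS1, hS2⟩ := exists_ratCone_compact isOpen_openPos hKc hKU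
  exact ⟨S, hS1, fun z hz hz1 hz2 => hS2 ⟨hz.1.le, hz.2.le, hz1, hz2⟩⟩

end Pool.Agent.SymCone
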