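import Pool.Agent.SymCone.Maj
import Pool.Agent.SymCone.Cpt

/-!
# Near a point of positive square the chamber is given by the walls through the point

PROOF of `eventually_mem_chamber`. Write `(v, w) = form B v w`, `q(v) = (v, v)`. Let `x₁ = a / √q(a)`,
`q(x₁) = 1`, and `M(w) = maj B x₁ w`. There is a constant `c > 0` with `(δ, w)^2 <= c ‖δ‖^2 M(w)` for all real `δ, w`:
`|(δ, w)| <= c₀ ‖δ‖ ‖w‖` (bilinear form in finite dimension), and `‖w‖^2 <= c₁ M(w)`
(minimum of the positive definite continuous function `M` on the unit sphere; `maj_pos`, `maj_smul`; trivial if `n = 0`).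
Let `x = a + δ` be so close to `a` that `x ∈ openPos B h` (open, `isOpen_openPos`; `a ∈ openPos` by
`hB.mem_openPos`) and `4 c ‖δ‖^2 <= q(a)`. Let `x ∈ faceSpace B W a`, `w ∈ W`, `(h, w) >= 0`, so
`(a, w) >= 0`. If `(a, w) = 0` then `(x, w) = 0`. If `(a, w) > 0` and `(x, w) < 0`:
`0 < (a, w) < (a, w) - (x, w) = -(δ, w)`, so `(a, w)^2 <= (δ, w)^2 <= c ‖δ‖^2 M(w)` and
`M(w) = 2 (x₁, w)^2 - q(w) = 2 (a, w)^2 / q(a) - q(w) <= 2 c ‖δ‖^2 M(w) / q(a) + b <= M(w)/2 + b`, hence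
`M(w) <= 2 b`: `w` is in the finite set `A = {w | M(w) <= 2 b}` (`finite_maj`). For the finitely many
`w ∈ A` with `(a, w) > 0` we have `(x, w) > 0` for all `x` near `a` (continuity, `continuous_form`; `Filter.eventually_all_finite`). So
in a neighbourhood of `a` the case `(x, w) < 0` does not occur.
-/

set_option autoImplicit false

namespace Pool.Agent.SymCone

open Pool.Agent.H93Cone Topology

variable {n : ℕ} {B : Matrix (Fin n) (Fin n) ℤ} {h : Fin n → ℝ}

private lemma abs_form_le_norm (B : Matrix (Fin n) (Fin n) ℤ) : ∃ c₀ : ℝ, 0 ≤ c₀ ∧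
    ∀ x y : Fin n → ℝ, |form B x y| ≤ c₀ * (‖x‖ * ‖y‖) := by
  refine ⟨∑ i, ∑ j, |((B i j : ℤ) : ℝ)|, by positivity, fun x y => ?_⟩
  have h1 : form B x y = ∑ i, ∑ j, x i * (((B i j : ℤ) : ℝ) * y j) := by
    unfold form dotProduct Matrix.mulVec dotProduct
    refine Finset.sum_congr rfl fun i _ => ?_
    rw [Finset.mul_sum]
    rfl
  rw [h1, Finset.sum_mul]
  refine (Finset.abs_sum_le_sum_abs _ _).trans (Finset.sum_le_sum fun i _ => ?_)
  rw [Finset.sum_mul]
  refine (Finset.abs_sum_le_sum_abs _ _).trans (Finset.sum_le_sum fun j _ => ?_)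
  rw [abs_mul, abs_mul]
  have h2 : |x i| ≤ ‖x‖ := norm_le_pi_norm x i
  have h3 : |y j| ≤ ‖y‖ := norm_le_pi_norm y j
  have h4 : |x i| * |y j| ≤ ‖x‖ * ‖y‖ := mul_le_mul h2 h3 (abs_nonneg _) (norm_nonneg _)
  calc |x i| * (|((B i j : ℤ) : ℝ)| * |y j|) = |((B i j : ℤ) : ℝ)| * (|x i| * |y j|) := by ring
    _ ≤ |((B i j : ℤ) : ℝ)| * (‖x‖ * ‖y‖) := mul_le_mul_of_nonneg_left h4 (abs_nonneg _)

lemma eventually_mem_chamber (hB : Hyperbolic B h) (W : Set (Fin n → ℤ)) (b : ℝ)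
    (hb : ∀ w ∈ W, -b ≤ form B (intVec w) (intVec w)) {a : Fin n → ℝ} (ha : a ∈ chamber B h W)
    (haa : 0 < form B a a) :
    ∀ᶠ x in 𝓝 a, x ∈ faceSpace B W a → x ∈ chamber B h W := by
  obtain ⟨c₀, hc₀, hform⟩ := abs_form_le_norm B
  set q : ℝ := form B a a with hq
  have hsq : 0 < Real.sqrt q := Real.sqrt_pos.2 haa
  set x₁ : Fin n → ℝ := (Real.sqrt q)⁻¹ • a with hx₁
  have hx1 : form B x₁ x₁ = 1 := by
    rw [hx₁, form_smul_left, form_smul_right, ← hq, ← mul_assoc, ← mul_inv,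
      Real.mul_self_sqrt haa.le, inv_mul_cancel₀ haa.ne']
  have hx1w : ∀ w, (form B x₁ w) ^ 2 = (form B a w) ^ 2 / q := by
    intro w
    rw [hx₁, form_smul_left, mul_pow, inv_pow, Real.sq_sqrt haa.le, div_eq_inv_mul]
  obtain ⟨c₁, hc₁, hmaj⟩ := exists_norm_le_maj hB hx1
  set c : ℝ := c₀ ^ 2 / c₁ with hc
  have hc0 : 0 ≤ c := by positivity
  have hkey : ∀ δ w : Fin n → ℝ, (form B δ w) ^ 2 ≤ c * ‖δ‖ ^ 2 * maj B x₁ w := by
    intro δ w
    have h1 : (form B δ w) ^ 2 ≤ (c₀ * (‖δ‖ * ‖w‖)) ^ 2 := by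
      rw [← sq_abs (form B δ w)]
      exact pow_le_pow_left₀ (abs_nonneg _) (hform δ w) 2
    have h2 := hmaj w
    calc (form B δ w) ^ 2 ≤ (c₀ * (‖δ‖ * ‖w‖)) ^ 2 := h1
      _ = c * ‖δ‖ ^ 2 * (c₁ * ‖w‖ ^ 2) := by
          rw [hc]
          field_simp
      _ ≤ c * ‖δ‖ ^ 2 * maj B x₁ w := mul_le_mul_of_nonneg_left h2 (by positivity)
  have hfin := finite_maj hB hx1 (2 * b)
  have e1 : ∀ᶠ x in 𝓝 a, x ∈ openPos B h :=
    isOpen_openPos.mem_nhds (hB.mem_openPos ha.1 haa)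
  have e2 : ∀ᶠ x in 𝓝 a, 4 * c * ‖x - a‖ ^ 2 < q := by
    have hcont : Continuous fun x : Fin n → ℝ => 4 * c * ‖x - a‖ ^ 2 := by fun_prop
    refine hcont.continuousAt.eventually_lt continuousAt_const ?_
    simpa using haa
  have e3 : ∀ᶠ x in 𝓝 a, ∀ w ∈ {v : Fin n → ℤ | maj B x₁ (intVec v) ≤ 2 * b},
      0 < form B a (intVec w) → 0 < form B x (intVec w) := by
    rw [Filter.eventually_all_finite hfin]
    intro w _
    by_cases hw : 0 < form B a (intVec w)
    · have h5 : ContinuousAt (fun x => form B x (intVec w)) a :=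
        (continuous_form (B := B) (intVec w)).continuousAt
      have h6 := h5.eventually_const_lt hw
      filter_upwards [h6] with x hx _ using hx
    · exact Filter.Eventually.of_forall fun x h1 => absurd h1 hw
  filter_upwards [e1, e2, e3] with x h1 h2 h3 hface
  refine ⟨openPos_subset h1, fun w hw hhw => ?_⟩
  have haw : 0 ≤ form B a (intVec w) := ha.2 w hw hhw
  rcases haw.lt_or_eq with h4 | h4
  · by_contra h5
    push Not at h5
    have h6 : form B x (intVec w) = form B a (intVec w) + form B (x - a) (intVec w) := by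
      rw [← form_add_left]
      congr 1
      abel
    have h7 : (form B a (intVec w)) ^ 2 ≤ (form B (x - a) (intVec w)) ^ 2 := by
      have h8 : form B a (intVec w) ≤ -form B (x - a) (intVec w) := by linarith
      have h9 := pow_le_pow_left₀ h4.le h8 2
      rwa [neg_sq] at h9
    have h8 := hkey (x - a) (intVec w)
    have h9 : 0 ≤ maj B x₁ (intVec w) := maj_nonneg hB hx1 _
    have h10 : maj B x₁ (intVec w) = 2 * ((form B a (intVec w)) ^ 2 / q) -
        form B (intVec w) (intVec w) := by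
      rw [← hx1w]
      rfl
    have h11 := hb w hw
    have h12 : (form B a (intVec w)) ^ 2 / q ≤ maj B x₁ (intVec w) / 4 := by
      rw [div_le_iff₀ haa]
      have h13 : c * ‖x - a‖ ^ 2 ≤ q / 4 := by linarith
      have h14 := mul_le_mul_of_nonneg_right h13 h9
      linarith
    have h13 : maj B x₁ (intVec w) ≤ 2 * b := by linarith
    have h14 := h3 w h13 h4
    linarith
  · exact (hface w hw h4.symm).ge

end Pool.Agent.SymCone
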