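import Pool.Agent.SymCone.Iso

/-!
# Isotropic classes orthogonal to an exceptional class are effective

PROOFS (write `(v, w)` for the integral form `v ⬝ᵥ B.mulVec w`, `q(v) = (v, v)`).
* `exists_transvection`: `T x = x + 2 (e, x) L - 2 (L, x) e - 2 q(e) (L, x) L`, i.e. the integral matrix
  `T = 1 + 2 L (B e)ᵀ - 2 e (B L)ᵀ - 2 q(e) L (B L)ᵀ` (`Matrix.vecMulVec`). As `q(L) = 0`, `(e, L) = 0`:
  `(T x, T y) = (x, y)`: the terms are
  `2 (e,y)(L,x) - 2 (L,y)(e,x) - 2 q(e)(L,x)(L,y) + 2 (e,x)(L,y) - 2 (L,x)(e,y) + 4 q(e)(L,x)(L,y)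
  - 2 q(e)(L,x)(L,y) = 0`. So `Tᵀ B T = B` (compare the bilinear forms on the standard basis) and
  `isom_of_matrix` gives `g ∈ isoms B`. `T L = L`, `T e = e + 2 q(e) L`, so by induction
  `T^k e = e + 2 k q(e) L`.
* `effective_of_exceptional`: `q(e) < 0`. By `Subgroup.exists_pow_mem_of_relIndex_ne_zero` (or the
  finiteness of the index) there is `m > 0` with `g^m ∈ Γ`, so `g^(m k) ∈ Γ` for all `k`. Take `k > 0` so
  large that `form B h (intVec e) + 2 m k q(e) form B h (intVec L) < 0` (`form B h (intVec L) > 0` by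
  `pos_of_mem`). Let `γ = g^(m k)`, `act γ e = e + 2 m k q(e) L`. It is not in `Eff`, because its product
  with `h` is negative. So `- act γ e ∈ Eff` and `- act γ e + e = (-2 m k q(e)) L ∈ Eff`
  with `-2 m k q(e) > 0`; scale.
-/

set_option autoImplicit false

namespace Pool.Agent.SymCone

open Pool.Agent.H93Cone

variable {n : ℕ} {B : Matrix (Fin n) (Fin n) ℤ} {h : Fin n → ℝ}

/-- the integral form -/
private abbrev bz (B : Matrix (Fin n) (Fin n) ℤ) (x y : Fin n → ℤ) : ℤ := x ⬝ᵥ B.mulVec y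

private lemma bz_comm (hs : B.IsSymm) (x y : Fin n → ℤ) : bz B x y = bz B y x := by
  unfold bz
  rw [Matrix.dotProduct_mulVec, ← Matrix.mulVec_transpose, hs.eq, dotProduct_comm]

/-- the transvection, as an integral matrix -/
private def trv (B : Matrix (Fin n) (Fin n) ℤ) (L e : Fin n → ℤ) : Matrix (Fin n) (Fin n) ℤ :=
  Matrix.of fun i j => (1 : Matrix (Fin n) (Fin n) ℤ) i j + 2 * (L i * B.mulVec e j) -
    2 * (e i * B.mulVec L j) - 2 * bz B e e * (L i * B.mulVec L j)

private lemma trv_mulVec (hs : B.IsSymm) (L e x : Fin n → ℤ) :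
    (trv B L e).mulVec x = x + (2 * bz B e x - 2 * bz B e e * bz B L x) • L -
      (2 * bz B L x) • e := by
  have h1 : ∀ y : Fin n → ℤ, ∑ j, B.mulVec y j * x j = bz B y x := by
    intro y
    rw [bz_comm hs, bz, dotProduct]
    exact Finset.sum_congr rfl fun j _ => mul_comm _ _
  funext i
  show ∑ j, ((1 : Matrix (Fin n) (Fin n) ℤ) i j + 2 * (L i * B.mulVec e j) -
      2 * (e i * B.mulVec L j) - 2 * bz B e e * (L i * B.mulVec L j)) * x j =
    x i + (2 * bz B e x - 2 * bz B e e * bz B L x) * L i - (2 * bz B L x) * e i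
  have h2 : ∀ j, ((1 : Matrix (Fin n) (Fin n) ℤ) i j + 2 * (L i * B.mulVec e j) -
      2 * (e i * B.mulVec L j) - 2 * bz B e e * (L i * B.mulVec L j)) * x j =
      (1 : Matrix (Fin n) (Fin n) ℤ) i j * x j + 2 * L i * (B.mulVec e j * x j) -
      2 * e i * (B.mulVec L j * x j) - 2 * bz B e e * L i * (B.mulVec L j * x j) := by
    intro j
    ring
  have h3 : ∑ j, (1 : Matrix (Fin n) (Fin n) ℤ) i j * x j = x i := by
    have := congrFun (Matrix.one_mulVec x) i
    rwa [Matrix.mulVec, dotProduct] at this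
  have h4 : (∑ j, ((1 : Matrix (Fin n) (Fin n) ℤ) i j + 2 * (L i * B.mulVec e j) -
      2 * (e i * B.mulVec L j) - 2 * bz B e e * (L i * B.mulVec L j)) * x j) =
      x i + 2 * L i * bz B e x - 2 * e i * bz B L x - 2 * bz B e e * L i * bz B L x := by
    rw [Finset.sum_congr rfl fun j _ => h2 j]
    rw [Finset.sum_sub_distrib, Finset.sum_sub_distrib, Finset.sum_add_distrib,
      ← Finset.mul_sum, ← Finset.mul_sum, ← Finset.mul_sum, h1, h1, h3]
  refine h4.trans ?_
  ring

private lemma trv_isom (hs : B.IsSymm) (L e : Fin n → ℤ) (hL : bz B L L = 0)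
    (heL : bz B e L = 0) : (trv B L e).transpose * B * trv B L e = B := by
  have hLe : bz B L e = 0 := by rw [bz_comm hs, heL]
  have key : ∀ x y : Fin n → ℤ, bz B ((trv B L e).mulVec x) ((trv B L e).mulVec y) =
      bz B x y := by
    intro x y
    rw [trv_mulVec hs, trv_mulVec hs]
    obtain ⟨α, hα⟩ : ∃ α, α = 2 * bz B e x - 2 * bz B e e * bz B L x := ⟨_, rfl⟩
    obtain ⟨α', hα'⟩ : ∃ α', α' = 2 * bz B e y - 2 * bz B e e * bz B L y := ⟨_, rfl⟩
    obtain ⟨β, hβ⟩ : ∃ β, β = 2 * bz B L x := ⟨_, rfl⟩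
    obtain ⟨β', hβ'⟩ : ∃ β', β' = 2 * bz B L y := ⟨_, rfl⟩
    rw [← hα, ← hα', ← hβ, ← hβ']
    have e1 : bz B (x + α • L - β • e) (y + α' • L - β' • e) =
        bz B x y + α' * bz B x L - β' * bz B x e + α * bz B L y + α * α' * bz B L L -
        α * β' * bz B L e - β * bz B e y - β * α' * bz B e L + β * β' * bz B e e := by
      unfold bz
      simp only [Matrix.mulVec_add, Matrix.mulVec_sub, Matrix.mulVec_smul, add_dotProduct,
        sub_dotProduct, smul_dotProduct, dotProduct_add, dotProduct_sub, dotProduct_smul,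
        smul_eq_mul]
      ring
    rw [e1, hL, hLe, heL, bz_comm hs x L, bz_comm hs x e, hα, hα', hβ, hβ']
    ring
  ext i j
  have h1 := key (Pi.single i 1) (Pi.single j 1)
  have h2 : ∀ M : Matrix (Fin n) (Fin n) ℤ,
      (Pi.single i (1 : ℤ) : Fin n → ℤ) ⬝ᵥ M.mulVec (Pi.single j (1 : ℤ)) = M i j := by
    intro M
    simp
  unfold bz at h1
  rw [h2] at h1
  rw [← h1, ← h2 ((trv B L e).transpose * B * trv B L e)]
  rw [← Matrix.mulVec_mulVec, ← Matrix.mulVec_mulVec, Matrix.dotProduct_mulVec,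
    Matrix.vecMul_transpose]

lemma exists_transvection (hB : Hyperbolic B h) (L e : Fin n → ℤ)
    (hL : form B (intVec L) (intVec L) = 0) (heL : form B (intVec e) (intVec L) = 0) :
    ∃ g ∈ isoms B, ∀ k : ℕ, act (g ^ k).val (intVec e) =
      intVec e + (2 * k * form B (intVec e) (intVec e)) • intVec L := by
  have hL' : bz B L L = 0 := by
    rw [form_intVec] at hL
    exact_mod_cast hL
  have heL' : bz B e L = 0 := by
    rw [form_intVec] at heL
    exact_mod_cast heL
  have hLe' : bz B L e = 0 := by rw [bz_comm hB.symm, heL']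
  obtain ⟨g, hg, hgT⟩ := isom_of_matrix hB _ (trv_isom hB.symm L e hL' heL')
  refine ⟨g, hg, fun k => ?_⟩
  have hgL : act g.val (intVec L) = intVec L := by
    rw [hgT, act_intVec, trv_mulVec hB.symm, heL', hL']
    congr 1
    simp
  have hge : act g.val (intVec e) =
      intVec e + (2 * form B (intVec e) (intVec e)) • intVec L := by
    rw [hgT, act_intVec, trv_mulVec hB.symm, hLe', form_intVec]
    funext i
    simp only [intVec, Pi.add_apply, Pi.sub_apply, Pi.smul_apply, smul_eq_mul]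
    push_cast
    ring
  induction k with
  | zero => simp
  | succ k ih =>
    rw [pow_succ', Units.val_mul, act_mul_apply, ih, map_add, map_smul, hge, hgL, add_assoc,
      ← add_smul]
    congr 2
    push_cast
    ring

/-- Nonvanishing: an isotropic class in the closed positive cone which is orthogonal to an
exceptional class is effective. -/
theorem effective_of_exceptional (hB : Hyperbolic B h) (Γ : Subgroup (GL (Fin n) ℤ))
    (hfin : Γ.relIndex (isoms B) ≠ 0) (Eff : PointedCone ℝ (Fin n → ℝ))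
    (hpair : ∀ x ∈ Eff, 0 ≤ form B h x) (L e : Fin n → ℤ) (hL0 : L ≠ 0)
    (hL : form B (intVec L) (intVec L) = 0) (hLpos : intVec L ∈ closedPos B h)
    (he : intVec e ∈ Eff) (hee : form B (intVec e) (intVec e) < 0)
    (heL : form B (intVec e) (intVec L) = 0)
    (hsign : ∀ γ ∈ Γ, act γ.val (intVec e) ∈ Eff ∨ -act γ.val (intVec e) ∈ Eff) :
    intVec L ∈ Eff := by
  obtain ⟨g, hg, hgk⟩ := exists_transvection hB L e hL heL
  obtain ⟨m, hm0, hm⟩ : ∃ m : ℕ, 0 < m ∧ g ^ m ∈ Γ := by
    obtain ⟨m, hm0, -, hm⟩ := Subgroup.exists_pow_mem_of_relIndex_ne_zero hfin hg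
    exact ⟨m, hm0, hm.1⟩
  have hLne : intVec L ≠ 0 := by
    intro h0
    apply hL0
    funext i
    have h1 : ((L i : ℤ) : ℝ) = 0 := congrFun h0 i
    exact_mod_cast h1
  have hhL : 0 < form B h (intVec L) := hB.pos_of_mem hLpos hLne
  obtain ⟨q, hq⟩ : ∃ q : ℝ, q = form B (intVec e) (intVec e) := ⟨_, rfl⟩
  rw [← hq] at hee
  have hm' : (0 : ℝ) < m := by exact_mod_cast hm0
  -- choose `k`
  obtain ⟨k, hk⟩ := exists_nat_gt (form B h (intVec e) / (2 * m * (-q) * form B h (intVec L)))
  have hpos : 0 < 2 * m * (-q) * form B h (intVec L) :=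
    mul_pos (mul_pos (by positivity) (by linarith)) hhL
  rw [div_lt_iff₀ hpos] at hk
  have hγ : g ^ (m * k) ∈ Γ := by
    rw [pow_mul]
    exact Γ.pow_mem hm k
  have hval := hgk (m * k)
  rw [← hq, Nat.cast_mul] at hval
  have hne : act (g ^ (m * k)).val (intVec e) ∉ Eff := by
    intro hin
    have h1 := hpair _ hin
    rw [hval, form_add_right, form_smul_right] at h1
    nlinarith
  have h2 : -act (g ^ (m * k)).val (intVec e) ∈ Eff := (hsign _ hγ).resolve_left hne
  have h3 : (-(2 * (m * k) * q)) • intVec L ∈ Eff := by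
    have h4 := Eff.add_mem h2 he
    have h5 : -act (g ^ (m * k)).val (intVec e) + intVec e = (-(2 * (m * k) * q)) • intVec L := by
      rw [hval, neg_smul]
      abel
    rwa [h5] at h4
  have hc : 0 < -(2 * (m * k) * q) := by
    by_contra hcon
    push Not at hcon
    have hk0 : (k : ℝ) = 0 := by
      by_contra hk0
      have hkpos : (0 : ℝ) < k := lt_of_le_of_ne (Nat.cast_nonneg k) (Ne.symm hk0)
      have : 0 < 2 * ((m : ℝ) * k) * (-q) := by
        have : 0 < -q := by linarith
        positivity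
      linarith
    rw [hk0, zero_mul] at hk
    have h6 : 0 ≤ form B h (intVec e) := hpair _ he
    linarith
  have h7 := Eff.smul_mem (inv_pos.2 hc).le h3
  rwa [smul_smul, inv_mul_cancel₀ hc.ne', one_smul] at h7

end Pool.Agent.SymCone
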