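import Pool.Agent.SymCone.Cov
import Pool.Agent.SymCone.Trv
import Pool.Agent.SymCone.Nbd
import Pool.Agent.SymCone.Crd

/-!
# The theorem

PROOF. Write `(v, w) = form B v w`, `q(v) = (v, v)`, `V = faceSpace B W (intVec a)`,
`N = (hB.chamberCone W).comap (pull P)`, `E = Eff.comap (pull P)` (pointed cones of `ℝ^m`). Apply
`Pool.Agent.H55.Cone.final N E D' ...` and its second part: `HasDomain G (N ∩ E)` holds iff there is `S'` with
`ratCone S' ⊆ N ∩ E` and `interior N ⊆ translates G (ratCone S')`. Hypotheses of `final`: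
* `a ∈ V`, so `intVec a = pull P z₀` (`hrange`).
* `hample`: `z₀ ∈ interior N`: by `eventually_mem_chamber` for `intVec a` pulled back along the continuous map
  `pull P` (`pull_continuous`); all values of `pull P` are in `V`.
* `hEff`: `comap_hull`.
* `hampleEff`: let `z ∈ interior N`. For small `ε > 0` `z - ε z₀ ∈ N`, so `y = pull P z - ε a ∈ closedPos`, and
  `q(pull P z) = q(y + ε a) = q(y) + 2 ε (a, y) + ε^2 q(a) > 0` (`nonneg_mul`). So `pull P z ∈ openPos ⊆ Eff`
  (`hB.mem_openPos`, `hbig`). Record this: (i) `z ∈ interior N → 0 < q(pull P z)`.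
* `hsal`: let `x, -x ∈ closure E`. For `y ∈ N`, `e ∈ E`: `(pull P y, pull P e) >= 0` (`hpair`), so by
  continuity `(pull P y, pull P x) >= 0` and `<= 0`, `= 0` for all `y ∈ N`. As `N` has interior points
  `(pull P y, pull P x) = 0` for all `y ∈ ℝ^m` (a linear form which vanishes on an open set; `z₀ + t y ∈ N` for
  small `t > 0`). In particular `(a, pull P x) = 0` and `q(pull P x) = 0`, so `pull P x = 0`
  (`neg_of_orth` with `a`), `x = 0`.
* `hGNef`, `hGEff`: hypotheses.
The covering: let `S` be the set of `cover` (for `intVec a`), and `S'` from `comap_ratCone P hP S`.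
* `ratCone S ⊆ chamber` (`hB.chamberCone W`), so `ratCone S' ⊆ N`.
* `ratCone S ⊆ Eff`: let `s ∈ S`, `v = N₀ s` integral with `N₀ > 0`. If `q(s) > 0`, `ratVec s ∈ openPos ⊆ Eff`.
  If `s = 0` clear. If `q(s) = 0`, `s ≠ 0`: `intVec v ∈ chamber ∩ V` (both are closed under scaling by
  positive numbers), `hiso` gives `intVec v ∈ Eff` or an exceptional `e`, and then
  `effective_of_exceptional` (with `hpair` for `h ∈ chamber B h W`: `h` is in `closedPos` and
  `0 <= (h, w) → 0 <= (h, w)`) gives `intVec v ∈ Eff`. Scale back.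
* `interior N ⊆ translates G (ratCone S')`: let `z ∈ interior N`, `x = pull P z ∈ chamber ∩ V`, `q(x) > 0`
  by (i). `cover` gives `γ ∈ Γ` with `act γ x ∈ ratCone S` preserving the chamber and `V`. `hG` gives
  `g ∈ G` with `pull P (act g z) = act γ (pull P z)`, so `act g z ∈ ratCone S'`, and
  `z = act g⁻¹ (act g z)` (`mem_translates`, `act_inv_val`).
-/

set_option autoImplicit false

namespace Pool.Agent.SymCone

open Pool.Agent.H93Cone Pool.Agent.H55.Cone Pool.Agent.H92Cone

variable {n m : ℕ} {B : Matrix (Fin n) (Fin n) ℤ} {h : Fin n → ℝ}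

theorem main (hB : Hyperbolic B h) (Γ : Subgroup (GL (Fin n) ℤ)) (hΓ : Γ ≤ isoms B)
    (hfin : Γ.relIndex (isoms B) ≠ 0) (hside : ∀ γ ∈ Γ, 0 < form B h (act γ.val h))
    (W : Set (Fin n → ℤ)) (hWΓ : ∀ γ ∈ Γ, ∀ w ∈ W, γ.val.mulVec w ∈ W)
    (hneg : ∀ w ∈ W, -w ∈ W) (b : ℝ) (hb : ∀ w ∈ W, -b ≤ form B (intVec w) (intVec w))
    (hh : ∀ w ∈ W, form B h (intVec w) ≠ 0)
    (Eff : PointedCone ℝ (Fin n → ℝ)) (D : Set (Fin n → ℤ))
    (hEff : Eff = PointedCone.hull ℝ (intVec '' D)) (hbig : openPos B h ⊆ Eff)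
    (hpair : ∀ x ∈ chamber B h W, ∀ y ∈ Eff, 0 ≤ form B x y)
    (a : Fin n → ℤ) (ha : intVec a ∈ chamber B h W) (haa : 0 < form B (intVec a) (intVec a))
    (hiso : ∀ v : Fin n → ℤ, v ≠ 0 → intVec v ∈ chamber B h W →
      intVec v ∈ faceSpace B W (intVec a) → form B (intVec v) (intVec v) = 0 →
      intVec v ∈ Eff ∨ ∃ e : Fin n → ℤ, intVec e ∈ Eff ∧ form B (intVec e) (intVec e) < 0 ∧
        form B (intVec e) (intVec v) = 0 ∧
        ∀ γ ∈ Γ, act γ.val (intVec e) ∈ Eff ∨ -act γ.val (intVec e) ∈ Eff)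
    (P : Matrix (Fin n) (Fin m) ℤ) (hP : Function.Injective (pull P))
    (hrange : Set.range (pull P) = faceSpace B W (intVec a))
    (G : Subgroup (GL (Fin m) ℤ))
    (hGNef : ∀ g ∈ G, ∀ z, pull P z ∈ chamber B h W → pull P (act g.val z) ∈ chamber B h W)
    (hGEff : ∀ g ∈ G, ∀ z, pull P z ∈ Eff → pull P (act g.val z) ∈ Eff)
    (hG : ∀ γ ∈ Γ, act γ.val '' chamber B h W = chamber B h W →
      act γ.val '' faceSpace B W (intVec a) = faceSpace B W (intVec a) →
      ∃ g ∈ G, ∀ z, pull P (act g.val z) = act γ.val (pull P z)) :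
    HasDomain G (pull P ⁻¹' (chamber B h W ∩ Eff)) := by
  classical
  obtain ⟨D', hD'⟩ := comap_hull P hP D
  obtain ⟨N, hN⟩ : ∃ N : PointedCone ℝ (Fin m → ℝ), N = (hB.chamberCone W).comap (pull P) :=
    ⟨_, rfl⟩
  obtain ⟨E, hE⟩ : ∃ E : PointedCone ℝ (Fin m → ℝ), E = Eff.comap (pull P) := ⟨_, rfl⟩
  have memN : ∀ z, z ∈ N ↔ pull P z ∈ chamber B h W := fun z => by
    rw [hN]
    exact Iff.rfl
  have memE : ∀ z, z ∈ E ↔ pull P z ∈ Eff := fun z => by
    rw [hE]
    exact Iff.rfl
  have hset : pull P ⁻¹' (chamber B h W ∩ Eff) = (N : Set (Fin m → ℝ)) ∩ E := by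
    ext z
    exact and_congr (memN z).symm (memE z).symm
  have haV : intVec a ∈ faceSpace B W (intVec a) := fun w _ h0 => h0
  have hmemV : ∀ z, pull P z ∈ faceSpace B W (intVec a) := fun z => by
    rw [← hrange]
    exact ⟨z, rfl⟩
  obtain ⟨z₀, hz₀⟩ : ∃ z₀, pull P z₀ = intVec a := by
    have h1 : intVec a ∈ Set.range (pull P) := by
      rw [hrange]
      exact haV
    exact h1
  have hint₀ : z₀ ∈ interior (N : Set (Fin m → ℝ)) := by
    rw [mem_interior_iff_mem_nhds]
    have h1 := eventually_mem_chamber hB W b hb ha haa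
    have h2 : Filter.Tendsto (pull P) (nhds z₀) (nhds (intVec a)) := by
      rw [← hz₀]
      exact (pull_continuous P).tendsto z₀
    filter_upwards [h2.eventually h1] with z hz
    exact (memN z).2 (hz (hmemV z))
  have hpos : ∀ z ∈ interior (N : Set (Fin m → ℝ)), 0 < form B (pull P z) (pull P z) := by
    intro z hz
    have h1 : ∀ᶠ ε in nhds (0 : ℝ), z - ε • z₀ ∈ (N : Set (Fin m → ℝ)) := by
      have h2 : Filter.Tendsto (fun ε : ℝ => z - ε • z₀) (nhds 0)
          (nhds (z - (0 : ℝ) • z₀)) :=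
        (continuous_const.sub (continuous_id.smul continuous_const)).tendsto 0
      rw [zero_smul, sub_zero] at h2
      exact h2.eventually (mem_interior_iff_mem_nhds.1 hz)
    have h3 : ∀ᶠ ε in nhdsWithin (0 : ℝ) (Set.Ioi 0),
        z - ε • z₀ ∈ (N : Set (Fin m → ℝ)) ∧ 0 < ε :=
      (h1.filter_mono nhdsWithin_le_nhds).and self_mem_nhdsWithin
    obtain ⟨ε, hε, hε0⟩ := h3.exists
    obtain ⟨y, hy⟩ : ∃ y, y = pull P z - ε • intVec a := ⟨_, rfl⟩
    have hyc : y ∈ closedPos B h := by
      have h4 : pull P (z - ε • z₀) ∈ chamber B h W := (memN _).1 hε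
      rw [map_sub, map_smul, hz₀, ← hy] at h4
      exact h4.1
    have h5 : pull P z = y + ε • intVec a := by
      rw [hy]
      abel
    have h6 : 0 ≤ form B (intVec a) y := hB.nonneg_mul ha.1 hyc
    have h7 : 0 ≤ form B y y := hyc.1
    rw [h5, form_add_left, form_add_right, form_add_right, form_smul_left, form_smul_left,
      form_smul_right, form_smul_right, hB.comm y (intVec a)]
    have h8 : 0 ≤ ε * form B (intVec a) y := mul_nonneg hε0.le h6
    have h9 : 0 < ε * (ε * form B (intVec a) (intVec a)) := mul_pos hε0 (mul_pos hε0 haa)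
    linarith
  have hintE : ∀ z ∈ interior (N : Set (Fin m → ℝ)), pull P z ∈ Eff := by
    intro z hz
    exact hbig (hB.mem_openPos ((memN z).1 (interior_subset hz)).1 (hpos z hz))
  -- salience
  have hsal : ∀ x, x ∈ closure (E : Set (Fin m → ℝ)) → -x ∈ closure (E : Set (Fin m → ℝ)) →
      x = 0 := by
    intro x hx hx'
    have hcl : ∀ y ∈ N, ∀ u ∈ closure (E : Set (Fin m → ℝ)),
        0 ≤ form B (pull P y) (pull P u) := by
      intro y hy u hu
      have hc : IsClosed {u : Fin m → ℝ | 0 ≤ form B (pull P y) (pull P u)} := by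
        refine isClosed_le continuous_const ?_
        have h1 : (fun u : Fin m → ℝ => form B (pull P y) (pull P u)) = fun u =>
            (pull P y) ⬝ᵥ (B.map (Int.cast : ℤ → ℝ)).mulVec (pull P u) := rfl
        rw [h1]
        have h2 : Continuous fun u : Fin m → ℝ => pull P u := pull_continuous P
        unfold dotProduct Matrix.mulVec dotProduct
        fun_prop
      refine hc.closure_subset_iff.2 ?_ hu
      intro u hu
      exact hpair _ ((memN y).1 hy) _ ((memE u).1 hu)
    have hzero : ∀ y ∈ N, form B (pull P y) (pull P x) = 0 := by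
      intro y hy
      have h1 := hcl y hy x hx
      have h2 := hcl y hy (-x) hx'
      rw [map_neg, form_neg_right] at h2
      linarith
    have h1 : form B (intVec a) (pull P x) = 0 := by
      rw [← hz₀]
      exact hzero z₀ (interior_subset hint₀)
    have h2 : form B (pull P x) (pull P x) = 0 := by
      have h3 : ∀ᶠ ε in nhds (0 : ℝ), z₀ + ε • x ∈ (N : Set (Fin m → ℝ)) := by
        have h4 : Filter.Tendsto (fun ε : ℝ => z₀ + ε • x) (nhds 0)
            (nhds (z₀ + (0 : ℝ) • x)) :=
          (continuous_const.add (continuous_id.smul continuous_const)).tendsto 0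
        rw [zero_smul, add_zero] at h4
        exact h4.eventually (mem_interior_iff_mem_nhds.1 hint₀)
      have h5 : ∀ᶠ ε in nhdsWithin (0 : ℝ) (Set.Ioi 0),
          z₀ + ε • x ∈ (N : Set (Fin m → ℝ)) ∧ 0 < ε :=
        (h3.filter_mono nhdsWithin_le_nhds).and self_mem_nhdsWithin
      obtain ⟨ε, hε, hε0⟩ := h5.exists
      have h6 := hzero _ hε
      rw [map_add, map_smul, hz₀, form_add_left, form_smul_left, h1, zero_add] at h6
      exact (mul_eq_zero.1 h6).resolve_left hε0.ne'
    have h3 : pull P x = 0 := by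
      by_contra h0
      have := hB.neg_of_orth haa h1 h0
      linarith
    exact hP (by rw [h3, map_zero])
  have hGN' : ∀ g ∈ G, ∀ x ∈ N, act g.val x ∈ N := fun g hg x hx =>
    (memN _).2 (hGNef g hg x ((memN x).1 hx))
  have hGE' : ∀ g ∈ G, ∀ x ∈ E, act g.val x ∈ E := fun g hg x hx =>
    (memE _).2 (hGEff g hg x ((memE x).1 hx))
  have hEeq : E = PointedCone.hull ℝ (intVec '' D') := by
    rw [hE, hEff]
    exact hD'
  have hfinal := final N E D' ⟨z₀, hint₀⟩ hEeq (fun z hz => (memE z).2 (hintE z hz)) hsal G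
    hGN' hGE'
  rw [hset]
  refine hfinal.2.1.2 ?_
  -- the covering
  obtain ⟨S, hS, hcov⟩ := cover hB Γ hΓ hfin hside W hWΓ hneg b hb hh (intVec a)
  obtain ⟨S', hS'⟩ := comap_ratCone P hP S
  have hSN : ratCone S ⊆ chamber B h W := by
    have hle : PointedCone.hull ℝ (ratVec '' (S : Set (Fin n → ℚ))) ≤ hB.chamberCone W := by
      refine Submodule.span_le.2 ?_
      rintro _ ⟨s, hs, rfl⟩
      exact (hS s hs).1
    exact fun x hx => hle hx
  have hSE : ratCone S ⊆ (Eff : Set (Fin n → ℝ)) := by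
    have hle : PointedCone.hull ℝ (ratVec '' (S : Set (Fin n → ℚ))) ≤ Eff := by
      refine Submodule.span_le.2 ?_
      rintro _ ⟨s, hs, rfl⟩
      obtain ⟨hsc, hsV⟩ := hS s hs
      rcases hsc.1.1.lt_or_eq with h0 | h0
      · exact hbig (hB.mem_openPos hsc.1 h0)
      · obtain ⟨M, hM, hden⟩ := exists_denom {s}
        obtain ⟨v, hv⟩ := hden s (Finset.mem_singleton_self s)
        have hM0 : (0 : ℝ) < M := by exact_mod_cast hM
        have hback : intVec v ∈ Eff → ratVec s ∈ Eff := by
          intro hvE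
          have h2 := Eff.smul_mem (inv_pos.2 hM0).le hvE
          rwa [← hv, smul_smul, inv_mul_cancel₀ hM0.ne', one_smul] at h2
        by_cases hv0 : v = 0
        · refine hback ?_
          have h3 : intVec v = 0 := by
            rw [hv0]
            funext i
            simp [intVec]
          rw [h3]
          exact Eff.zero_mem
        · have hvc : intVec v ∈ chamber B h W := by
            rw [← hv]
            exact (hB.chamberCone W).smul_mem hM0.le hsc
          have hvV : intVec v ∈ faceSpace B W (intVec a) := by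
            intro w hw hw0
            rw [← hv, form_smul_left, hsV w hw hw0, mul_zero]
          have hvq : form B (intVec v) (intVec v) = 0 := by
            rw [← hv, form_smul_left, form_smul_right, ← h0]
            ring
          refine hback ?_
          rcases hiso v hv0 hvc hvV hvq with h3 | ⟨e, he1, he2, he3, he4⟩
          · exact h3
          · have hhc : h ∈ chamber B h W := ⟨⟨hB.pos.le, hB.pos.le⟩, fun w _ h1 => h1⟩
            exact effective_of_exceptional hB Γ hfin Eff (fun x hx => hpair h hhc x hx) v e hv0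
              hvq hvc.1 he1 he2 he3 he4
    exact fun x hx => hle hx
  refine ⟨S', fun z hz => ?_, fun z hz => ?_⟩
  · have h1 := (hS' z).1 hz
    exact ⟨(memN z).2 (hSN h1), (memE z).2 (hSE h1)⟩
  · have hzc : pull P z ∈ chamber B h W ∩ faceSpace B W (intVec a) :=
      ⟨(memN z).1 (interior_subset hz), hmemV z⟩
    obtain ⟨γ, hγ, hγ1, hγ2, hγ3⟩ := hcov _ hzc (hpos z hz)
    obtain ⟨g, hg, hgz⟩ := hG γ hγ hγ1 hγ2
    refine mem_translates.2 ⟨g⁻¹, G.inv_mem hg, act g.val z, ?_, act_val_inv g z⟩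
    rw [hS', hgz]
    exact hγ3

end Pool.Agent.SymCone
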