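import Pool.Agent.SymCone.Basic

/-!
# Isometries

PROOFS.
* `isom_of_matrix`: `det T ^ 2 * det B = det B`, `det B ≠ 0` (`hB.det_ne_zero`), so `det T ^ 2 = 1`, the
  determinant is a unit in `ℤ` and `T` is a unit of the matrix ring (`Matrix.isUnit_iff_isUnit_det`).
* `act_closedPos`: `form (gy) (gy) = form y y >= 0` (`form_act`), `form (gx) (gy) = form x y >= 0`
  (`nonneg_mul`), conclude by `mem_closedPos_iff` for the point `gx` of the open cone.
* `act_openPos`: the same with `mem_openPos`.
* `act_inv_closedPos`: apply `act_closedPos` to `g⁻¹` and the point `act g x`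
  (`act_inv_val : act g⁻¹ (act g x) = x` is in `Pool.Agent.H93Cone.Domain`).
* `exists_isom`: `A.adjugate * A = A.det • 1` and `A * A.adjugate = A.det • 1`. Let `d = A.det`,
  choose `E` with `A' - A = d • E` (from `hmod`) and put `T = 1 + E * A.adjugate` (integral). Then
  `T * A = A + E * (d • 1) = A + d • E = A'`. `det T * det A = det A'`. From `hgram`:
  `Aᵀ (Tᵀ B T) A = Aᵀ B A`, and `A` is cancellable (multiply by the adjugates and
  cancel `d^2 ≠ 0`, or work in `ℚ`), so `Tᵀ B T = B`; apply `isom_of_matrix`.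
-/

set_option autoImplicit false

namespace Pool.Agent.SymCone

open Pool.Agent.H93Cone

variable {n : ℕ} {B : Matrix (Fin n) (Fin n) ℤ} {h : Fin n → ℝ}

lemma isom_of_matrix (hB : Hyperbolic B h) (T : Matrix (Fin n) (Fin n) ℤ)
    (hT : T.transpose * B * T = B) : ∃ g ∈ isoms B, g.val = T := by
  have h1 : T.det * T.det = 1 := by
    have h2 := congrArg Matrix.det hT
    rw [Matrix.det_mul, Matrix.det_mul, Matrix.det_transpose] at h2
    have h3 : (T.det * T.det - 1) * B.det = 0 := by linear_combination h2
    rcases mul_eq_zero.1 h3 with h4 | h4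
    · linarith
    · exact absurd h4 hB.det_ne_zero
  have h2 : IsUnit T.det := IsUnit.of_mul_eq_one _ h1
  have h3 : IsUnit T := (Matrix.isUnit_iff_isUnit_det T).2 h2
  obtain ⟨g, hg⟩ := h3
  exact ⟨g, by show g.val.transpose * B * g.val = B; rw [hg]; exact hT, hg⟩

lemma act_closedPos (hB : Hyperbolic B h) {g : GL (Fin n) ℤ} (hg : g ∈ isoms B)
    {x : Fin n → ℝ} (hx : x ∈ openPos B h) (hgx : act g.val x ∈ openPos B h)
    {y : Fin n → ℝ} (hy : y ∈ closedPos B h) : act g.val y ∈ closedPos B h := by
  refine (hB.mem_closedPos_iff hgx ?_).2 ?_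
  · rw [form_act hg]; exact hy.1
  · rw [form_act hg]; exact hB.nonneg_mul (openPos_subset hx) hy

lemma act_openPos (hB : Hyperbolic B h) {g : GL (Fin n) ℤ} (hg : g ∈ isoms B)
    {x : Fin n → ℝ} (hx : x ∈ openPos B h) (hgx : act g.val x ∈ openPos B h)
    {y : Fin n → ℝ} (hy : y ∈ openPos B h) : act g.val y ∈ openPos B h :=
  hB.mem_openPos (act_closedPos hB hg hx hgx (openPos_subset hy))
    (by rw [form_act hg]; exact hy.1)

lemma act_inv_closedPos (hB : Hyperbolic B h) {g : GL (Fin n) ℤ} (hg : g ∈ isoms B)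
    {x : Fin n → ℝ} (hx : x ∈ openPos B h) (hgx : act g.val x ∈ openPos B h)
    {y : Fin n → ℝ} (hy : y ∈ closedPos B h) : act (g⁻¹).val y ∈ closedPos B h := by
  refine act_closedPos hB ((isoms B).inv_mem hg) hgx ?_ hy
  rw [act_val_inv]; exact hx

/-- Two frames with the same Gram matrix, the same index and the same residue differ by an
isometry. -/
lemma exists_isom (hB : Hyperbolic B h) {A A' : Matrix (Fin n) (Fin n) ℤ} (hA : A.det ≠ 0)
    (hgram : A'.transpose * B * A' = A.transpose * B * A)
    (hmod : ∀ i j, A.det ∣ A' i j - A i j) : ∃ g ∈ isoms B, g.val * A = A' := by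
  choose E hE using hmod
  set E' : Matrix (Fin n) (Fin n) ℤ := Matrix.of E with hE'
  have h1 : A' = A + A.det • E' := by
    ext i j
    rw [Matrix.add_apply, Matrix.smul_apply, smul_eq_mul, hE', Matrix.of_apply]
    linarith [hE i j]
  set T : Matrix (Fin n) (Fin n) ℤ := 1 + E' * A.adjugate with hT
  have h2 : T * A = A' := by
    rw [hT, add_mul, one_mul, Matrix.mul_assoc, Matrix.adjugate_mul, Matrix.mul_smul,
      Matrix.mul_one, h1]
  have h3 : A.transpose * (T.transpose * B * T) * A = A.transpose * B * A := by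
    rw [← hgram, ← h2, Matrix.transpose_mul]
    simp only [Matrix.mul_assoc]
  have hcancel : ∀ X Y : Matrix (Fin n) (Fin n) ℤ, X * A = Y * A → X = Y := by
    intro X Y hXY
    have h4 := congrArg (fun M => M * A.adjugate) hXY
    simp only [Matrix.mul_assoc, Matrix.mul_adjugate, Matrix.mul_smul, Matrix.mul_one] at h4
    ext i j
    have h5 := congrFun (congrFun h4 i) j
    simp only [Matrix.smul_apply, smul_eq_mul] at h5
    exact mul_left_cancel₀ hA h5
  have h4 : T.transpose * B * T = B := by
    have h5 := hcancel _ _ h3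
    have h6 : (T.transpose * B * T).transpose * A = B.transpose * A := by
      have h6 := congrArg Matrix.transpose h5
      rwa [Matrix.transpose_mul A.transpose, Matrix.transpose_mul A.transpose,
        Matrix.transpose_transpose A] at h6
    have h7 := hcancel _ _ h6
    have h8 := congrArg Matrix.transpose h7
    rwa [Matrix.transpose_transpose, Matrix.transpose_transpose] at h8
  obtain ⟨g, hg, hgT⟩ := isom_of_matrix hB T h4
  exact ⟨g, hg, by rw [hgT]; exact h2⟩

end Pool.Agent.SymCone
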