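import Pool.Agent.SymCone.Defs
import Pool.Agent.H92Cone.Quot

/-!
The setting of the theorem on primitive symplectic varieties.

`X` is a projective primitive symplectic variety with `ℚ`-factorial terminal singularities,
`ℤ^n` its Neron-Severi lattice with the Beauville-Bogomolov-Fujiki form (Gram matrix `B`),
`h` an ample class.
-/

set_option autoImplicit false

namespace Pool.Agent.SymCone

open Pool.Agent.H93Cone Pool.Agent.H92Cone

variable {n m : ℕ}

/-- `Γ` is a group of integral isometries of finite index which preserves the positive cone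
(for `X`: the action on the Neron-Severi lattice of the monodromy operators which are Hodge
isometries). -/
structure IsArithmetic (B : Matrix (Fin n) (Fin n) ℤ) (h : Fin n → ℝ)
    (Γ : Subgroup (GL (Fin n) ℤ)) : Prop where
  le : Γ ≤ isoms B
  finite_index : Γ.relIndex (isoms B) ≠ 0
  side : ∀ γ ∈ Γ, 0 < form B h (act γ.val h)

/-- `W` is a set of walls, stable under `Γ` and under `w ↦ -w`, of bounded square, and `h` is on no
wall (for `X`: the wall divisors). -/
structure IsWallSet (B : Matrix (Fin n) (Fin n) ℤ) (h : Fin n → ℝ)
    (Γ : Subgroup (GL (Fin n) ℤ)) (W : Set (Fin n → ℤ)) : Prop where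
  stable : ∀ γ ∈ Γ, ∀ w ∈ W, γ.val.mulVec w ∈ W
  neg : ∀ w ∈ W, -w ∈ W
  bounded : ∃ b : ℝ, ∀ w ∈ W, -b ≤ form B (intVec w) (intVec w)
  ample : ∀ w ∈ W, form B h (intVec w) ≠ 0

/-- `Eff` is spanned by integral vectors, contains the open positive cone, and has nonnegative
products with the chamber of `h` (for `X`: the effective cone; the chamber is the nef cone). -/
structure IsEffectiveCone (B : Matrix (Fin n) (Fin n) ℤ) (h : Fin n → ℝ)
    (W : Set (Fin n → ℤ)) (Eff : PointedCone ℝ (Fin n → ℝ)) : Prop where
  integral : ∃ D : Set (Fin n → ℤ), Eff = PointedCone.hull ℝ (intVec '' D)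
  big : openPos B h ⊆ Eff
  pair : ∀ x ∈ chamber B h W, ∀ y ∈ Eff, 0 ≤ form B x y

/-- `e` is an integral class of `Eff` of negative square such that for all `γ` in `Γ` one of
`γ e`, `- γ e` is in `Eff` (for `X`: the class of a prime exceptional divisor, for
instance of a prime divisor contracted by a birational morphism). -/
structure IsExceptional (B : Matrix (Fin n) (Fin n) ℤ) (Γ : Subgroup (GL (Fin n) ℤ))
    (Eff : PointedCone ℝ (Fin n → ℝ)) (e : Fin n → ℤ) : Prop where
  effective : intVec e ∈ Eff
  square : form B (intVec e) (intVec e) < 0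
  sign : ∀ γ ∈ Γ, act γ.val (intVec e) ∈ Eff ∨ -act γ.val (intVec e) ∈ Eff

/-- `a` is an integral class of positive square of the chamber of `h` and the integral
matrix `P` is injective with image the subspace `faceSpace B W a` orthogonal to the walls through
`a` (for a birational morphism `π : X ⟶ M`: `a` is the pull back of an ample class, `P` the pull back
of the Neron-Severi lattice of Cartier divisors of `M`). -/
structure IsContraction (B : Matrix (Fin n) (Fin n) ℤ) (h : Fin n → ℝ) (W : Set (Fin n → ℤ))
    (a : Fin n → ℤ) (P : Matrix (Fin n) (Fin m) ℤ) : Prop where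
  nef : intVec a ∈ chamber B h W
  big : 0 < form B (intVec a) (intVec a)
  injective : Function.Injective (pull P)
  range : Set.range (pull P) = faceSpace B W (intVec a)

/-- `G` preserves the pull backs of the chamber and of `Eff` along `P`, and contains the restrictions
of the elements of `Γ` which preserve the chamber and the face (for `X` and `M`: the
action of the automorphism group of `M`). -/
structure IsAutomorphismGroup (B : Matrix (Fin n) (Fin n) ℤ) (h : Fin n → ℝ)
    (Γ : Subgroup (GL (Fin n) ℤ)) (W : Set (Fin n → ℤ)) (Eff : PointedCone ℝ (Fin n → ℝ))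
    (a : Fin n → ℤ) (P : Matrix (Fin n) (Fin m) ℤ) (G : Subgroup (GL (Fin m) ℤ)) : Prop where
  nef : ∀ g ∈ G, ∀ z, pull P z ∈ chamber B h W → pull P (act g.val z) ∈ chamber B h W
  eff : ∀ g ∈ G, ∀ z, pull P z ∈ Eff → pull P (act g.val z) ∈ Eff
  restrict : ∀ γ ∈ Γ, act γ.val '' chamber B h W = chamber B h W →
    act γ.val '' faceSpace B W (intVec a) = faceSpace B W (intVec a) →
    ∃ g ∈ G, ∀ z, pull P (act g.val z) = act γ.val (pull P z)

end Pool.Agent.SymCone
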