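import Pool.Agent.SymCone.Defs
import Pool.Agent.H93Cone.Domain

/-!
Elementary facts on hyperbolic forms.
-/

set_option autoImplicit false

namespace Pool.Agent.SymCone

open Pool.Agent.H93Cone

variable {n : ℕ} {B : Matrix (Fin n) (Fin n) ℤ}

lemma form_add_left (x y z : Fin n → ℝ) : form B (x + y) z = form B x z + form B y z := by
  simp [form, add_dotProduct]

lemma form_add_right (x y z : Fin n → ℝ) : form B x (y + z) = form B x y + form B x z := by
  simp [form, Matrix.mulVec_add, dotProduct_add]

lemma form_smul_left (c : ℝ) (x y : Fin n → ℝ) : form B (c • x) y = c * form B x y := by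
  simp [form, smul_dotProduct]

lemma form_smul_right (c : ℝ) (x y : Fin n → ℝ) : form B x (c • y) = c * form B x y := by
  simp [form, Matrix.mulVec_smul, dotProduct_smul]

lemma form_neg_left (x y : Fin n → ℝ) : form B (-x) y = -form B x y := by
  simp [form]

lemma form_neg_right (x y : Fin n → ℝ) : form B x (-y) = -form B x y := by
  simp [form, Matrix.mulVec_neg]

lemma form_sub_left (x y z : Fin n → ℝ) : form B (x - y) z = form B x z - form B y z := by
  simp [form, sub_dotProduct]

lemma form_sub_right (x y z : Fin n → ℝ) : form B x (y - z) = form B x y - form B x z := by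
  simp [form, Matrix.mulVec_sub, dotProduct_sub]

@[simp] lemma form_zero_left (x : Fin n → ℝ) : form B 0 x = 0 := by simp [form]

@[simp] lemma form_zero_right (x : Fin n → ℝ) : form B x 0 = 0 := by simp [form]

lemma form_sum_left {ι : Type*} (s : Finset ι) (f : ι → Fin n → ℝ) (y : Fin n → ℝ) :
    form B (∑ i ∈ s, f i) y = ∑ i ∈ s, form B (f i) y := by
  classical
  induction s using Finset.induction_on with
  | empty => simp
  | insert a s ha ih => rw [Finset.sum_insert ha, Finset.sum_insert ha, form_add_left, ih]

lemma form_sum_right {ι : Type*} (s : Finset ι) (f : ι → Fin n → ℝ) (y : Fin n → ℝ) :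
    form B y (∑ i ∈ s, f i) = ∑ i ∈ s, form B y (f i) := by
  classical
  induction s using Finset.induction_on with
  | empty => simp
  | insert a s ha ih => rw [Finset.sum_insert ha, Finset.sum_insert ha, form_add_right, ih]

/-- The form is integral on integral vectors. -/
lemma form_intVec (v w : Fin n → ℤ) :
    form B (intVec v) (intVec w) = ((v ⬝ᵥ B.mulVec w : ℤ) : ℝ) := by
  unfold form intVec dotProduct Matrix.mulVec dotProduct
  push_cast
  rfl

/-- The form is rational on rational vectors. -/
lemma form_ratVec (v w : Fin n → ℚ) :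
    form B (ratVec v) (ratVec w) =
      ((v ⬝ᵥ (B.map (Int.cast : ℤ → ℚ)).mulVec w : ℚ) : ℝ) := by
  unfold form ratVec dotProduct Matrix.mulVec dotProduct
  push_cast
  simp

lemma act_intVec (g : Matrix (Fin n) (Fin n) ℤ) (v : Fin n → ℤ) :
    act g (intVec v) = intVec (g.mulVec v) := by
  funext i
  simp [act, intVec, Matrix.mulVec, dotProduct]

/-- Integral isometries preserve the real form. -/
lemma form_act {g : GL (Fin n) ℤ} (hg : g ∈ isoms B) (x y : Fin n → ℝ) :
    form B (act g.val x) (act g.val y) = form B x y := by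
  have h1 : g.val.transpose * B * g.val = B := hg
  have h2 : (g.val.map (Int.cast : ℤ → ℝ)).transpose * (B.map (Int.cast : ℤ → ℝ)) *
      (g.val.map (Int.cast : ℤ → ℝ)) = B.map (Int.cast : ℤ → ℝ) := by
    have h3 := congrArg (fun M : Matrix (Fin n) (Fin n) ℤ => M.map (Int.castRingHom ℝ)) h1
    simp only [Matrix.map_mul] at h3
    exact h3
  unfold form act
  simp only [Matrix.mulVecLin_apply]
  rw [Matrix.mulVec_mulVec, Matrix.dotProduct_mulVec, ← Matrix.vecMul_transpose,
    Matrix.vecMul_vecMul, ← Matrix.dotProduct_mulVec, ← h2]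
  congr 2
  rw [← Matrix.mul_assoc, h2]
  exact h2

lemma Hyperbolic.comm {h : Fin n → ℝ} (hB : Hyperbolic B h) (x y : Fin n → ℝ) :
    form B x y = form B y x := by
  have h1 : (B.map (Int.cast : ℤ → ℝ)).transpose = B.map (Int.cast : ℤ → ℝ) := by
    rw [← Matrix.transpose_map, hB.symm]
  unfold form
  rw [Matrix.dotProduct_mulVec, ← Matrix.mulVec_transpose, h1, dotProduct_comm]

/-- Orthogonal to a vector of positive square: negative. -/
lemma Hyperbolic.neg_of_orth {h : Fin n → ℝ} (hB : Hyperbolic B h) {x y : Fin n → ℝ}
    (hx : 0 < form B x x) (hxy : form B x y = 0) (hy : y ≠ 0) : form B y y < 0 := by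
  by_contra hc
  push Not at hc
  -- the vector `z = (h,y) x - (h,x) y` is orthogonal to `h`
  have hhx : form B h x ≠ 0 := by
    intro h0
    have := hB.neg x h0 (by rintro rfl; simp at hx)
    linarith
  set z := form B h y • x - form B h x • y with hz
  have h1 : form B h z = 0 := by
    rw [hz, form_sub_right, form_smul_right, form_smul_right]; ring
  have h2 : form B z z = (form B h y) ^ 2 * form B x x + (form B h x) ^ 2 * form B y y := by
    rw [hz, form_sub_right, form_sub_left, form_sub_left]
    simp only [form_smul_left, form_smul_right]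
    rw [hB.comm y x, hxy]; ring
  have h3 : 0 ≤ form B z z := by
    rw [h2]; positivity
  have h4 : z = 0 := by
    by_contra hz0
    have := hB.neg z h1 hz0
    linarith
  have h5 : form B z y = 0 := by rw [h4]; simp
  have h6 : form B x z = 0 := by rw [h4]; simp
  rw [hz, form_sub_right, form_smul_right, form_smul_right, hxy] at h6
  have h7 : form B h y = 0 := by
    rcases mul_eq_zero.1 (by linarith : form B h y * form B x x = 0) with h | h
    · exact h
    · exact absurd h hx.ne'
  have := hB.neg y h7 hy
  linarith

/-- The reversed Cauchy-Schwarz inequality. -/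
lemma Hyperbolic.reverse {h : Fin n → ℝ} (hB : Hyperbolic B h) {x : Fin n → ℝ}
    (hx : 0 < form B x x) (y : Fin n → ℝ) :
    form B x x * form B y y ≤ (form B x y) ^ 2 := by
  set z := form B x x • y - form B x y • x with hz
  have h1 : form B x z = 0 := by
    rw [hz, form_sub_right, form_smul_right, form_smul_right]; ring
  have h2 : form B z z = form B x x * (form B x x * form B y y - (form B x y) ^ 2) := by
    rw [hz, form_sub_right, form_sub_left, form_sub_left]
    simp only [form_smul_left, form_smul_right]
    rw [hB.comm y x]; ring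
  have h3 : form B z z ≤ 0 := by
    by_cases hz0 : z = 0
    · rw [hz0]; simp
    · exact (hB.neg_of_orth hx h1 hz0).le
  rw [h2] at h3
  by_contra hc
  push Not at hc
  have : 0 < form B x x * (form B x x * form B y y - (form B x y) ^ 2) :=
    mul_pos hx (by linarith)
  linarith

/-- Equality in the reversed Cauchy-Schwarz inequality. -/
lemma Hyperbolic.reverse_eq {h : Fin n → ℝ} (hB : Hyperbolic B h) {x : Fin n → ℝ}
    (hx : 0 < form B x x) {y : Fin n → ℝ} (hxy : (form B x y) ^ 2 ≤ form B x x * form B y y) :
    form B x x • y = form B x y • x := by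
  set z := form B x x • y - form B x y • x with hz
  have h1 : form B x z = 0 := by
    rw [hz, form_sub_right, form_smul_right, form_smul_right]; ring
  have h2 : form B z z = form B x x * (form B x x * form B y y - (form B x y) ^ 2) := by
    rw [hz, form_sub_right, form_sub_left, form_sub_left]
    simp only [form_smul_left, form_smul_right]
    rw [hB.comm y x]; ring
  have h3 : 0 ≤ form B z z := by
    rw [h2]; exact mul_nonneg hx.le (by linarith)
  by_contra hc
  have hz0 : z ≠ 0 := fun h0 => hc (sub_eq_zero.1 (by rw [← h0]))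
  have := hB.neg_of_orth hx h1 hz0
  linarith

/-- A nonzero vector of the closed positive cone has positive product with `h`. -/
lemma Hyperbolic.pos_of_mem {h : Fin n → ℝ} (hB : Hyperbolic B h) {x : Fin n → ℝ}
    (hx : x ∈ closedPos B h) (hx0 : x ≠ 0) : 0 < form B h x := by
  rcases hx.2.lt_or_eq with h1 | h1
  · exact h1
  · exact absurd hx.1 (not_le.2 (hB.neg x h1.symm hx0))

/-- Two vectors of the closed positive cone have nonnegative product. -/
lemma Hyperbolic.nonneg_mul {h : Fin n → ℝ} (hB : Hyperbolic B h) {x y : Fin n → ℝ}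
    (hx : x ∈ closedPos B h) (hy : y ∈ closedPos B h) : 0 ≤ form B x y := by
  by_contra hc
  push Not at hc
  by_cases hx0 : x = 0
  · rw [hx0] at hc; simp at hc
  by_cases hy0 : y = 0
  · rw [hy0] at hc; simp at hc
  have hhx := hB.pos_of_mem hx hx0
  have hhy := hB.pos_of_mem hy hy0
  set z := form B h y • x - form B h x • y with hz
  have h1 : form B h z = 0 := by
    rw [hz, form_sub_right, form_smul_right, form_smul_right]; ring
  have h2 : form B z z = (form B h y) ^ 2 * form B x x + (form B h x) ^ 2 * form B y y -
      2 * (form B h x * form B h y) * form B x y := by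
    rw [hz, form_sub_right, form_sub_left, form_sub_left]
    simp only [form_smul_left, form_smul_right]
    rw [hB.comm y x]; ring
  have h3 : 0 < form B z z := by
    rw [h2]
    have e1 : 0 ≤ (form B h y) ^ 2 * form B x x := mul_nonneg (sq_nonneg _) hx.1
    have e2 : 0 ≤ (form B h x) ^ 2 * form B y y := mul_nonneg (sq_nonneg _) hy.1
    have e3 : 0 < (form B h x * form B h y) * (-form B x y) :=
      mul_pos (mul_pos hhx hhy) (by linarith)
    linarith
  have h4 := hB.neg z h1 (by rintro h0; rw [h0] at h3; simp at h3)
  linarith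

/-- The product of two nonzero vectors of the closed positive cone is positive unless they are
isotropic and proportional. -/
lemma Hyperbolic.pos_mul {h : Fin n → ℝ} (hB : Hyperbolic B h) {x y : Fin n → ℝ}
    (hx : x ∈ closedPos B h) (hy : y ∈ closedPos B h) (hx0 : x ≠ 0) (hy0 : y ≠ 0)
    (hprop : form B h y • x ≠ form B h x • y) : 0 < form B x y := by
  rcases (hB.nonneg_mul hx hy).lt_or_eq with h0 | h0
  · exact h0
  exfalso
  have hhx := hB.pos_of_mem hx hx0
  have hhy := hB.pos_of_mem hy hy0
  set z := form B h y • x - form B h x • y with hz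
  have h1 : form B h z = 0 := by
    rw [hz, form_sub_right, form_smul_right, form_smul_right]; ring
  have h2 : form B z z = (form B h y) ^ 2 * form B x x + (form B h x) ^ 2 * form B y y := by
    rw [hz, form_sub_right, form_sub_left, form_sub_left]
    simp only [form_smul_left, form_smul_right]
    rw [hB.comm y x, ← h0]; ring
  have h3 : 0 ≤ form B z z := by
    rw [h2]
    exact add_nonneg (mul_nonneg (sq_nonneg _) hx.1) (mul_nonneg (sq_nonneg _) hy.1)
  have h4 := hB.neg z h1 (fun h0 => hprop (sub_eq_zero.1 (by rw [← h0])))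
  linarith

/-- The product of a vector of the open positive cone and a nonzero vector of the closed one. -/
lemma Hyperbolic.pos_mul_open {h : Fin n → ℝ} (hB : Hyperbolic B h) {x y : Fin n → ℝ}
    (hx : x ∈ openPos B h) (hy : y ∈ closedPos B h) (hy0 : y ≠ 0) : 0 < form B x y := by
  have hxc : x ∈ closedPos B h := ⟨hx.1.le, hx.2.le⟩
  rcases (hB.nonneg_mul hxc hy).lt_or_eq with h0 | h0
  · exact h0
  have := hB.neg_of_orth hx.1 h0.symm hy0
  exact absurd hy.1 (not_le.2 this)

lemma openPos_subset {h : Fin n → ℝ} : openPos B h ⊆ closedPos B h :=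
  fun _ hx => ⟨hx.1.le, hx.2.le⟩

/-- A vector of positive square on the closed side lies in the open cone. -/
lemma Hyperbolic.mem_openPos {h : Fin n → ℝ} (hB : Hyperbolic B h) {x : Fin n → ℝ}
    (hx : x ∈ closedPos B h) (hx1 : 0 < form B x x) : x ∈ openPos B h :=
  ⟨hx1, hB.pos_of_mem hx (by rintro rfl; simp at hx1)⟩

/-- `h` may be replaced by any vector of the open positive cone. -/
lemma Hyperbolic.mem_closedPos_iff {h : Fin n → ℝ} (hB : Hyperbolic B h) {x y : Fin n → ℝ}
    (hx : x ∈ openPos B h) (hy : 0 ≤ form B y y) : y ∈ closedPos B h ↔ 0 ≤ form B x y := by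
  constructor
  · intro h1
    exact hB.nonneg_mul (openPos_subset hx) h1
  · intro h1
    refine ⟨hy, ?_⟩
    by_contra hc
    push Not at hc
    have h2 : -y ∈ closedPos B h :=
      ⟨by rw [form_neg_left, form_neg_right, neg_neg]; exact hy, by
        rw [form_neg_right]; linarith⟩
    have h3 := hB.pos_mul_open hx h2 (by
      intro h0
      have : y = 0 := by rw [← neg_neg y, h0, neg_zero]
      rw [this] at hc; simp at hc)
    rw [form_neg_right] at h3
    linarith

/-- The closed positive cone is closed under addition. -/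
lemma Hyperbolic.add_mem {h : Fin n → ℝ} (hB : Hyperbolic B h) {x y : Fin n → ℝ}
    (hx : x ∈ closedPos B h) (hy : y ∈ closedPos B h) : x + y ∈ closedPos B h := by
  refine ⟨?_, ?_⟩
  · rw [form_add_left, form_add_right, form_add_right, hB.comm y x]
    have := hB.nonneg_mul hx hy
    linarith [hx.1, hy.1]
  · rw [form_add_right]; linarith [hx.2, hy.2]

lemma smul_mem_closedPos {h : Fin n → ℝ} {x : Fin n → ℝ} {c : ℝ} (hc : 0 ≤ c)
    (hx : x ∈ closedPos B h) : c • x ∈ closedPos B h := by
  refine ⟨?_, ?_⟩
  · rw [form_smul_left, form_smul_right]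
    exact mul_nonneg hc (mul_nonneg hc hx.1)
  · rw [form_smul_right]
    exact mul_nonneg hc hx.2

/-- The closed positive cone as a convex cone. -/
def Hyperbolic.posCone {h : Fin n → ℝ} (hB : Hyperbolic B h) : PointedCone ℝ (Fin n → ℝ) where
  carrier := closedPos B h
  add_mem' := fun hx hy => hB.add_mem hx hy
  zero_mem' := by
    show (0 : Fin n → ℝ) ∈ closedPos B h
    exact ⟨by simp, by simp⟩
  smul_mem' := fun c _ hx => smul_mem_closedPos c.2 hx

/-- The chamber as a convex cone. -/
def Hyperbolic.chamberCone {h : Fin n → ℝ} (hB : Hyperbolic B h) (W : Set (Fin n → ℤ)) :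
    PointedCone ℝ (Fin n → ℝ) where
  carrier := chamber B h W
  add_mem' := by
    intro x y hx hy
    refine ⟨hB.add_mem hx.1 hy.1, fun w hw h1 => ?_⟩
    rw [form_add_left]
    exact add_nonneg (hx.2 w hw h1) (hy.2 w hw h1)
  zero_mem' := by
    show (0 : Fin n → ℝ) ∈ chamber B h W
    exact ⟨⟨by simp, by simp⟩, fun w hw _ => by simp⟩
  smul_mem' := by
    intro c x hx
    refine ⟨smul_mem_closedPos c.2 hx.1, fun w hw h1 => ?_⟩
    have := mul_nonneg c.2 (hx.2 w hw h1)
    rw [← form_smul_left] at this
    exact this

/-- A hyperbolic form is nondegenerate. -/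
lemma Hyperbolic.det_ne_zero {h : Fin n → ℝ} (hB : Hyperbolic B h) : B.det ≠ 0 := by
  intro h0
  have h1 : (B.map (Int.cast : ℤ → ℝ)).det = 0 := by
    have := Int.cast_det (R := ℝ) B
    rw [h0] at this
    rw [← this]; simp
  obtain ⟨v, hv0, hv⟩ := Matrix.exists_mulVec_eq_zero_iff.2 h1
  have h2 : ∀ x, form B x v = 0 := fun x => by
    unfold form; rw [hv]; simp
  have := hB.neg v (h2 h) hv0
  rw [h2 v] at this
  exact lt_irrefl _ this

end Pool.Agent.SymCone
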