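import Pool.Agent.SymCone.Maj
import Pool.Agent.H55.Cone.Dom

/-!
# Finiteness of walls

PROOFS (write `(v, w) = form B v w`, `q(v) = (v, v)`).
* `finite_orth`: let `c = √(q(y)) > 0`, `x = c⁻¹ y`, `q(x) = 1`. For `w` in the set
  `maj B x w = 2 (x, w)^2 - q(w) = -q(w) <= b`: apply `finite_maj`.
* `sep_bound` : let `κ = (s, s')`, `D = κ^2 - q(s) q(s')`, `a = (s, w) > 0`, `c = -(s', w) > 0`. Put
  `m = c s + a s'`: `(m, w) = 0`, `q(m) = c^2 q(s) + 2 a c κ + a^2 q(s')`. `κ > 0`: `κ >= 0` by `nonneg_mul`, and if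
  `κ = 0`, then by `pos_mul` (contrapositive) `s, s'` are proportional with positive factors
  (`s, s' ≠ 0`, `form B h s' • s = form B h s • s'`), which contradicts the opposite signs of
  `(s, w)`, `(s', w)`. So `q(m) >= 2 a c κ > 0`. `D >= 0`: for `y = w' := ...` not needed. Put
  `y = D w + (a q(s') + c κ) s - (c q(s) + a κ) s'`. Then `(y, s) = 0` and `(y, s') = 0`, so
  `(y, m) = 0`, so `q(y) <= 0` (`neg_of_orth` with `m`, or `y = 0`), and
  `q(y) = D (y, w) = D (D q(w) + q(m))`. `D > 0`: the vector `z = q(m) s - (m, s) m` is orthogonal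
  to `m`, so `q(z) <= 0`, and `q(z) = q(m) (q(m) q(s) - (m, s)^2)`, with
  `q(m) q(s) - (m, s)^2 = a^2 (q(s) q(s') - κ^2) = - a^2 D`; so `D >= 0`; if `D = 0`, then `z = 0` by
  `neg_of_orth`, so `0 = (z, w) = q(m) a > 0`, a contradiction. Hence `D q(w) + q(m) <= 0`,
  `2 a c κ <= q(m) <= - D q(w) <= D b <= κ^2 b` (if `b >= 0`; the last step uses `q(s) q(s') >= 0`), i.e.
  `2 a c <= κ b`.
* `finite_sep`: the statement for `max b 0` implies the one for `b`. Let `N > 0` be a common denominator of the coordinates of `s`, `s'`. For `w`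
  in the set `N a`, `N c` are positive integers (`form_ratVec` or `form_intVec` for `N s`), so `a, c >= 1/N`, and
  `sep_bound` gives `a, c <= N κ b / 2`: the pair `(a, c)` takes finitely many values. For each value
  `w` is orthogonal to `m = c s + a s'` with `q(m) > 0`: `finite_orth`.
* `finite_near`: the first alternative gives finitely many `w` by `finite_sep` (finite union over the
  pairs `s, s'`). Let `w` be in `W` with `(y, w) = 0`, `y ∈ ratCone S`, `q(y) > 0`, not satisfying the first alternative. Write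
  `y = ∑_{s ∈ S} c_s s` with `c_s >= 0` (`mem_hull_iff` in `Pool.Agent.H93Cone.MW`), `I = {s ∈ S | c_s > 0}`. The numbers `(s, w)`, `s ∈ S`,
  are all `>= 0` or all `<= 0`, and `∑ c_s (s, w) = 0`, so `(s, w) = 0` for `s ∈ I`. For each `I ⊆ S` for
  which there are positive `c_s`, `s ∈ I`, with `q(∑_{s ∈ I} c_s s) > 0`, fix one such `y_I`; then `(y_I, w) = 0`
  and `finite_orth` applies to `y_I`. Finitely many `I` (`Finset.powerset`).
* `sign_of_not_near`: `(y, w) ≠ 0` since `w` is not near, so `(y, w) > 0`. Write `y = ∑ c_s s`; some `s ∈ S`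
  has `(s, w) > 0`; as `w` is not near no `s' ∈ S` has `(s', w) < 0`. So `(z, w) >= 0` for all `z` in
  the cone.
-/

set_option autoImplicit false

namespace Pool.Agent.SymCone

open Pool.Agent.H93Cone Pool.Agent.H55.Cone

variable {n : ℕ} {B : Matrix (Fin n) (Fin n) ℤ} {h : Fin n → ℝ}

lemma finite_orth (hB : Hyperbolic B h) {y : Fin n → ℝ} (hy : 0 < form B y y) (b : ℝ) :
    {w : Fin n → ℤ | -b ≤ form B (intVec w) (intVec w) ∧ form B y (intVec w) = 0}.Finite := by
  set c : ℝ := Real.sqrt (form B y y) with hc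
  have hc0 : 0 < c := Real.sqrt_pos.2 hy
  have hcc : c * c = form B y y := Real.mul_self_sqrt hy.le
  set x : Fin n → ℝ := c⁻¹ • y with hx
  have hxx : form B x x = 1 := by
    rw [hx, form_smul_left, form_smul_right, ← hcc]
    field_simp
  refine (finite_maj hB hxx b).subset ?_
  rintro w ⟨h1, h2⟩
  have h3 : form B x (intVec w) = 0 := by
    rw [hx, form_smul_left, h2, mul_zero]
  show maj B x (intVec w) ≤ b
  unfold maj
  rw [h3]
  linarith

lemma sep_bound (hB : Hyperbolic B h) {s s' w : Fin n → ℝ} (hs : s ∈ closedPos B h)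
    (hs' : s' ∈ closedPos B h) {b : ℝ} (hb : 0 ≤ b) (hw : -b ≤ form B w w)
    (h1 : 0 < form B s w) (h2 : form B s' w < 0) :
    0 < form B s s' ∧ 2 * (form B s w * -form B s' w) ≤ form B s s' * b := by
  have hs0 : s ≠ 0 := by rintro rfl; simp at h1
  have hs0' : s' ≠ 0 := by rintro rfl; simp at h2
  have hhs := hB.pos_of_mem hs hs0
  have hhs' := hB.pos_of_mem hs' hs0'
  have hκ : 0 < form B s s' := by
    refine hB.pos_mul hs hs' hs0 hs0' ?_
    intro he
    have h3 : form B h s' * form B s w = form B h s * form B s' w := by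
      rw [← form_smul_left, ← form_smul_left, he]
    have h4 : 0 < form B h s' * form B s w := mul_pos hhs' h1
    have h5 : form B h s * form B s' w < 0 := mul_neg_of_pos_of_neg hhs h2
    linarith
  refine ⟨hκ, ?_⟩
  have hsw : form B w s = form B s w := hB.comm w s
  have hsw' : form B w s' = form B s' w := hB.comm w s'
  have hss : form B s' s = form B s s' := hB.comm s' s
  obtain ⟨κ, hκe⟩ : ∃ κ, κ = form B s s' := ⟨_, rfl⟩
  obtain ⟨a, hae⟩ : ∃ a, a = form B s w := ⟨_, rfl⟩
  obtain ⟨c, hce⟩ : ∃ c, c = -form B s' w := ⟨_, rfl⟩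
  obtain ⟨p, hpe⟩ : ∃ p, p = form B s s := ⟨_, rfl⟩
  obtain ⟨p', hpe'⟩ : ∃ p', p' = form B s' s' := ⟨_, rfl⟩
  obtain ⟨r, hre⟩ : ∃ r, r = form B w w := ⟨_, rfl⟩
  have hce' : form B s' w = -c := by rw [hce, neg_neg]
  have ha : 0 < a := hae ▸ h1
  have hc : 0 < c := by rw [hce]; linarith
  have hp : 0 ≤ p := hpe ▸ hs.1
  have hp' : 0 ≤ p' := hpe' ▸ hs'.1
  have hκ' : 0 < κ := hκe ▸ hκ
  have hw' : -b ≤ r := hre ▸ hw
  rw [← hae, ← hce, ← hκe]
  rw [← hκe] at hss
  rw [← hae] at hsw
  rw [hce'] at hsw'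
  set m : Fin n → ℝ := c • s + a • s' with hm
  set q : ℝ := c ^ 2 * p + 2 * a * c * κ + a ^ 2 * p' with hq
  have hq0 : 0 < q := by
    have e1 : 0 ≤ c ^ 2 * p := mul_nonneg (sq_nonneg _) hp
    have e2 : 0 ≤ a ^ 2 * p' := mul_nonneg (sq_nonneg _) hp'
    have e3 : 0 < 2 * a * c * κ := by positivity
    linarith
  have hms : form B m s = c * p + a * κ := by
    rw [hm, form_add_left, form_smul_left, form_smul_left, ← hpe, hss]
  have hms' : form B m s' = c * κ + a * p' := by
    rw [hm, form_add_left, form_smul_left, form_smul_left, ← hpe', ← hκe]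
  have hmm : form B m m = q := by
    conv_lhs => rw [hm, form_add_right, form_smul_right, form_smul_right]
    rw [← hm, hms, hms', hq]; ring
  have hmw : form B m w = 0 := by
    rw [hm, form_add_left, form_smul_left, form_smul_left, hce', ← hae]; ring
  set D : ℝ := κ ^ 2 - p * p' with hD
  have hD0 : 0 < D := by
    set z : Fin n → ℝ := q • s - (c * p + a * κ) • m with hz
    have hmz : form B m z = 0 := by
      rw [hz, form_sub_right, form_smul_right, form_smul_right, hms, hmm]; ring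
    have hsm : form B s m = c * p + a * κ := by rw [hB.comm, hms]
    have hzz : form B z z = -(q * a ^ 2 * D) := by
      rw [hz, form_sub_right, form_sub_left, form_sub_left]
      simp only [form_smul_left, form_smul_right]
      rw [hms, hmm, hsm, ← hpe, hD, hq]; ring
    have hzw : form B z w = q * a := by
      rw [hz, form_sub_left, form_smul_left, form_smul_left, hmw, ← hae]; ring
    have hz0 : z ≠ 0 := by
      intro h0
      rw [h0, form_zero_left] at hzw
      have : 0 < q * a := mul_pos hq0 ha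
      linarith
    have := hB.neg_of_orth (hmm ▸ hq0) hmz hz0
    rw [hzz] at this
    have h6 : 0 < (q * a ^ 2) * D := by linarith
    exact (mul_pos_iff_of_pos_left (by positivity)).1 h6
  set y : Fin n → ℝ := D • w + (a * p' + c * κ) • s - (c * p + a * κ) • s' with hy
  have hys : form B y s = 0 := by
    rw [hy, form_sub_left, form_add_left, form_smul_left, form_smul_left, form_smul_left, hsw,
      ← hpe, hss, hD]; ring
  have hys' : form B y s' = 0 := by
    rw [hy, form_sub_left, form_add_left, form_smul_left, form_smul_left, form_smul_left, hsw',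
      ← hpe', ← hκe, hD]; ring
  have hyw : form B y w = D * r + q := by
    rw [hy, form_sub_left, form_add_left, form_smul_left, form_smul_left, form_smul_left, hce',
      ← hre, ← hae, hq]; ring
  have hyy : form B y y = D * (D * r + q) := by
    conv_lhs => rw [hy, form_sub_right, form_add_right, form_smul_right, form_smul_right,
      form_smul_right]
    rw [← hy, hys, hys', hyw]; ring
  have hmy : form B m y = 0 := by
    rw [hB.comm, hm, form_add_right, form_smul_right, form_smul_right, hys, hys']; ring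
  have hyy0 : form B y y ≤ 0 := by
    by_cases h0 : y = 0
    · rw [h0]; simp
    · exact (hB.neg_of_orth (hmm ▸ hq0) hmy h0).le
  rw [hyy] at hyy0
  have h7 : D * r + q ≤ 0 := by
    by_contra hcon
    push Not at hcon
    have := mul_pos hD0 hcon
    linarith
  have h8 : q ≤ D * b := by
    have := mul_le_mul_of_nonneg_left hw' hD0.le
    linarith
  have h9 : D * b ≤ κ ^ 2 * b := by
    refine mul_le_mul_of_nonneg_right ?_ hb
    rw [hD]
    have := mul_nonneg hp hp'
    linarith
  have h10 : κ * (2 * (a * c)) ≤ κ * (κ * b) := by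
    have e1 : 0 ≤ c ^ 2 * p := mul_nonneg (sq_nonneg _) hp
    have e2 : 0 ≤ a ^ 2 * p' := mul_nonneg (sq_nonneg _) hp'
    have e3 : κ * (2 * (a * c)) ≤ q := by rw [hq]; nlinarith
    calc κ * (2 * (a * c)) ≤ q := e3
      _ ≤ D * b := h8
      _ ≤ κ ^ 2 * b := h9
      _ = κ * (κ * b) := by ring
  exact le_of_mul_le_mul_left h10 hκ'

lemma finite_sep (hB : Hyperbolic B h) (s s' : Fin n → ℚ) (hs : ratVec s ∈ closedPos B h)
    (hs' : ratVec s' ∈ closedPos B h) (b : ℝ) :
    {w : Fin n → ℤ | -b ≤ form B (intVec w) (intVec w) ∧ 0 < form B (ratVec s) (intVec w) ∧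
      form B (ratVec s') (intVec w) < 0}.Finite := by
  classical
  obtain ⟨N, hN, hden⟩ := exists_denom ({s, s'} : Finset (Fin n → ℚ))
  obtain ⟨z, hz⟩ := hden s (by simp)
  obtain ⟨z', hz'⟩ := hden s' (by simp)
  have hN0 : (0 : ℝ) < N := by exact_mod_cast hN
  by_cases hκ : 0 < form B (ratVec s) (ratVec s')
  swap
  · refine Set.Finite.subset Set.finite_empty ?_
    rintro w ⟨h1, h2, h3⟩
    exact absurd (sep_bound hB hs hs' (le_max_right b 0)
      (by linarith [le_max_left b 0]) h2 h3).1 hκ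
  set κ := form B (ratVec s) (ratVec s') with hκe
  set M : ℤ := ⌈(N : ℝ) ^ 2 * (κ * max b 0)⌉ with hM
  have hfin : (⋃ k ∈ (Finset.Icc (1 : ℤ) M : Set ℤ), ⋃ l ∈ (Finset.Icc (1 : ℤ) M : Set ℤ),
      {w : Fin n → ℤ | -b ≤ form B (intVec w) (intVec w) ∧
        form B ((l : ℝ) • intVec z + (k : ℝ) • intVec z') (intVec w) = 0}).Finite := by
    refine Set.Finite.biUnion (Finset.finite_toSet _) fun k hk => ?_
    refine Set.Finite.biUnion (Finset.finite_toSet _) fun l hl => ?_
    have hk1 : (1 : ℝ) ≤ k := by exact_mod_cast (Finset.mem_Icc.1 (Finset.mem_coe.1 hk)).1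
    have hl1 : (1 : ℝ) ≤ l := by exact_mod_cast (Finset.mem_Icc.1 (Finset.mem_coe.1 hl)).1
    refine finite_orth hB ?_ b
    rw [form_add_right, form_add_left, form_add_left]
    simp only [form_smul_left, form_smul_right]
    rw [← hz, ← hz']
    simp only [form_smul_left, form_smul_right]
    rw [hB.comm (ratVec s') (ratVec s), ← hκe]
    have e1 := hs.1
    have e2 := hs'.1
    have e3 : 0 ≤ (l : ℝ) * (l * (N * (N * form B (ratVec s) (ratVec s)))) := by positivity
    have e4 : 0 ≤ (k : ℝ) * (k * (N * (N * form B (ratVec s') (ratVec s')))) := by positivity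
    have e5 : 0 < (l : ℝ) * (k * (N * (N * κ))) := by positivity
    have e6 : 0 < (k : ℝ) * (l * (N * (N * κ))) := by positivity
    linarith
  refine hfin.subset ?_
  rintro w ⟨h1, h2, h3⟩
  obtain ⟨-, h4⟩ := sep_bound hB hs hs' (le_max_right b 0)
    (by linarith [le_max_left b 0]) h2 h3
  have hk : (N : ℝ) * form B (ratVec s) (intVec w) = ((z ⬝ᵥ B.mulVec w : ℤ) : ℝ) := by
    rw [← form_smul_left, hz, form_intVec]
  have hl : (N : ℝ) * -form B (ratVec s') (intVec w) = ((-(z' ⬝ᵥ B.mulVec w) : ℤ) : ℝ) := by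
    rw [Int.cast_neg, ← form_intVec, ← hz', form_smul_left]; ring
  set k : ℤ := z ⬝ᵥ B.mulVec w with hkk
  set l : ℤ := -(z' ⬝ᵥ B.mulVec w) with hll
  have hk0 : (0 : ℝ) < k := by rw [← hk]; exact mul_pos hN0 h2
  have hl0 : (0 : ℝ) < l := by rw [← hl]; exact mul_pos hN0 (by linarith)
  have hk1 : 1 ≤ k := by
    have : 0 < k := by exact_mod_cast hk0
    omega
  have hl1 : 1 ≤ l := by
    have : 0 < l := by exact_mod_cast hl0
    omega
  have hk1' : (1 : ℝ) ≤ k := by exact_mod_cast hk1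
  have hl1' : (1 : ℝ) ≤ l := by exact_mod_cast hl1
  have hkl : (k : ℝ) * l ≤ (N : ℝ) ^ 2 * (κ * max b 0) := by
    have e1 : (k : ℝ) * l = (N : ℝ) ^ 2 *
        (form B (ratVec s) (intVec w) * -form B (ratVec s') (intVec w)) := by
      rw [← hk, ← hl]; ring
    rw [e1]
    refine mul_le_mul_of_nonneg_left ?_ (sq_nonneg _)
    have e2 : 0 < form B (ratVec s) (intVec w) * -form B (ratVec s') (intVec w) :=
      mul_pos h2 (by linarith)
    linarith
  have hkM : k ≤ M := by
    have : (k : ℝ) ≤ (N : ℝ) ^ 2 * (κ * max b 0) := by nlinarith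
    have e : (k : ℝ) ≤ ((M : ℤ) : ℝ) := this.trans (Int.le_ceil _)
    exact_mod_cast e
  have hlM : l ≤ M := by
    have : (l : ℝ) ≤ (N : ℝ) ^ 2 * (κ * max b 0) := by nlinarith
    have e : (l : ℝ) ≤ ((M : ℤ) : ℝ) := this.trans (Int.le_ceil _)
    exact_mod_cast e
  refine Set.mem_biUnion (Finset.mem_coe.2 (Finset.mem_Icc.2 ⟨hk1, hkM⟩)) ?_
  refine Set.mem_biUnion (Finset.mem_coe.2 (Finset.mem_Icc.2 ⟨hl1, hlM⟩)) ?_
  refine ⟨h1, ?_⟩
  rw [form_add_left, form_smul_left, form_smul_left, form_intVec, form_intVec, ← hkk]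
  have : ((z' ⬝ᵥ B.mulVec w : ℤ) : ℝ) = -(l : ℝ) := by rw [hll]; push_cast; ring
  rw [this]; ring

/-- The walls which separate generators of the cone over `S`, or meet it in a point of positive
square. -/
def near (B : Matrix (Fin n) (Fin n) ℤ) (W : Set (Fin n → ℤ)) (S : Finset (Fin n → ℚ)) :
    Set (Fin n → ℤ) :=
  {w | w ∈ W ∧ ((∃ s ∈ S, ∃ s' ∈ S, 0 < form B (ratVec s) (intVec w) ∧
      form B (ratVec s') (intVec w) < 0) ∨
    ∃ y ∈ ratCone S, 0 < form B y y ∧ form B y (intVec w) = 0)}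

lemma form_sum_smul (S : Finset (Fin n → ℚ)) (c : (Fin n → ℚ) → ℝ) (w : Fin n → ℝ) :
    form B (∑ s ∈ S, c s • ratVec s) w = ∑ s ∈ S, c s * form B (ratVec s) w := by
  rw [form_sum_left]
  exact Finset.sum_congr rfl fun s _ => form_smul_left _ _ _

lemma finite_near (hB : Hyperbolic B h) (W : Set (Fin n → ℤ)) (b : ℝ)
    (hW : ∀ w ∈ W, -b ≤ form B (intVec w) (intVec w)) (S : Finset (Fin n → ℚ))
    (hS : ∀ s ∈ S, ratVec s ∈ closedPos B h) : (near B W S).Finite := by
  classical
  have f1 : (⋃ s ∈ (S : Set (Fin n → ℚ)), ⋃ s' ∈ (S : Set (Fin n → ℚ)),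
      {w : Fin n → ℤ | -b ≤ form B (intVec w) (intVec w) ∧ 0 < form B (ratVec s) (intVec w) ∧
        form B (ratVec s') (intVec w) < 0}).Finite :=
    Set.Finite.biUnion (Finset.finite_toSet _) fun s hs =>
      Set.Finite.biUnion (Finset.finite_toSet _) fun s' hs' =>
        finite_sep hB s s' (hS s (Finset.mem_coe.1 hs)) (hS s' (Finset.mem_coe.1 hs')) b
  have f2 : (⋃ I ∈ (S.powerset : Set (Finset (Fin n → ℚ))),
      {w : Fin n → ℤ | -b ≤ form B (intVec w) (intVec w) ∧
        (∀ s ∈ I, form B (ratVec s) (intVec w) = 0) ∧ ∃ c : (Fin n → ℚ) → ℝ,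
          0 < form B (∑ s ∈ I, c s • ratVec s) (∑ s ∈ I, c s • ratVec s)}).Finite := by
    refine Set.Finite.biUnion (Finset.finite_toSet _) fun I _ => ?_
    by_cases hc : ∃ c : (Fin n → ℚ) → ℝ,
        0 < form B (∑ s ∈ I, c s • ratVec s) (∑ s ∈ I, c s • ratVec s)
    · obtain ⟨c, hc⟩ := hc
      refine (finite_orth hB hc b).subset ?_
      rintro w ⟨h1, h2, -⟩
      refine ⟨h1, ?_⟩
      rw [form_sum_smul]
      exact Finset.sum_eq_zero fun s hs => by rw [h2 s hs, mul_zero]
    · refine Set.Finite.subset Set.finite_empty ?_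
      rintro w ⟨-, -, h3⟩
      exact hc h3
  refine (f1.union f2).subset ?_
  rintro w ⟨hwW, hw⟩
  by_cases hsep : ∃ s ∈ S, ∃ s' ∈ S, 0 < form B (ratVec s) (intVec w) ∧
      form B (ratVec s') (intVec w) < 0
  · left
    obtain ⟨s, hs, s', hs', h1, h2⟩ := hsep
    exact Set.mem_biUnion (Finset.mem_coe.2 hs) (Set.mem_biUnion (Finset.mem_coe.2 hs')
      ⟨hW w hwW, h1, h2⟩)
  · right
    rcases hw with hw | ⟨y, hy, hyy, hyw⟩
    · exact absurd hw hsep
    obtain ⟨c, hc, rfl⟩ := (mem_hull_iff S y).1 hy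
    set I := S.filter (fun s => 0 < c s) with hI
    have hsum : ∑ s ∈ S, c s • ratVec s = ∑ s ∈ I, c s • ratVec s := by
      symm
      refine Finset.sum_subset (Finset.filter_subset _ _) fun s hs hsI => ?_
      have : c s = 0 := by
        have h1 : ¬ 0 < c s := fun h0 => hsI (Finset.mem_filter.2 ⟨hs, h0⟩)
        linarith [hc s, not_lt.1 h1]
      rw [this, zero_smul]
    have hyw' : ∑ s ∈ S, c s * form B (ratVec s) (intVec w) = 0 := by
      rw [← form_sum_smul, hyw]
    have hIS : I ⊆ S := by rw [hI]; exact Finset.filter_subset _ _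
    refine Set.mem_biUnion (Finset.mem_coe.2 (Finset.mem_powerset.2 hIS)) ?_
    refine ⟨hW w hwW, fun s hs => ?_, c, ?_⟩
    · obtain ⟨hsS, hcs⟩ := Finset.mem_filter.1 hs
      rcases lt_trichotomy (form B (ratVec s) (intVec w)) 0 with h0 | h0 | h0
      · exfalso
        have h1 : ∀ t ∈ S, form B (ratVec t) (intVec w) ≤ 0 := fun t ht => by
          by_contra hcon
          exact hsep ⟨t, ht, s, hsS, not_le.1 hcon, h0⟩
        have h2 : ∑ t ∈ S, c t * form B (ratVec t) (intVec w) < ∑ t ∈ S, (0 : ℝ) :=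
          Finset.sum_lt_sum (fun t ht => mul_nonpos_of_nonneg_of_nonpos (hc t) (h1 t ht))
            ⟨s, hsS, mul_neg_of_pos_of_neg hcs h0⟩
        rw [hyw'] at h2
        simp at h2
      · exact h0
      · exfalso
        have h1 : ∀ t ∈ S, 0 ≤ form B (ratVec t) (intVec w) := fun t ht => by
          by_contra hcon
          exact hsep ⟨s, hsS, t, ht, h0, not_le.1 hcon⟩
        have h2 : ∑ t ∈ S, (0 : ℝ) < ∑ t ∈ S, c t * form B (ratVec t) (intVec w) :=
          Finset.sum_lt_sum (fun t ht => mul_nonneg (hc t) (h1 t ht))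
            ⟨s, hsS, mul_pos hcs h0⟩
        rw [hyw'] at h2
        simp at h2
    · rw [← hsum]; exact hyy

lemma sign_of_not_near (W : Set (Fin n → ℤ)) (S : Finset (Fin n → ℚ)) {w : Fin n → ℤ}
    (hw : w ∈ W) (hn : w ∉ near B W S) {y : Fin n → ℝ} (hy : y ∈ ratCone S)
    (hyy : 0 < form B y y) (hyw : 0 ≤ form B y (intVec w)) :
    0 < form B y (intVec w) ∧ ∀ z ∈ ratCone S, 0 ≤ form B z (intVec w) := by
  have h1 : 0 < form B y (intVec w) := by
    rcases hyw.lt_or_eq with h0 | h0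
    · exact h0
    · exact absurd ⟨hw, Or.inr ⟨y, hy, hyy, h0.symm⟩⟩ hn
  refine ⟨h1, fun z hz => ?_⟩
  obtain ⟨c, hc, rfl⟩ := (mem_hull_iff S y).1 hy
  obtain ⟨d, hd, rfl⟩ := (mem_hull_iff S z).1 hz
  rw [form_sum_smul] at h1 ⊢
  obtain ⟨s, hs, hsw⟩ : ∃ s ∈ S, 0 < form B (ratVec s) (intVec w) := by
    by_contra hcon
    push Not at hcon
    have : ∑ s ∈ S, c s * form B (ratVec s) (intVec w) ≤ 0 :=
      Finset.sum_nonpos fun s hs => mul_nonpos_of_nonneg_of_nonpos (hc s) (hcon s hs)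
    linarith
  refine Finset.sum_nonneg fun t ht => mul_nonneg (hd t) ?_
  by_contra hcon
  exact hn ⟨hw, Or.inl ⟨s, hs, t, ht, hsw, not_le.1 hcon⟩⟩

end Pool.Agent.SymCone
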