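import Pool.Agent.SymCone.RedF
import Pool.Agent.SymCone.Wal

/-!
# Finitely many rational polyhedral cones cover the face

`chamberAt B h W k` is the closed chamber of `k` (in the closed positive cone of `h`).

PROOFS (write `(v, w) = form B v w`, `q(v) = (v, v)`).
* `mem_chamberAt_act`: `act γ` preserves `closedPos` in both directions (`act_closedPos`,
  `act_inv_closedPos` with the point `h`), the form (`form_act`), and `w ↦ γ w` is a bijection of `W`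
  (`γ` and `γ⁻¹` are in `Γ`): `(act γ k, intVec w) = (k, intVec (γ⁻¹ w))` (`act_intVec`).
* `mem_faceSpace_act`: the same.
* `chamberAt_eq`: let `γ, γ'` be as in the statement with points `y, y'` in `ratCone S` of positive
  square, `y ∈ chamberAt (γ h)`, `y' ∈ chamberAt (γ' h)`. By symmetry it is enough to prove one inclusion: let
  `z ∈ chamberAt (γ h)` and `w ∈ W` with `(γ' h, w) >= 0`, so `> 0` (`(γ' h, w) = (h, γ'⁻¹ w) ≠ 0`). To show:
  `(z, w) >= 0`; it is enough that `(γ h, w) >= 0`. If `w` is near, this holds since by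
  hypothesis `(γ h, w) > 0 ↔ (γ' h, w) > 0`. If `w` is not near: `(y', w) >= 0`, so by
  `sign_of_not_near` `(·, w) >= 0` on `ratCone S`. If `(γ h, w) < 0` then `-w ∈ W`, `(γ h, -w) > 0`, so
  `(y, -w) >= 0`; and `(y, w) >= 0`, so `(y, w) = 0`, hence `w` is near, a contradiction.
* `cover`: let `S₀` be the set of `reduction_index`, `Wₙ = near B W S₀`, finite. Call `γ ∈ Γ` admissible if
  there is `x` in `chamber ∩ faceSpace` with `q(x) > 0`, `act γ x ∈ ratCone S₀`. Attach to `γ` the pair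
  `(P_γ, T_γ)`, `P_γ = {w ∈ Wₙ | (γ h, w) > 0}`, `T_γ = {w ∈ W | (γ a, w) = 0}`. If `γ` is admissible
  `T_γ ⊆ Wₙ`: for `y = γ x`, `(γ a, w) = 0` implies `(y, w) = 0` (`mem_faceSpace_act`). So the pairs of admissible elements take
  finitely many values (`Set.Finite.powerset`-type argument: subsets of a finite set); choose an admissible `γ_t` for each value `t = (P, T)`. For `t` let `D_t` be the set of
  `z ∈ ratCone S₀` with `(z, w) >= 0` for `w ∈ P` and `(z, w) = 0` for `w ∈ T`. It is `ratCone S_t` for a finite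
  `S_t` (`Pool.Agent.H55.Cone.mw_list`, with the rational vectors `B w`, `w ∈ P`, and `± B w`, `w ∈ T`).
  `D_t ⊆ chamberAt (γ_t h) ∩ faceSpace (γ_t a)`: let `z ∈ D_t`, `w ∈ W`, `(γ_t h, w) >= 0`, so `> 0`. If `w` is near, `w ∈ P`.
  If not, `y = γ_t x` (from admissibility) has `(y, w) >= 0`, `q(y) > 0`, and `sign_of_not_near` gives `(z, w) >= 0`.
  For all `w ∈ T`: `(z, w) = 0`. `z ∈ closedPos`, since the generators are (the cone `hB.posCone`).
  Let `S` be the union of the sets `γ_t⁻¹ S_t`; its elements are in `chamber ∩ faceSpace` by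
  `mem_chamberAt_act`, `mem_faceSpace_act`. Let `x` be in `chamber ∩ faceSpace`, `q(x) > 0`: `γ ∈ Γ` with
  `y = act γ x ∈ ratCone S₀`, `t` its value, `y ∈ D_t` (`y` is in `chamberAt (γ h)` and in
  `faceSpace (γ a)`). `δ = γ_t⁻¹ γ`: `act δ x ∈ γ_t⁻¹ D_t ⊆ ratCone S`, and `γ (chamber) = chamberAt (γ h) =
  chamberAt (γ_t h) = γ_t (chamber)` (`chamberAt_eq`), `γ (faceSpace a) = faceSpace (γ a) = faceSpace (γ_t a)
  = γ_t (faceSpace a)` as `T_γ = T_{γ_t}`.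
-/

set_option autoImplicit false

namespace Pool.Agent.SymCone

open Pool.Agent.H93Cone Pool.Agent.H55.Cone

variable {n : ℕ} {B : Matrix (Fin n) (Fin n) ℤ} {h : Fin n → ℝ}

/-- The closed chamber of `k` in the closed positive cone of `h`. -/
def chamberAt (B : Matrix (Fin n) (Fin n) ℤ) (h : Fin n → ℝ) (W : Set (Fin n → ℤ))
    (k : Fin n → ℝ) : Set (Fin n → ℝ) :=
  {x | x ∈ closedPos B h ∧ ∀ w ∈ W, 0 ≤ form B k (intVec w) → 0 ≤ form B x (intVec w)}

lemma act_intVec_inv (γ : GL (Fin n) ℤ) (w : Fin n → ℤ) :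
    act γ.val (intVec ((γ⁻¹).val.mulVec w)) = intVec w := by
  rw [← act_intVec, act_inv_val]

lemma form_act_intVec {γ : GL (Fin n) ℤ} (hγ : γ ∈ isoms B) (x : Fin n → ℝ) (w : Fin n → ℤ) :
    form B (act γ.val x) (intVec w) = form B x (intVec ((γ⁻¹).val.mulVec w)) := by
  rw [← form_act hγ x, act_intVec_inv]

lemma form_act_intVec' {γ : GL (Fin n) ℤ} (hγ : γ ∈ isoms B) (x : Fin n → ℝ) (w : Fin n → ℤ) :
    form B (act γ.val x) (intVec (γ.val.mulVec w)) = form B x (intVec w) := by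
  rw [← act_intVec, form_act hγ]

lemma mem_closedPos_act (hB : Hyperbolic B h) (Γ : Subgroup (GL (Fin n) ℤ)) (hΓ : Γ ≤ isoms B)
    (hside : ∀ γ ∈ Γ, 0 < form B h (act γ.val h)) {γ : GL (Fin n) ℤ} (hγ : γ ∈ Γ)
    (x : Fin n → ℝ) : act γ.val x ∈ closedPos B h ↔ x ∈ closedPos B h := by
  have h1 : h ∈ openPos B h := ⟨hB.pos, hB.pos⟩
  have h2 : act γ.val h ∈ openPos B h := ⟨by rw [form_act (hΓ hγ)]; exact hB.pos, hside γ hγ⟩
  constructor
  · intro hx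
    have := act_inv_closedPos hB (hΓ hγ) h1 h2 hx
    rwa [act_val_inv] at this
  · exact act_closedPos hB (hΓ hγ) h1 h2

lemma mem_chamberAt_act (hB : Hyperbolic B h) (Γ : Subgroup (GL (Fin n) ℤ)) (hΓ : Γ ≤ isoms B)
    (hside : ∀ γ ∈ Γ, 0 < form B h (act γ.val h)) (W : Set (Fin n → ℤ))
    (hWΓ : ∀ γ ∈ Γ, ∀ w ∈ W, γ.val.mulVec w ∈ W) {γ : GL (Fin n) ℤ} (hγ : γ ∈ Γ)
    (k x : Fin n → ℝ) :
    act γ.val x ∈ chamberAt B h W (act γ.val k) ↔ x ∈ chamberAt B h W k := by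
  constructor
  · rintro ⟨h1, h2⟩
    refine ⟨(mem_closedPos_act hB Γ hΓ hside hγ x).1 h1, fun w hw hk => ?_⟩
    have := h2 _ (hWΓ γ hγ w hw) (by rw [form_act_intVec' (hΓ hγ)]; exact hk)
    rwa [form_act_intVec' (hΓ hγ)] at this
  · rintro ⟨h1, h2⟩
    refine ⟨(mem_closedPos_act hB Γ hΓ hside hγ x).2 h1, fun w hw hk => ?_⟩
    rw [form_act_intVec (hΓ hγ)] at hk ⊢
    exact h2 _ (hWΓ γ⁻¹ (Γ.inv_mem hγ) w hw) hk

lemma mem_faceSpace_act (Γ : Subgroup (GL (Fin n) ℤ)) (hΓ : Γ ≤ isoms B)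
    (W : Set (Fin n → ℤ)) (hWΓ : ∀ γ ∈ Γ, ∀ w ∈ W, γ.val.mulVec w ∈ W) {γ : GL (Fin n) ℤ}
    (hγ : γ ∈ Γ) (k x : Fin n → ℝ) :
    act γ.val x ∈ faceSpace B W (act γ.val k) ↔ x ∈ faceSpace B W k := by
  constructor
  · intro h2 w hw hk
    have := h2 _ (hWΓ γ hγ w hw) (by rw [form_act_intVec' (hΓ hγ)]; exact hk)
    rwa [form_act_intVec' (hΓ hγ)] at this
  · intro h2 w hw hk
    rw [form_act_intVec (hΓ hγ)] at hk ⊢
    exact h2 _ (hWΓ γ⁻¹ (Γ.inv_mem hγ) w hw) hk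

lemma chamberAt_subset (Γ : Subgroup (GL (Fin n) ℤ)) (hΓ : Γ ≤ isoms B) (W : Set (Fin n → ℤ))
    (hWΓ : ∀ γ ∈ Γ, ∀ w ∈ W, γ.val.mulVec w ∈ W) (hneg : ∀ w ∈ W, -w ∈ W)
    (hh : ∀ w ∈ W, form B h (intVec w) ≠ 0) (S : Finset (Fin n → ℚ)) {γ γ' : GL (Fin n) ℤ}
    (hγ' : γ' ∈ Γ) {y y' : Fin n → ℝ} (hy : y ∈ ratCone S) (hyy : 0 < form B y y)
    (hyc : y ∈ chamberAt B h W (act γ.val h)) (hy' : y' ∈ ratCone S) (hyy' : 0 < form B y' y')
    (hyc' : y' ∈ chamberAt B h W (act γ'.val h))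
    (hnear : ∀ w ∈ near B W S, 0 < form B (act γ'.val h) (intVec w) →
      0 < form B (act γ.val h) (intVec w)) :
    chamberAt B h W (act γ.val h) ⊆ chamberAt B h W (act γ'.val h) := by
  rintro z ⟨hz1, hz2⟩
  refine ⟨hz1, fun w hw hk => hz2 w hw ?_⟩
  have hk0 : 0 < form B (act γ'.val h) (intVec w) := by
    rcases hk.lt_or_eq with h0 | h0
    · exact h0
    · exfalso
      rw [form_act_intVec (hΓ hγ')] at h0
      exact hh _ (hWΓ γ'⁻¹ (Γ.inv_mem hγ') w hw) h0.symm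
  by_cases hwn : w ∈ near B W S
  · exact (hnear w hwn hk0).le
  · obtain ⟨-, h1⟩ := sign_of_not_near W S hw hwn hy' hyy' (hyc'.2 w hw hk)
    obtain ⟨h2, -⟩ := sign_of_not_near W S hw hwn hy hyy (h1 y hy)
    by_contra hcon
    push Not at hcon
    have e : intVec (-w) = -intVec w := by funext i; simp [intVec]
    have h3 := hyc.2 (-w) (hneg w hw) (by rw [e, form_neg_right]; linarith)
    rw [e, form_neg_right] at h3
    linarith

lemma chamberAt_eq (Γ : Subgroup (GL (Fin n) ℤ)) (hΓ : Γ ≤ isoms B) (W : Set (Fin n → ℤ))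
    (hWΓ : ∀ γ ∈ Γ, ∀ w ∈ W, γ.val.mulVec w ∈ W) (hneg : ∀ w ∈ W, -w ∈ W)
    (hh : ∀ w ∈ W, form B h (intVec w) ≠ 0) (S : Finset (Fin n → ℚ)) {γ γ' : GL (Fin n) ℤ}
    (hγ : γ ∈ Γ) (hγ' : γ' ∈ Γ) {y y' : Fin n → ℝ} (hy : y ∈ ratCone S) (hyy : 0 < form B y y)
    (hyc : y ∈ chamberAt B h W (act γ.val h)) (hy' : y' ∈ ratCone S) (hyy' : 0 < form B y' y')
    (hyc' : y' ∈ chamberAt B h W (act γ'.val h))
    (hnear : ∀ w ∈ near B W S, 0 < form B (act γ.val h) (intVec w) ↔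
      0 < form B (act γ'.val h) (intVec w)) :
    chamberAt B h W (act γ.val h) = chamberAt B h W (act γ'.val h) := by
  refine Set.Subset.antisymm ?_ ?_
  · exact chamberAt_subset Γ hΓ W hWΓ hneg hh S hγ' hy hyy hyc hy' hyy' hyc'
      fun w hw => (hnear w hw).2
  · exact chamberAt_subset Γ hΓ W hWΓ hneg hh S hγ hy' hyy' hyc' hy hyy hyc
      fun w hw => (hnear w hw).1

lemma ratVec_mulVec_dot (w : Fin n → ℤ) (x : Fin n → ℝ) :
    ratVec (fun i => ((B.mulVec w i : ℤ) : ℚ)) ⬝ᵥ x = form B x (intVec w) := by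
  unfold form ratVec intVec
  rw [dotProduct_comm]
  congr 1
  funext i
  simp [Matrix.mulVec, dotProduct]

lemma cone_at (hB : Hyperbolic B h) (Γ : Subgroup (GL (Fin n) ℤ)) (hΓ : Γ ≤ isoms B)
    (hside : ∀ γ ∈ Γ, 0 < form B h (act γ.val h))
    (W : Set (Fin n → ℤ)) (hWΓ : ∀ γ ∈ Γ, ∀ w ∈ W, γ.val.mulVec w ∈ W)
    (hh : ∀ w ∈ W, form B h (intVec w) ≠ 0) (a : Fin n → ℝ)
    (S₀ : Finset (Fin n → ℚ)) (hS₀ : ∀ s ∈ S₀, ratVec s ∈ closedPos B h)
    (hN : (near B W S₀).Finite) {γ : GL (Fin n) ℤ} (hγ : γ ∈ Γ) {x : Fin n → ℝ}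
    (hx : x ∈ chamber B h W ∩ faceSpace B W a) (hxx : 0 < form B x x)
    (hγx : act γ.val x ∈ ratCone S₀) :
    ∃ S₁ : Finset (Fin n → ℚ),
      (∀ s ∈ S₁, ratVec s ∈ chamberAt B h W (act γ.val h) ∩ faceSpace B W (act γ.val a)) ∧
      ∀ y ∈ ratCone S₀, (∀ w ∈ near B W S₀, 0 < form B (act γ.val h) (intVec w) →
        0 ≤ form B y (intVec w)) →
        (∀ w ∈ W, form B (act γ.val a) (intVec w) = 0 → form B y (intVec w) = 0) →
        y ∈ ratCone S₁ := by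
  classical
  have hyc : act γ.val x ∈ chamberAt B h W (act γ.val h) :=
    (mem_chamberAt_act hB Γ hΓ hside W hWΓ hγ h x).2 hx.1
  have hyf : act γ.val x ∈ faceSpace B W (act γ.val a) :=
    (mem_faceSpace_act Γ hΓ W hWΓ hγ a x).2 hx.2
  have hyy : 0 < form B (act γ.val x) (act γ.val x) := by rw [form_act (hΓ hγ)]; exact hxx
  have hP : {w | w ∈ near B W S₀ ∧ 0 < form B (act γ.val h) (intVec w)}.Finite :=
    hN.subset fun w hw => hw.1
  have hT : {w | w ∈ W ∧ form B (act γ.val a) (intVec w) = 0}.Finite := by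
    refine hN.subset ?_
    rintro w ⟨hw, hw0⟩
    exact ⟨hw, Or.inr ⟨_, hγx, hyy, hyf w hw hw0⟩⟩
  set f : (Fin n → ℤ) → (Fin n → ℚ) := fun w i => ((B.mulVec w i : ℤ) : ℚ) with hf
  have hfd : ∀ (w : Fin n → ℤ) (z : Fin n → ℝ), ratVec (f w) ⬝ᵥ z = form B z (intVec w) :=
    fun w z => ratVec_mulVec_dot w z
  have hfn : ∀ (w : Fin n → ℤ) (z : Fin n → ℝ),
      ratVec (-f w) ⬝ᵥ z = -form B z (intVec w) := by
    intro w z
    rw [← hfd w z]
    have : ratVec (-f w) = -ratVec (f w) := by funext i; simp [ratVec]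
    rw [this, neg_dotProduct]
  obtain ⟨S₁, hS₁⟩ := mw_list S₀ (hP.toFinset.toList.map f ++ (hT.toFinset.toList.map f ++
    hT.toFinset.toList.map (fun w => -f w)))
  have hmem : ∀ z : Fin n → ℝ, z ∈ ratCone S₁ ↔ z ∈ ratCone S₀ ∧
      (∀ w ∈ near B W S₀, 0 < form B (act γ.val h) (intVec w) → 0 ≤ form B z (intVec w)) ∧
      (∀ w ∈ W, form B (act γ.val a) (intVec w) = 0 → form B z (intVec w) = 0) := by
    intro z
    refine (hS₁ z).trans (and_congr Iff.rfl ?_)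
    constructor
    · intro h1
      refine ⟨fun w hw hw0 => ?_, fun w hw hw0 => le_antisymm ?_ ?_⟩
      · have := h1 (f w) (List.mem_append_left _ (List.mem_map_of_mem
          (Finset.mem_toList.2 (hP.mem_toFinset.2 ⟨hw, hw0⟩))))
        rwa [hfd] at this
      · have := h1 (-f w) (List.mem_append_right _ (List.mem_append_right _
          (List.mem_map.2 ⟨w, Finset.mem_toList.2 (hT.mem_toFinset.2 ⟨hw, hw0⟩), rfl⟩)))
        rw [hfn] at this
        linarith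
      · have := h1 (f w) (List.mem_append_right _ (List.mem_append_left _ (List.mem_map_of_mem
          (Finset.mem_toList.2 (hT.mem_toFinset.2 ⟨hw, hw0⟩)))))
        rwa [hfd] at this
    · rintro ⟨h1, h2⟩ q hq
      rcases List.mem_append.1 hq with hq | hq
      · obtain ⟨w, hw, rfl⟩ := List.mem_map.1 hq
        obtain ⟨hw1, hw2⟩ := hP.mem_toFinset.1 (Finset.mem_toList.1 hw)
        rw [hfd]; exact h1 w hw1 hw2
      rcases List.mem_append.1 hq with hq | hq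
      · obtain ⟨w, hw, rfl⟩ := List.mem_map.1 hq
        obtain ⟨hw1, hw2⟩ := hT.mem_toFinset.1 (Finset.mem_toList.1 hw)
        rw [hfd]; exact (h2 w hw1 hw2).ge
      · obtain ⟨w, hw, rfl⟩ := List.mem_map.1 hq
        obtain ⟨hw1, hw2⟩ := hT.mem_toFinset.1 (Finset.mem_toList.1 hw)
        rw [hfn, h2 w hw1 hw2, neg_zero]
  refine ⟨S₁, fun s hs => ?_, fun y hy h1 h2 => (hmem y).2 ⟨hy, h1, h2⟩⟩
  have hs1 : ratVec s ∈ ratCone S₁ := Submodule.subset_span ⟨s, hs, rfl⟩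
  obtain ⟨h1, h2, h3⟩ := (hmem _).1 hs1
  refine ⟨⟨?_, fun w hw hw0 => ?_⟩, fun w hw hw0 => h3 w hw hw0⟩
  · have hle : PointedCone.hull ℝ (ratVec '' (S₀ : Set (Fin n → ℚ))) ≤ hB.posCone := by
      refine Submodule.span_le.2 ?_
      rintro _ ⟨t, ht, rfl⟩
      exact hS₀ t (Finset.mem_coe.1 ht)
    exact hle h1
  · have hw1 : 0 < form B (act γ.val h) (intVec w) := by
      rcases hw0.lt_or_eq with h0 | h0
      · exact h0
      · exfalso
        rw [form_act_intVec (hΓ hγ)] at h0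
        exact hh _ (hWΓ γ⁻¹ (Γ.inv_mem hγ) w hw) h0.symm
    by_cases hwn : w ∈ near B W S₀
    · exact h2 w hwn hw1
    · exact (sign_of_not_near W S₀ hw hwn hγx hyy (hyc.2 w hw hw0)).2 _ h1

lemma image_chamber (hB : Hyperbolic B h) (Γ : Subgroup (GL (Fin n) ℤ)) (hΓ : Γ ≤ isoms B)
    (hside : ∀ γ ∈ Γ, 0 < form B h (act γ.val h)) (W : Set (Fin n → ℤ))
    (hWΓ : ∀ γ ∈ Γ, ∀ w ∈ W, γ.val.mulVec w ∈ W) {γ : GL (Fin n) ℤ} (hγ : γ ∈ Γ) :
    act γ.val '' chamber B h W = chamberAt B h W (act γ.val h) := by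
  ext y
  constructor
  · rintro ⟨x, hx, rfl⟩
    exact (mem_chamberAt_act hB Γ hΓ hside W hWΓ hγ h x).2 hx
  · intro hy
    refine ⟨act (γ⁻¹).val y, ?_, act_inv_val γ y⟩
    refine (mem_chamberAt_act hB Γ hΓ hside W hWΓ hγ h _).1 ?_
    rwa [act_inv_val]

lemma image_faceSpace (Γ : Subgroup (GL (Fin n) ℤ)) (hΓ : Γ ≤ isoms B)
    (W : Set (Fin n → ℤ)) (hWΓ : ∀ γ ∈ Γ, ∀ w ∈ W, γ.val.mulVec w ∈ W) {γ : GL (Fin n) ℤ}
    (hγ : γ ∈ Γ) (a : Fin n → ℝ) :
    act γ.val '' faceSpace B W a = faceSpace B W (act γ.val a) := by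
  ext y
  constructor
  · rintro ⟨x, hx, rfl⟩
    exact (mem_faceSpace_act Γ hΓ W hWΓ hγ a x).2 hx
  · intro hy
    refine ⟨act (γ⁻¹).val y, ?_, act_inv_val γ y⟩
    refine (mem_faceSpace_act Γ hΓ W hWΓ hγ a _).1 ?_
    rwa [act_inv_val]

/-- The points of positive square of a face of the chamber are covered by the translates of a
rational polyhedral cone in the face, under the stabiliser of the chamber and of the face. -/
theorem cover (hB : Hyperbolic B h) (Γ : Subgroup (GL (Fin n) ℤ)) (hΓ : Γ ≤ isoms B)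
    (hfin : Γ.relIndex (isoms B) ≠ 0) (hside : ∀ γ ∈ Γ, 0 < form B h (act γ.val h))
    (W : Set (Fin n → ℤ)) (hWΓ : ∀ γ ∈ Γ, ∀ w ∈ W, γ.val.mulVec w ∈ W)
    (hneg : ∀ w ∈ W, -w ∈ W) (b : ℝ) (hb : ∀ w ∈ W, -b ≤ form B (intVec w) (intVec w))
    (hh : ∀ w ∈ W, form B h (intVec w) ≠ 0) (a : Fin n → ℝ) :
    ∃ S : Finset (Fin n → ℚ), (∀ s ∈ S, ratVec s ∈ chamber B h W ∩ faceSpace B W a) ∧
      ∀ x ∈ chamber B h W ∩ faceSpace B W a, 0 < form B x x →
        ∃ γ ∈ Γ, act γ.val '' chamber B h W = chamber B h W ∧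
          act γ.val '' faceSpace B W a = faceSpace B W a ∧ act γ.val x ∈ ratCone S := by
  classical
  obtain ⟨S₀, hS₀, hcov⟩ := reduction_index hB Γ hΓ hfin hside
  have hN : (near B W S₀).Finite := finite_near hB W b hb S₀ hS₀
  set Adm : GL (Fin n) ℤ → Prop := fun γ => γ ∈ Γ ∧ ∃ x ∈ chamber B h W ∩ faceSpace B W a,
    0 < form B x x ∧ act γ.val x ∈ ratCone S₀ with hAdm
  set val : GL (Fin n) ℤ → Set (Fin n → ℤ) × Set (Fin n → ℤ) := fun γ =>
    ({w | w ∈ near B W S₀ ∧ 0 < form B (act γ.val h) (intVec w)},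
      {w | w ∈ W ∧ form B (act γ.val a) (intVec w) = 0}) with hval
  have hV : (val '' {γ | Adm γ}).Finite := by
    refine (hN.finite_subsets.prod hN.finite_subsets).subset ?_
    rintro _ ⟨γ, ⟨hγ, x, hx, hxx, hγx⟩, rfl⟩
    refine ⟨fun w hw => hw.1, ?_⟩
    rintro w ⟨hw, hw0⟩
    refine ⟨hw, Or.inr ⟨_, hγx, ?_, ?_⟩⟩
    · rw [form_act (hΓ hγ)]; exact hxx
    · exact (mem_faceSpace_act Γ hΓ W hWΓ hγ a x).2 hx.2 w hw hw0
  have hch : ∀ t ∈ val '' {γ | Adm γ}, ∃ γ : GL (Fin n) ℤ, ∃ S₁ : Finset (Fin n → ℚ),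
      Adm γ ∧ val γ = t ∧
      (∀ s ∈ S₁, ratVec s ∈ chamberAt B h W (act γ.val h) ∩ faceSpace B W (act γ.val a)) ∧
      ∀ y ∈ ratCone S₀, (∀ w ∈ near B W S₀, 0 < form B (act γ.val h) (intVec w) →
        0 ≤ form B y (intVec w)) →
        (∀ w ∈ W, form B (act γ.val a) (intVec w) = 0 → form B y (intVec w) = 0) →
        y ∈ ratCone S₁ := by
    rintro t ⟨γ, hγA, rfl⟩
    obtain ⟨hγ, x, hx, hxx, hγx⟩ := id hγA
    obtain ⟨S₁, h1, h2⟩ := cone_at hB Γ hΓ hside W hWΓ hh a S₀ hS₀ hN hγ hx hxx hγx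
    exact ⟨γ, S₁, hγA, rfl, h1, h2⟩
  choose! g S₁ hgA hgval hgS hgc using hch
  refine ⟨hV.toFinset.biUnion fun t => (S₁ t).image (ra ((g t)⁻¹).val), ?_, ?_⟩
  · intro s hs
    obtain ⟨t, ht, hst⟩ := Finset.mem_biUnion.1 hs
    have ht' := hV.mem_toFinset.1 ht
    obtain ⟨s₁, hs₁, rfl⟩ := Finset.mem_image.1 hst
    obtain ⟨h1, h2⟩ := hgS t ht' s₁ hs₁
    obtain ⟨hγ, -⟩ := hgA t ht'
    rw [ratVec_ra]
    refine ⟨?_, ?_⟩
    · refine (mem_chamberAt_act hB Γ hΓ hside W hWΓ hγ h _).1 ?_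
      rwa [act_inv_val]
    · refine (mem_faceSpace_act Γ hΓ W hWΓ hγ a _).1 ?_
      rwa [act_inv_val]
  · intro x hx hxx
    obtain ⟨γ, hγ, hγx⟩ := hcov x (hB.mem_openPos hx.1.1 hxx)
    have hA : Adm γ := ⟨hγ, x, hx, hxx, hγx⟩
    have ht : val γ ∈ val '' {γ | Adm γ} := ⟨γ, hA, rfl⟩
    obtain ⟨hγ', x', hx', hxx', hγx'⟩ := hgA _ ht
    have hv := hgval _ ht
    set δ := g (val γ) with hδ
    have hP : ∀ w ∈ near B W S₀, 0 < form B (act δ.val h) (intVec w) ↔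
        0 < form B (act γ.val h) (intVec w) := by
      intro w hw
      have h1 : (val δ).1 = (val γ).1 := by rw [hv]
      have h2 : w ∈ (val δ).1 ↔ w ∈ (val γ).1 := by rw [h1]
      exact ⟨fun h0 => (h2.1 ⟨hw, h0⟩).2, fun h0 => (h2.2 ⟨hw, h0⟩).2⟩
    have hT : ∀ w ∈ W, form B (act δ.val a) (intVec w) = 0 ↔
        form B (act γ.val a) (intVec w) = 0 := by
      intro w hw
      have h1 : (val δ).2 = (val γ).2 := by rw [hv]
      have h2 : w ∈ (val δ).2 ↔ w ∈ (val γ).2 := by rw [h1]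
      exact ⟨fun h0 => (h2.1 ⟨hw, h0⟩).2, fun h0 => (h2.2 ⟨hw, h0⟩).2⟩
    have hyc : act γ.val x ∈ chamberAt B h W (act γ.val h) :=
      (mem_chamberAt_act hB Γ hΓ hside W hWΓ hγ h x).2 hx.1
    have hyf : act γ.val x ∈ faceSpace B W (act γ.val a) :=
      (mem_faceSpace_act Γ hΓ W hWΓ hγ a x).2 hx.2
    have hyc' : act δ.val x' ∈ chamberAt B h W (act δ.val h) :=
      (mem_chamberAt_act hB Γ hΓ hside W hWΓ hγ' h x').2 hx'.1
    have hyy : 0 < form B (act γ.val x) (act γ.val x) := by rw [form_act (hΓ hγ)]; exact hxx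
    have hyy' : 0 < form B (act δ.val x') (act δ.val x') := by
      rw [form_act (hΓ hγ')]; exact hxx'
    have hchE : chamberAt B h W (act γ.val h) = chamberAt B h W (act δ.val h) :=
      chamberAt_eq Γ hΓ W hWΓ hneg hh S₀ hγ hγ' hγx hyy hyc hγx' hyy' hyc'
        fun w hw => (hP w hw).symm
    have hfsE : faceSpace B W (act γ.val a) = faceSpace B W (act δ.val a) := by
      ext z
      constructor
      · intro hz w hw h0
        exact hz w hw ((hT w hw).1 h0)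
      · intro hz w hw h0
        exact hz w hw ((hT w hw).2 h0)
    have hin : ∀ X : Set (Fin n → ℝ), act (δ⁻¹).val '' (act δ.val '' X) = X := by
      intro X
      rw [Set.image_image]
      have : (fun x => act (δ⁻¹ : GL (Fin n) ℤ).val (act δ.val x)) = id := by
        funext y; exact act_val_inv δ y
      rw [this, Set.image_id]
    have hcomp : ∀ z, act (δ⁻¹ * γ).val z = act (δ⁻¹).val (act γ.val z) := by
      intro z
      rw [Units.val_mul, act_mul_apply]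
    have hcompI : ∀ X : Set (Fin n → ℝ),
        act (δ⁻¹ * γ).val '' X = act (δ⁻¹).val '' (act γ.val '' X) := by
      intro X
      rw [Set.image_image]
      exact Set.image_congr fun z _ => hcomp z
    refine ⟨δ⁻¹ * γ, Γ.mul_mem (Γ.inv_mem hγ') hγ, ?_, ?_, ?_⟩
    · rw [hcompI, image_chamber hB Γ hΓ hside W hWΓ hγ, hchE,
        ← image_chamber hB Γ hΓ hside W hWΓ hγ', hin]
    · rw [hcompI, image_faceSpace Γ hΓ W hWΓ hγ, hfsE, ← image_faceSpace Γ hΓ W hWΓ hγ', hin]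
    · rw [hcomp]
      have hy1 : act γ.val x ∈ ratCone (S₁ (val γ)) := by
        refine hgc _ ht _ hγx (fun w hw h0 => ?_) (fun w hw h0 => ?_)
        · exact hyc.2 w hw.1 ((hP w hw).1 h0).le
        · exact hyf w hw ((hT w hw).1 h0)
      have hy2 : act (δ⁻¹).val (act γ.val x) ∈ ratCone ((S₁ (val γ)).image (ra (δ⁻¹).val)) :=
        (mem_hull_ra (δ⁻¹) (S₁ (val γ)) _).2 ⟨_, hy1, rfl⟩
      have hle : ratCone ((S₁ (val γ)).image (ra (δ⁻¹).val)) ⊆
          ratCone (hV.toFinset.biUnion fun t => (S₁ t).image (ra ((g t)⁻¹).val)) := by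
        refine Submodule.span_mono (Set.image_mono ?_)
        intro s hs
        exact Finset.mem_coe.2 (Finset.mem_biUnion.2 ⟨val γ, hV.mem_toFinset.2 ht,
          Finset.mem_coe.1 hs⟩)
      exact hle hy2

end Pool.Agent.SymCone
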