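import Pool.Agent.H55.Cone.Defs

/-!
Definitions for the cone conjecture of primitive symplectic varieties.

`Fin n → ℝ` is the real Neron-Severi space with its lattice of integral vectors `Fin n → ℤ`, and
`B` is the Gram matrix of the Beauville-Bogomolov-Fujiki form on the lattice.
-/

set_option autoImplicit false

namespace Pool.Agent.SymCone

open Pool.Agent.H93Cone

/-- The real bilinear form with Gram matrix `B`. -/
def form {n : ℕ} (B : Matrix (Fin n) (Fin n) ℤ) (x y : Fin n → ℝ) : ℝ :=
  x ⬝ᵥ (B.map (Int.cast : ℤ → ℝ)).mulVec y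

/-- `B` is symmetric of signature `(1, n - 1)`, and `h` is a vector of positive square. -/
structure Hyperbolic {n : ℕ} (B : Matrix (Fin n) (Fin n) ℤ) (h : Fin n → ℝ) : Prop where
  symm : B.IsSymm
  pos : 0 < form B h h
  neg : ∀ x, form B h x = 0 → x ≠ 0 → form B x x < 0

/-- The integral isometries of the form. -/
def isoms {n : ℕ} (B : Matrix (Fin n) (Fin n) ℤ) : Subgroup (GL (Fin n) ℤ) where
  carrier := {g | g.val.transpose * B * g.val = B}
  one_mem' := by simp
  mul_mem' := by
    intro a b ha hb
    simp only [Set.mem_ofPred_eq] at ha hb ⊢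
    calc (a * b).val.transpose * B * (a * b).val
        = b.val.transpose * (a.val.transpose * B * a.val) * b.val := by
          rw [Units.val_mul, Matrix.transpose_mul]
          simp only [Matrix.mul_assoc]
      _ = B := by rw [ha, hb]
  inv_mem' := by
    intro a ha
    simp only [Set.mem_ofPred_eq] at ha ⊢
    have h1 : a.val * (a⁻¹).val = 1 := by
      rw [← Units.val_mul, mul_inv_cancel, Units.val_one]
    have h2 : (a⁻¹).val.transpose * a.val.transpose = 1 := by
      rw [← Matrix.transpose_mul, h1, Matrix.transpose_one]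
    calc (a⁻¹).val.transpose * B * (a⁻¹).val
        = (a⁻¹).val.transpose * (a.val.transpose * B * a.val) * (a⁻¹).val := by rw [ha]
      _ = ((a⁻¹).val.transpose * a.val.transpose) * B * (a.val * (a⁻¹).val) := by
          simp only [Matrix.mul_assoc]
      _ = B := by rw [h1, h2, Matrix.one_mul, Matrix.mul_one]

/-- The closed positive cone: the half containing `h`. -/
def closedPos {n : ℕ} (B : Matrix (Fin n) (Fin n) ℤ) (h : Fin n → ℝ) : Set (Fin n → ℝ) :=
  {x | 0 ≤ form B x x ∧ 0 ≤ form B h x}

/-- The open positive cone: the half containing `h`. -/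
def openPos {n : ℕ} (B : Matrix (Fin n) (Fin n) ℤ) (h : Fin n → ℝ) : Set (Fin n → ℝ) :=
  {x | 0 < form B x x ∧ 0 < form B h x}

/-- The closed chamber of `h` for the walls `W`. -/
def chamber {n : ℕ} (B : Matrix (Fin n) (Fin n) ℤ) (h : Fin n → ℝ) (W : Set (Fin n → ℤ)) :
    Set (Fin n → ℝ) :=
  {x | x ∈ closedPos B h ∧ ∀ w ∈ W, 0 ≤ form B h (intVec w) → 0 ≤ form B x (intVec w)}

/-- The subspace orthogonal to the walls that are orthogonal to `a`. -/
def faceSpace {n : ℕ} (B : Matrix (Fin n) (Fin n) ℤ) (W : Set (Fin n → ℤ)) (a : Fin n → ℝ) :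
    Set (Fin n → ℝ) :=
  {x | ∀ w ∈ W, form B a (intVec w) = 0 → form B x (intVec w) = 0}

end Pool.Agent.SymCone
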