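import Pool.Agent.SymCone.Mk1

/-!
# A lattice vector in an elongated ellipsoid

PROOF. Let `a = M u` and `Q = ρ^(-2) M + (R^(-2) - ρ^(-2)) a aᵀ` (`Matrix.vecMulVec a a`). For a real
vector `y`, `yᵀ Q y = ρ^(-2) (yᵀ M y - (uᵀ M y)^2) + R^(-2) (uᵀ M y)^2` (use that `M` is symmetric).
By Cauchy-Schwarz for `M` with `uᵀ M u = 1` (consider `z = y - (uᵀMy) u`:
`0 <= zᵀ M z = yᵀ M y - (uᵀ M y)^2`) both terms are nonnegative, and `yᵀ Q y > 0` for `y ≠ 0`: if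
`uᵀ M y ≠ 0` the second term is positive, otherwise the first is `ρ^(-2) yᵀ M y > 0`. So `Q` is
positive definite. By the matrix determinant lemma (`Matrix.det_add_replicateCol_mul_replicateRow`
or `Matrix.det_add_mul` for the matrix `ρ^(-2) M`)
`det Q = det (ρ^(-2) M) (1 + (R^(-2) - ρ^(-2)) ρ^2 aᵀ M⁻¹ a) = ρ^(-2n) det M * (ρ^2 / R^2)`
since `aᵀ M⁻¹ a = uᵀ M u = 1`. So `det Q * n^n < 1` is the hypothesis `hdet`. Apply `exists_short Q`:
`yᵀ Q y < 1` and both terms are nonnegative, so each of them is `< 1`.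
-/

set_option autoImplicit false

namespace Pool.Agent.SymCone

open Pool.Agent.H93Cone

private lemma mk2_symm {n : ℕ} (M : Matrix (Fin n) (Fin n) ℝ) (hM : M.transpose = M)
    (x y : Fin n → ℝ) : x ⬝ᵥ M.mulVec y = y ⬝ᵥ M.mulVec x := by
  rw [Matrix.dotProduct_mulVec, dotProduct_comm, ← Matrix.mulVec_transpose, hM]

private lemma mk2_quad {n : ℕ} (M : Matrix (Fin n) (Fin n) ℝ) (c : ℝ) (a y : Fin n → ℝ) (r : ℝ) :
    y ⬝ᵥ (r • M + c • Matrix.vecMulVec a a).mulVec y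
      = r * (y ⬝ᵥ M.mulVec y) + c * (a ⬝ᵥ y) ^ 2 := by
  rw [Matrix.add_mulVec, dotProduct_add, Matrix.smul_mulVec, Matrix.smul_mulVec,
    dotProduct_smul, dotProduct_smul, Matrix.vecMulVec_mulVec]
  simp only [smul_eq_mul, op_smul_eq_smul, dotProduct_smul]
  rw [dotProduct_comm y a]
  ring

/-- An integral vector in an ellipsoid which is elongated in the direction `u`. -/
lemma elongated {n : ℕ} (M : Matrix (Fin n) (Fin n) ℝ) (hM : M.PosDef) (u : Fin n → ℝ)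
    (hu : u ⬝ᵥ M.mulVec u = 1) (ρ R : ℝ) (hρ : 0 < ρ) (hR : 0 < R)
    (hdet : M.det * ρ ^ 2 * (n : ℝ) ^ n < R ^ 2 * ρ ^ (2 * n)) :
    ∃ y : Fin n → ℤ, y ≠ 0 ∧
      intVec y ⬝ᵥ M.mulVec (intVec y) - (u ⬝ᵥ M.mulVec (intVec y)) ^ 2 < ρ ^ 2 ∧
      (u ⬝ᵥ M.mulVec (intVec y)) ^ 2 < R ^ 2 := by
  have hsym : M.transpose = M := by
    have := hM.isHermitian
    rw [Matrix.IsHermitian, Matrix.conjTranspose_eq_transpose_of_trivial] at this
    exact this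
  have hpos : ∀ x : Fin n → ℝ, x ≠ 0 → 0 < x ⬝ᵥ M.mulVec x := by
    intro x hx
    have := hM.dotProduct_mulVec_pos hx
    simpa using this
  have hnn : ∀ x : Fin n → ℝ, 0 ≤ x ⬝ᵥ M.mulVec x := by
    intro x
    by_cases hx : x = 0
    · rw [hx]; simp
    · exact (hpos x hx).le
  have hCS : ∀ y : Fin n → ℝ, 0 ≤ y ⬝ᵥ M.mulVec y - (u ⬝ᵥ M.mulVec y) ^ 2 := by
    intro y
    have h := hnn (y - (u ⬝ᵥ M.mulVec y) • u)
    rw [Matrix.mulVec_sub, Matrix.mulVec_smul, sub_dotProduct, dotProduct_sub, dotProduct_sub,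
      smul_dotProduct, smul_dotProduct, dotProduct_smul, dotProduct_smul, hu,
      mk2_symm M hsym y u] at h
    simp only [smul_eq_mul] at h
    nlinarith [h]
  set a : Fin n → ℝ := M.mulVec u with ha
  have hay : ∀ y : Fin n → ℝ, a ⬝ᵥ y = u ⬝ᵥ M.mulVec y := by
    intro y
    rw [ha, dotProduct_comm, mk2_symm M hsym y u]
  set Q : Matrix (Fin n) (Fin n) ℝ :=
    (ρ ^ 2)⁻¹ • M + ((R ^ 2)⁻¹ - (ρ ^ 2)⁻¹) • Matrix.vecMulVec a a with hQ
  have hρ2 : 0 < (ρ ^ 2)⁻¹ := by positivity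
  have hR2 : 0 < (R ^ 2)⁻¹ := by positivity
  have hquad : ∀ y : Fin n → ℝ, y ⬝ᵥ Q.mulVec y
      = (ρ ^ 2)⁻¹ * (y ⬝ᵥ M.mulVec y - (u ⬝ᵥ M.mulVec y) ^ 2)
        + (R ^ 2)⁻¹ * (u ⬝ᵥ M.mulVec y) ^ 2 := by
    intro y
    rw [hQ, mk2_quad, hay]
    ring
  have hQpos : Q.PosDef := by
    refine Matrix.PosDef.of_dotProduct_mulVec_pos ?_ fun y hy => ?_
    · rw [Matrix.IsHermitian, Matrix.conjTranspose_eq_transpose_of_trivial, hQ,
        Matrix.transpose_add, Matrix.transpose_smul, Matrix.transpose_smul, hsym,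
        Matrix.transpose_vecMulVec]
    · have hst : star y = y := by ext i; simp
      rw [hst, hquad]
      by_cases h0 : u ⬝ᵥ M.mulVec y = 0
      · rw [h0]
        have := hpos y hy
        have h2 : 0 < (ρ ^ 2)⁻¹ * (y ⬝ᵥ M.mulVec y) := mul_pos hρ2 this
        simpa using h2
      · have h1 : 0 < (R ^ 2)⁻¹ * (u ⬝ᵥ M.mulVec y) ^ 2 := by positivity
        have h2 : 0 ≤ (ρ ^ 2)⁻¹ * (y ⬝ᵥ M.mulVec y - (u ⬝ᵥ M.mulVec y) ^ 2) :=
          mul_nonneg hρ2.le (hCS y)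
        linarith
  have hMdet : M.det ≠ 0 := hM.det_pos.ne'
  have hinv : M⁻¹.mulVec a = u := by
    rw [ha, Matrix.mulVec_mulVec, Matrix.nonsing_inv_mul _ (isUnit_iff_ne_zero.2 hMdet),
      Matrix.one_mulVec]
  have hQdet : Q.det = ((ρ ^ 2)⁻¹) ^ n * M.det * (ρ ^ 2 / R ^ 2) := by
    have hQ' : Q = ((ρ ^ 2)⁻¹ • M) *
        (1 + Matrix.replicateCol Unit ((ρ ^ 2 * ((R ^ 2)⁻¹ - (ρ ^ 2)⁻¹)) • u) *
          Matrix.replicateRow Unit a) := by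
      have hρne : (ρ ^ 2 : ℝ) ≠ 0 := by positivity
      rw [Matrix.mul_add, Matrix.mul_one, hQ]
      congr 1
      rw [← Matrix.mul_assoc, ← Matrix.replicateCol_mulVec, Matrix.smul_mulVec,
        Matrix.mulVec_smul, ← ha, smul_smul, ← mul_assoc, inv_mul_cancel₀ hρne, one_mul]
      ext i j
      simp [Matrix.vecMulVec, Matrix.mul_apply, Matrix.replicateCol, Matrix.replicateRow]
      ring
    rw [hQ', Matrix.det_mul, Matrix.det_smul, Matrix.det_one_add_replicateCol_mul_replicateRow,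
      Fintype.card_fin, dotProduct_smul, hay, hu]
    simp only [smul_eq_mul]
    have hρne : (ρ : ℝ) ≠ 0 := hρ.ne'
    have hRne : (R : ℝ) ≠ 0 := hR.ne'
    congr 1
    field_simp
    ring
  have hlt : Q.det * (n : ℝ) ^ n < 1 := by
    rw [hQdet]
    have h1 : ((ρ ^ 2)⁻¹) ^ n * M.det * (ρ ^ 2 / R ^ 2) * (n : ℝ) ^ n
        = (M.det * ρ ^ 2 * (n : ℝ) ^ n) / (R ^ 2 * ρ ^ (2 * n)) := by
      rw [pow_mul, inv_pow]
      have h2 : ((ρ ^ 2) ^ n : ℝ) ≠ 0 := by positivity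
      have h3 : (R : ℝ) ≠ 0 := hR.ne'
      field_simp
    rw [h1, div_lt_one (by positivity)]
    exact hdet
  obtain ⟨y, hy0, hy⟩ := exists_short Q hQpos hlt
  refine ⟨y, hy0, ?_, ?_⟩
  · rw [hquad] at hy
    have h1 : 0 ≤ (R ^ 2)⁻¹ * (u ⬝ᵥ M.mulVec (intVec y)) ^ 2 := by positivity
    have h2 : (ρ ^ 2)⁻¹ *
        (intVec y ⬝ᵥ M.mulVec (intVec y) - (u ⬝ᵥ M.mulVec (intVec y)) ^ 2) < 1 := by linarith
    rw [inv_mul_lt_iff₀ (by positivity)] at h2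
    linarith
  · rw [hquad] at hy
    have h1 : 0 ≤ (ρ ^ 2)⁻¹ *
        (intVec y ⬝ᵥ M.mulVec (intVec y) - (u ⬝ᵥ M.mulVec (intVec y)) ^ 2) :=
      mul_nonneg hρ2.le (hCS _)
    have h2 : (R ^ 2)⁻¹ * (u ⬝ᵥ M.mulVec (intVec y)) ^ 2 < 1 := by linarith
    rw [inv_mul_lt_iff₀ (by positivity)] at h2
    linarith

end Pool.Agent.SymCone
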