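import Pool.Agent.SymCone.Maj
import Pool.Agent.SymCone.Mk2

/-!
# Frames of thick points

PROOF of `exists_frame`. Let `D = |det B|`, `ρ = 1/2`, and choose `R > 0` with
`D ρ^2 n^n < R^2 ρ^(2n)` (possible: `R^2` large). Put `C = max 1 (ρ^2 + R^2)`. Let `x` be thick,
`M = majM B x` (positive definite, `posDef_majM`, `det M = D`, `det_majM`, `yᵀ M y = maj B x y`,
`dot_majM_self`). By induction on `k <= n`: there is `b : Fin k → (Fin n → ℤ)` with
`LinearIndependent ℝ (fun i => intVec (b i))` and `maj B x (intVec (b i)) <= C`. Step: `k < n`, the span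
`U` of the `intVec (b i)` has dimension `k < n`, so there is a vector `u ≠ 0` with `uᵀ M z = 0` for
all `z ∈ U` (e.g. the linear map `ℝ^n → ℝ^k`, `u ↦ (uᵀ M b_i)_i` has a nonzero kernel), and after
scaling `uᵀ M u = 1` (positive definiteness). `elongated M _ u _ ρ R` gives an integral `y ≠ 0` with
`maj y - (uᵀ M y)^2 < 1/4` and `(uᵀ M y)^2 < R^2`. As `x` is thick `maj y >= 1/2`, so
`(uᵀ M y)^2 > 1/4 > 0` and `y ∉ U`; hence the family `b, y` is linearly independent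
(`linearIndependent_finSnoc` or `linearIndependent_fin_cons`), and
`maj y < 1/4 + R^2 <= C`. For `k = n` let `A i j = b j i`: `det A ≠ 0` because the columns are
linearly independent over `ℝ` (the determinant of the real matrix is the cast of `A.det`).
-/

set_option autoImplicit false

namespace Pool.Agent.SymCone

open Pool.Agent.H93Cone

variable {n : ℕ} {B : Matrix (Fin n) (Fin n) ℤ} {h : Fin n → ℝ}

/-- No nonzero lattice vector is short with respect to the majorant at `x`. -/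
def Thick (B : Matrix (Fin n) (Fin n) ℤ) (x : Fin n → ℝ) : Prop :=
  form B x x = 1 ∧ ∀ v : Fin n → ℤ, v ≠ 0 → 1 / 2 ≤ maj B x (intVec v)

private lemma frame_orth {n k : ℕ} (hk : k < n) (M : Matrix (Fin n) (Fin n) ℝ)
    (b : Fin k → Fin n → ℝ) :
    ∃ u : Fin n → ℝ, u ≠ 0 ∧ ∀ i, u ⬝ᵥ M.mulVec (b i) = 0 := by
  let N : Matrix (Fin k) (Fin n) ℝ := Matrix.of fun i => M.mulVec (b i)
  have h1 : LinearMap.ker (Matrix.mulVecLin N) ≠ ⊥ := by
    apply LinearMap.ker_ne_bot_of_finrank_lt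
    simp [hk]
  obtain ⟨u, hu, hu0⟩ := Submodule.exists_mem_ne_zero_of_ne_bot h1
  refine ⟨u, hu0, fun i => ?_⟩
  have h2 := congrFun (LinearMap.mem_ker.1 hu) i
  have h3 : (N.mulVec u) i = M.mulVec (b i) ⬝ᵥ u := rfl
  rw [Matrix.mulVecLin_apply, h3] at h2
  rw [dotProduct_comm]
  exact h2

private lemma frame_orth_one {n k : ℕ} (hk : k < n) (M : Matrix (Fin n) (Fin n) ℝ)
    (hM : M.PosDef) (b : Fin k → Fin n → ℝ) :
    ∃ u : Fin n → ℝ, u ⬝ᵥ M.mulVec u = 1 ∧ ∀ i, u ⬝ᵥ M.mulVec (b i) = 0 := by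
  obtain ⟨u, hu0, hu⟩ := frame_orth hk M b
  have hpos : 0 < u ⬝ᵥ M.mulVec u := by
    have := hM.dotProduct_mulVec_pos hu0
    simpa using this
  refine ⟨(1 / Real.sqrt (u ⬝ᵥ M.mulVec u)) • u, ?_, fun i => ?_⟩
  · rw [smul_dotProduct, Matrix.mulVec_smul, dotProduct_smul, smul_eq_mul, smul_eq_mul]
    have h1 := Real.mul_self_sqrt hpos.le
    have h2 : Real.sqrt (u ⬝ᵥ M.mulVec u) ≠ 0 := (Real.sqrt_pos.2 hpos).ne'
    field_simp
    rw [sq, h1]
  · rw [smul_dotProduct, hu i, smul_zero]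

private lemma frame_step {n k : ℕ} (hk : k < n) (M : Matrix (Fin n) (Fin n) ℝ)
    (hM : M.PosDef) (b : Fin k → Fin n → ℤ) (R : ℝ) (hR : 0 < R)
    (hli : LinearIndependent ℝ (fun i => intVec (b i)))
    (hdet : M.det * (1 / 2 : ℝ) ^ 2 * (n : ℝ) ^ n < R ^ 2 * (1 / 2 : ℝ) ^ (2 * n))
    (hth : ∀ v : Fin n → ℤ, v ≠ 0 → 1 / 2 ≤ intVec v ⬝ᵥ M.mulVec (intVec v)) :
    ∃ y : Fin n → ℤ, intVec y ⬝ᵥ M.mulVec (intVec y) ≤ 1 + R ^ 2 ∧
      LinearIndependent ℝ (fun i => intVec ((Fin.cons y b : Fin (k + 1) → Fin n → ℤ) i)) := by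
  obtain ⟨u, hu1, hu⟩ := frame_orth_one hk M hM (fun i => intVec (b i))
  obtain ⟨y, hy0, hy1, hy2⟩ := elongated M hM u hu1 (1 / 2) R (by norm_num) hR hdet
  refine ⟨y, by nlinarith, ?_⟩
  have hcons : (fun i => intVec ((Fin.cons y b : Fin (k + 1) → Fin n → ℤ) i)) =
      (Fin.cons (intVec y) (fun i => intVec (b i)) : Fin (k + 1) → Fin n → ℝ) := by
    funext i
    refine Fin.cases ?_ (fun j => ?_) i
    · simp
    · simp
  rw [hcons, linearIndependent_finCons]
  refine ⟨hli, fun hmem => ?_⟩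
  have hz : ∀ z ∈ Submodule.span ℝ (Set.range fun i => intVec (b i)), u ⬝ᵥ M.mulVec z = 0 := by
    intro z hz
    induction hz using Submodule.span_induction with
    | mem z hz => obtain ⟨i, rfl⟩ := hz; exact hu i
    | zero => simp
    | add z w _ _ h1 h2 => rw [Matrix.mulVec_add, dotProduct_add, h1, h2, add_zero]
    | smul c z _ h1 => rw [Matrix.mulVec_smul, dotProduct_smul, h1, smul_zero]
  have h1 := hz _ hmem
  have h2 := hth y hy0
  rw [h1] at hy1
  norm_num at hy1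
  linarith

private lemma frame_all {n : ℕ} (M : Matrix (Fin n) (Fin n) ℝ)
    (hM : M.PosDef) (R : ℝ) (hR : 0 < R)
    (hdet : M.det * (1 / 2 : ℝ) ^ 2 * (n : ℝ) ^ n < R ^ 2 * (1 / 2 : ℝ) ^ (2 * n))
    (hth : ∀ v : Fin n → ℤ, v ≠ 0 → 1 / 2 ≤ intVec v ⬝ᵥ M.mulVec (intVec v)) (k : ℕ)
    (hk : k ≤ n) :
    ∃ b : Fin k → Fin n → ℤ, LinearIndependent ℝ (fun i => intVec (b i)) ∧
      ∀ i, intVec (b i) ⬝ᵥ M.mulVec (intVec (b i)) ≤ 1 + R ^ 2 := by
  induction k with
  | zero => exact ⟨Fin.elim0, linearIndependent_empty_type, fun i => i.elim0⟩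
  | succ k ih =>
    obtain ⟨b, hb1, hb2⟩ := ih (by omega)
    obtain ⟨y, hy1, hy2⟩ := frame_step (by omega) M hM b R hR hb1 hdet hth
    refine ⟨Fin.cons y b, hy2, fun i => ?_⟩
    refine Fin.cases ?_ (fun j => ?_) i
    · simpa using hy1
    · simpa using hb2 j

/-- A thick point has a frame of `n` independent lattice vectors of bounded length. -/
lemma exists_frame (hB : Hyperbolic B h) : ∃ C : ℝ, 1 ≤ C ∧ ∀ x, Thick B x →
    ∃ A : Matrix (Fin n) (Fin n) ℤ, A.det ≠ 0 ∧ ∀ j, maj B x (intVec fun i => A i j) ≤ C := by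
  set E : ℝ := |(B.det : ℝ)| * (1 / 2 : ℝ) ^ 2 * (n : ℝ) ^ n with hE
  have hE0 : 0 ≤ E := by positivity
  set p : ℝ := (1 / 2 : ℝ) ^ (2 * n) with hp
  have hp0 : 0 < p := by positivity
  set R : ℝ := E / p + 1 with hR
  have hR1 : 1 ≤ R := by
    have : 0 ≤ E / p := by positivity
    linarith
  have hER : E < R ^ 2 * p := by
    have h1 : E < R * p := by
      rw [hR, add_mul, div_mul_cancel₀ _ hp0.ne']
      linarith
    have h2 : R * p ≤ R ^ 2 * p := by
      apply mul_le_mul_of_nonneg_right _ hp0.le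
      nlinarith
    linarith
  refine ⟨1 + R ^ 2, by nlinarith [sq_nonneg R], fun x hx => ?_⟩
  have hM := posDef_majM hB hx.1
  have hdet : (majM B x).det * (1 / 2 : ℝ) ^ 2 * (n : ℝ) ^ n < R ^ 2 * (1 / 2 : ℝ) ^ (2 * n) := by
    rw [det_majM hB hx.1]
    exact hER
  obtain ⟨b, hb1, hb2⟩ := frame_all (majM B x) hM R (by linarith) hdet
    (fun v hv => by rw [dot_majM_self hB]; exact hx.2 v hv) n le_rfl
  refine ⟨Matrix.of fun i j => b j i, ?_, fun j => ?_⟩
  · intro h0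
    have h1 : IsUnit ((Matrix.of fun i j => intVec (b i) j : Matrix (Fin n) (Fin n) ℝ)) :=
      Matrix.linearIndependent_rows_iff_isUnit.1 hb1
    rw [Matrix.isUnit_iff_isUnit_det] at h1
    have h2 : ((Matrix.of fun i j => b j i : Matrix (Fin n) (Fin n) ℤ).det : ℝ) =
        (Matrix.of fun i j => intVec (b i) j : Matrix (Fin n) (Fin n) ℝ).det := by
      rw [← Matrix.det_transpose, Int.cast_det]
      rfl
    rw [h0, Int.cast_zero] at h2
    rw [← h2] at h1
    exact not_isUnit_zero h1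
  · have h1 := hb2 j
    rw [dot_majM_self hB] at h1
    exact h1

end Pool.Agent.SymCone
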