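import Pool.Agent.SymCone.Basic

/-!
# The majorant of a hyperbolic form

For `form B x x = 1` the quadratic form `maj B x v = 2 (x, v)^2 - (v, v)` is positive definite.

PROOFS (write `q(v) = form B v v`, `(v, w) = form B v w`, `B'` the real matrix).

* `dot_majM`: `(vecMulVec a a) *ᵥ w = (a ⬝ᵥ w) • a`, with `a = B' *ᵥ x`; `v ⬝ᵥ a = form B v x = form B x v`
  by `hB.comm`, and `a ⬝ᵥ w = w ⬝ᵥ a = form B w x`.
* `sq_le_maj`: `hB.reverse` gives `q(v) <= (x, v)^2`.
* `maj_pos`: if `(x, v) = 0` then `q(v) < 0` by `hB.neg_of_orth`; otherwise `maj >= (x, v)^2 > 0`.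
* `posDef_majM`: symmetric since `B` is; positive by `maj_pos`.
* `det_majM`: `majM = -B' + 2 a aᵀ`, so by the matrix determinant lemma
  (`Matrix.det_add_replicateCol_mul_replicateRow` or `Matrix.det_add_mul`)
  `det = det(-B') (1 - 2 aᵀ B'⁻¹ a) = det(-B') (1 - 2 (x,x)) = - det(-B') = -(-1)^n det B'`;
  as `det > 0` (positive definite) it is equal to its absolute value `|det B|`.
* `abs_form_le`: `(v, w) = 2 (x, v)(x, w) - b(v, w)`, `b` the bilinear form of the majorant;
  `0 <= maj (v ± w) = maj v + maj w ± 2 b(v, w)` gives `|b(v, w)| <= C`, and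
  `|(x, v)(x, w)| <= ((x,v)^2 + (x,w)^2)/2 <= C`.
* `finite_maj`: the continuous function `maj B x` has a positive minimum `c` on the unit sphere
  (compact), so `c ‖v‖^2 <= maj B x v` and the set consists of integral vectors in a ball (finite:
  entries between `-N` and `N`, `Set.finite_Icc` in `Fin n → ℤ`). If `n = 0` the set is finite anyway.
-/

set_option autoImplicit false

namespace Pool.Agent.SymCone

open Pool.Agent.H93Cone

variable {n : ℕ} {B : Matrix (Fin n) (Fin n) ℤ} {h : Fin n → ℝ}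

/-- The majorant of the form at `x` (it is positive definite if `form B x x = 1`). -/
def maj (B : Matrix (Fin n) (Fin n) ℤ) (x v : Fin n → ℝ) : ℝ :=
  2 * (form B x v) ^ 2 - form B v v

/-- The matrix of the majorant. -/
def majM (B : Matrix (Fin n) (Fin n) ℤ) (x : Fin n → ℝ) : Matrix (Fin n) (Fin n) ℝ :=
  (2 : ℝ) • Matrix.vecMulVec ((B.map (Int.cast : ℤ → ℝ)).mulVec x)
    ((B.map (Int.cast : ℤ → ℝ)).mulVec x) - B.map (Int.cast : ℤ → ℝ)

lemma dot_majM (hB : Hyperbolic B h) (x v w : Fin n → ℝ) :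
    v ⬝ᵥ (majM B x).mulVec w = 2 * form B x v * form B x w - form B v w := by
  have h1 : v ⬝ᵥ (B.map (Int.cast : ℤ → ℝ)).mulVec x = form B x v := by
    rw [hB.comm x v]; rfl
  have h2 : (B.map (Int.cast : ℤ → ℝ)).mulVec x ⬝ᵥ w = form B x w := by
    rw [dotProduct_comm, hB.comm x w]; rfl
  unfold majM
  rw [Matrix.sub_mulVec, Matrix.smul_mulVec, Matrix.vecMulVec_mulVec, dotProduct_sub,
    dotProduct_smul, h2]
  simp only [op_smul_eq_smul, dotProduct_smul, smul_eq_mul, h1]
  unfold form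
  ring

lemma dot_majM_self (hB : Hyperbolic B h) (x v : Fin n → ℝ) :
    v ⬝ᵥ (majM B x).mulVec v = maj B x v := by
  rw [dot_majM hB]; unfold maj; ring

lemma sq_le_maj (hB : Hyperbolic B h) {x : Fin n → ℝ} (hx : form B x x = 1) (v : Fin n → ℝ) :
    (form B x v) ^ 2 ≤ maj B x v := by
  have h1 := hB.reverse (x := x) (by rw [hx]; exact one_pos) v
  rw [hx, one_mul] at h1
  unfold maj
  linarith

lemma maj_pos (hB : Hyperbolic B h) {x : Fin n → ℝ} (hx : form B x x = 1) {v : Fin n → ℝ}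
    (hv : v ≠ 0) : 0 < maj B x v := by
  by_cases h0 : form B x v = 0
  · have h1 := hB.neg_of_orth (x := x) (by rw [hx]; exact one_pos) h0 hv
    unfold maj
    rw [h0]; linarith
  · exact lt_of_lt_of_le (by positivity) (sq_le_maj hB hx v)

lemma maj_nonneg (hB : Hyperbolic B h) {x : Fin n → ℝ} (hx : form B x x = 1) (v : Fin n → ℝ) :
    0 ≤ maj B x v :=
  (sq_nonneg _).trans (sq_le_maj hB hx v)

lemma maj_smul (x v : Fin n → ℝ) (c : ℝ) : maj B x (c • v) = c ^ 2 * maj B x v := by
  unfold maj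
  rw [form_smul_right, form_smul_right, form_smul_left]
  ring

lemma posDef_majM (hB : Hyperbolic B h) {x : Fin n → ℝ} (hx : form B x x = 1) :
    (majM B x).PosDef := by
  refine Matrix.PosDef.of_dotProduct_mulVec_pos ?_ fun v hv => ?_
  · have h1 : (B.map (Int.cast : ℤ → ℝ)).transpose = B.map (Int.cast : ℤ → ℝ) := by
      rw [← Matrix.transpose_map, hB.symm]
    show (majM B x).conjTranspose = majM B x
    rw [Matrix.conjTranspose_eq_transpose_of_trivial]
    unfold majM
    rw [Matrix.transpose_sub, Matrix.transpose_smul, Matrix.transpose_vecMulVec, h1]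
  · rw [star_trivial, dot_majM_self hB]
    exact maj_pos hB hx hv

/-- The matrix determinant lemma. -/
lemma det_add_vecMulVec (N : Matrix (Fin n) (Fin n) ℝ) (u v : Fin n → ℝ) :
    (N + Matrix.vecMulVec (N.mulVec u) v).det = N.det * (1 + v ⬝ᵥ u) := by
  have h1 : N + Matrix.vecMulVec (N.mulVec u) v = N * (1 + Matrix.vecMulVec u v) := by
    rw [mul_add, mul_one, Matrix.mul_vecMulVec]
  rw [h1, Matrix.det_mul, Matrix.vecMulVec_eq Unit,
    Matrix.det_one_add_replicateCol_mul_replicateRow]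

lemma det_majM (hB : Hyperbolic B h) {x : Fin n → ℝ} (hx : form B x x = 1) :
    (majM B x).det = |(B.det : ℝ)| := by
  set B' := B.map (Int.cast : ℤ → ℝ) with hB'
  have h0 : B'.det = (B.det : ℝ) := by
    have := Int.cast_det (R := ℝ) B
    rw [this]
  have h1 : majM B x = -B' + Matrix.vecMulVec ((-B').mulVec ((-2 : ℝ) • x)) (B'.mulVec x) := by
    unfold majM
    rw [← hB', Matrix.neg_mulVec, Matrix.mulVec_smul, ← neg_smul, neg_neg,
      Matrix.smul_vecMulVec]
    abel
  have h2 : B'.mulVec x ⬝ᵥ ((-2 : ℝ) • x) = -2 := by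
    rw [dotProduct_smul, dotProduct_comm]
    have : x ⬝ᵥ B'.mulVec x = 1 := hx
    rw [this]; simp
  have h3 : (majM B x).det = -(-B').det := by
    rw [h1, det_add_vecMulVec, h2]; ring
  have h4 : 0 < (majM B x).det := (posDef_majM hB hx).det_pos
  rw [Matrix.det_neg, h0] at h3
  rcases neg_one_pow_eq_or ℝ (Fintype.card (Fin n)) with h5 | h5
  · rw [h5, one_mul] at h3
    rw [h3, abs_of_neg (by linarith)]
  · rw [h5] at h3
    rw [h3, abs_of_pos (by linarith)]
    ring_nf

lemma maj_act {g : GL (Fin n) ℤ} (hg : g ∈ isoms B) (x v : Fin n → ℝ) :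
    maj B (act g.val x) (act g.val v) = maj B x v := by
  unfold maj
  rw [form_act hg, form_act hg]

lemma abs_form_le (hB : Hyperbolic B h) {x : Fin n → ℝ} (hx : form B x x = 1)
    {v w : Fin n → ℝ} {C : ℝ} (hv : maj B x v ≤ C) (hw : maj B x w ≤ C) :
    |form B v w| ≤ 3 * C := by
  have h1 := maj_nonneg hB hx (v + w)
  have h2 := maj_nonneg hB hx (v - w)
  have h3 := sq_le_maj hB hx v
  have h4 := sq_le_maj hB hx w
  have h5 : maj B x (v + w) = maj B x v + maj B x w +
      2 * (2 * form B x v * form B x w - form B v w) := by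
    unfold maj
    rw [form_add_right, form_add_right, form_add_left, form_add_left, hB.comm w v]
    ring
  have h6 : maj B x (v - w) = maj B x v + maj B x w -
      2 * (2 * form B x v * form B x w - form B v w) := by
    unfold maj
    rw [form_sub_right, form_sub_right, form_sub_left, form_sub_left, hB.comm w v]
    ring
  rw [h5] at h1
  rw [h6] at h2
  rw [abs_le]
  constructor <;> nlinarith [sq_nonneg (form B x v + form B x w),
    sq_nonneg (form B x v - form B x w)]

lemma maj_continuous (x : Fin n → ℝ) : Continuous (maj B x) := by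
  unfold maj form Matrix.mulVec dotProduct
  fun_prop

/-- The majorant dominates a multiple of the square of the norm. -/
lemma exists_norm_le_maj (hB : Hyperbolic B h) {x : Fin n → ℝ} (hx : form B x x = 1) :
    ∃ c : ℝ, 0 < c ∧ ∀ v : Fin n → ℝ, c * ‖v‖ ^ 2 ≤ maj B x v := by
  by_cases hne : (Metric.sphere (0 : Fin n → ℝ) 1).Nonempty
  · obtain ⟨y, hy, hmin⟩ := (isCompact_sphere (0 : Fin n → ℝ) 1).exists_isMinOn hne
      (maj_continuous (B := B) x).continuousOn
    have hy0 : y ≠ 0 := by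
      rintro rfl; simp at hy
    refine ⟨maj B x y, maj_pos hB hx hy0, fun v => ?_⟩
    by_cases hv : v = 0
    · rw [hv]; simpa using maj_nonneg hB hx 0
    have hn : 0 < ‖v‖ := norm_pos_iff.2 hv
    have h1 : maj B x y ≤ maj B x (‖v‖⁻¹ • v) := hmin (by simp [norm_smul, hn.ne'])
    rw [maj_smul, inv_pow, inv_mul_eq_div, le_div_iff₀ (by positivity)] at h1
    exact h1
  · refine ⟨1, one_pos, fun v => ?_⟩
    by_cases hv : v = 0
    · rw [hv]; simpa using maj_nonneg hB hx 0
    · exfalso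
      have hn : 0 < ‖v‖ := norm_pos_iff.2 hv
      exact hne ⟨‖v‖⁻¹ • v, by simp [norm_smul, hn.ne']⟩

lemma finite_maj (hB : Hyperbolic B h) {x : Fin n → ℝ} (hx : form B x x = 1) (C : ℝ) :
    {v : Fin n → ℤ | maj B x (intVec v) ≤ C}.Finite := by
  obtain ⟨c, hc, h1⟩ := exists_norm_le_maj hB hx
  obtain ⟨N, hN⟩ := exists_nat_ge (C / c)
  refine (Set.finite_Icc (fun _ : Fin n => -(N : ℤ)) (fun _ => (N : ℤ))).subset fun v hv => ?_
  have h2 : ‖intVec v‖ ^ 2 ≤ N := by
    have h3 := h1 (intVec v)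
    have h4 : c * ‖intVec v‖ ^ 2 ≤ C := h3.trans hv
    calc ‖intVec v‖ ^ 2 ≤ C / c := by rw [le_div_iff₀ hc]; linarith
      _ ≤ N := hN
  have h3 : ∀ i, |v i| ≤ (N : ℤ) := by
    intro i
    have h4 : |(v i : ℝ)| ≤ ‖intVec v‖ := norm_le_pi_norm (intVec v) i
    have h5 : |(v i : ℝ)| ^ 2 ≤ N := (pow_le_pow_left₀ (abs_nonneg _) h4 2).trans h2
    have h6 : |v i| ^ 2 ≤ (N : ℤ) := by exact_mod_cast h5
    rcases eq_or_ne (v i) 0 with h7 | h7
    · rw [h7]; simp
    · have h8 : 1 ≤ |v i| := Int.one_le_abs h7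
      nlinarith
  refine ⟨fun i => ?_, fun i => ?_⟩
  · exact (abs_le.1 (h3 i)).1
  · exact (abs_le.1 (h3 i)).2

end Pool.Agent.SymCone
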