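import Pool.Agent.SSS.Mink
import Pool.Agent.H93Cone.Defs

/-!
# Minkowski's theorem for positive definite quadratic forms

PROOF. Write `M = Aᵀ A` with a real square matrix `A` (positive semidefinite matrices are of this
form: `Matrix.posSemidef_iff_eq_conjTranspose_mul_self` or the square root
`CFC.sqrt`/`Matrix.PosSemidef.sqrt`; over `ℝ` the conjugate transpose is the transpose). Then
`det M = (det A)^2`, so `det A ≠ 0` since `det M > 0`. If `n = 0` the hypothesis `hdet` reads `1 * 1 < 1`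
and is false. For `n >= 1` apply `Pool.Agent.SSS.minkowski_linear_forms A` with `r i = 1 / √n`:
`∏ r i = (1/√n)^n`, its square is `1 / n^n > det M = (det A)^2`, so `|det A| < ∏ r i`.
It gives `y ≠ 0` with `|(A y)_i| < 1/√n`, so `yᵀ M y = ∑ (A y)_i^2 < n * (1/n) = 1`.
-/

set_option autoImplicit false

namespace Pool.Agent.SymCone

open Pool.Agent.H93Cone

open scoped MatrixOrder in
private lemma mk1_factor {n : ℕ} (M : Matrix (Fin n) (Fin n) ℝ) (hM : M.PosDef) :
    ∃ A : Matrix (Fin n) (Fin n) ℝ, M = A.transpose * A := by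
  obtain ⟨B, hB⟩ := CStarAlgebra.nonneg_iff_eq_star_mul_self.mp hM.posSemidef.nonneg
  refine ⟨B, ?_⟩
  rw [hB, Matrix.star_eq_conjTranspose, Matrix.conjTranspose_eq_transpose_of_trivial]

/-- Minkowski's theorem for positive definite quadratic forms. -/
lemma exists_short {n : ℕ} (M : Matrix (Fin n) (Fin n) ℝ) (hM : M.PosDef)
    (hdet : M.det * (n : ℝ) ^ n < 1) :
    ∃ y : Fin n → ℤ, y ≠ 0 ∧ intVec y ⬝ᵥ M.mulVec (intVec y) < 1 := by
  obtain ⟨A, rfl⟩ := mk1_factor M hM
  have hdp := hM.det_pos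
  rw [Matrix.det_mul, Matrix.det_transpose] at hdet hdp
  rcases Nat.eq_zero_or_pos n with rfl | hn
  · simp at hdet
  have hn' : (0 : ℝ) < n := by exact_mod_cast hn
  have hA : A.det ≠ 0 := by
    intro h
    rw [h] at hdp
    simp at hdp
  have hs : (0 : ℝ) < 1 / Real.sqrt n := by positivity
  have hprod : (∏ _i : Fin n, (1 / Real.sqrt n)) = (1 / Real.sqrt n) ^ n := by simp
  have hsq : ((1 / Real.sqrt n) ^ n) ^ 2 = 1 / (n : ℝ) ^ n := by
    rw [← pow_mul, mul_comm, pow_mul, div_pow, Real.sq_sqrt hn'.le, one_pow, one_div_pow]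
  have hlt : |A.det| < ∏ _i : Fin n, (1 / Real.sqrt n) := by
    rw [hprod]
    apply abs_lt_of_sq_lt_sq _ (by positivity)
    rw [hsq, lt_div_iff₀ (by positivity)]
    calc A.det ^ 2 * (n : ℝ) ^ n = A.det * A.det * (n : ℝ) ^ n := by ring
      _ < 1 := hdet
  obtain ⟨y, hy0, hy⟩ := Pool.Agent.SSS.minkowski_linear_forms A hA (fun _ => 1 / Real.sqrt n)
    (fun _ => hs) hlt
  refine ⟨y, hy0, ?_⟩
  have hform : intVec y ⬝ᵥ (A.transpose * A).mulVec (intVec y)
      = ∑ i, (A.mulVec (intVec y) i) ^ 2 := by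
    rw [← Matrix.mulVec_mulVec, Matrix.dotProduct_mulVec, Matrix.vecMul_transpose]
    simp only [dotProduct]
    exact Finset.sum_congr rfl fun i _ => by ring
  rw [hform]
  have hterm : ∀ i ∈ (Finset.univ : Finset (Fin n)),
      (A.mulVec (intVec y) i) ^ 2 < 1 / (n : ℝ) := by
    intro i _
    have h1 := hy i
    have h2 : (A.mulVec (intVec y) i) ^ 2 < (1 / Real.sqrt n) ^ 2 := by
      apply sq_lt_sq'
      · have := (abs_lt.1 h1).1
        exact this
      · exact (abs_lt.1 h1).2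
    rw [div_pow, Real.sq_sqrt hn'.le, one_pow] at h2
    exact h2
  have hne : (Finset.univ : Finset (Fin n)).Nonempty := ⟨⟨0, hn⟩, Finset.mem_univ _⟩
  calc ∑ i, (A.mulVec (intVec y) i) ^ 2 < ∑ _i : Fin n, 1 / (n : ℝ) :=
        Finset.sum_lt_sum_of_nonempty hne hterm
    _ = 1 := by
        simp [Finset.sum_const, hn'.ne']

end Pool.Agent.SymCone
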