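import Pool.Agent.SymCone.Maj
import Pool.Agent.SymCone.Iso

/-!
# Finitely many types of frames

PROOF of `finite_frames`. Let `𝒜` be the set of pairs `(A, u)` with `det A ≠ 0` for which there is a real
`x` with `form B x x = 1`, `maj B x (intVec (column j of A)) <= C` for all `j` and
`maj B x (intVec u) <= C`. To `(A, u)` attach the type
`τ(A, u) = (Aᵀ B A, |det A|, A mod det A, Aᵀ B u)`, where `A mod det A` is the integral matrix with
entries `A i j % A.det` and `|det A| = A.det.natAbs`.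

(1) `τ '' 𝒜` is finite. The entries of `Aᵀ B A` and of `Aᵀ B u` are the values of the form on
pairs of vectors with majorant `<= C`, so (`abs_form_le`, `form_intVec`) their absolute value
is `<= 3 C`; the first and the fourth component vary in finite sets of integral matrices and
vectors (entries in `[-⌈3C⌉, ⌈3C⌉]`). `det (Aᵀ B A) = (det A)^2 det B` with `det B ≠ 0`, so
`|det A| <= (det A)^2 <= |det (Aᵀ B A)|`, which takes finitely many values: `|det A| <= N`. The
entries of the third component are in `[0, N)` (`Int.emod_nonneg`, `Int.emod_lt_abs`).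

(2) Choose a finite `F ⊆ 𝒜` with `τ '' F = τ '' 𝒜` (e.g. `Set.SurjOn.exists_bijOn_subset`, or choose
a representative of each type).

(3) If `τ(A, u) = τ(A', u')`, then `A.det` divides `A' i j - A i j` for all `i j` (`A'.det = ± A.det`,
`Int.emod_neg`, `Int.emod_emod_of_dvd`, `Int.emod_emod_eq ...`), so `exists_isom` gives
`g ∈ isoms B` with `g A = A'`. Moreover `Aᵀ B u = A'ᵀ B u' = Aᵀ gᵀ B u'`, so `B u = gᵀ B u'` (`Aᵀ` is
injective, `det A ≠ 0`), and `gᵀ B g = B` gives `gᵀ B (g u) = B u = gᵀ B u'`, so `g u = u'`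
(`gᵀ` invertible, `det B ≠ 0`, `hB.det_ne_zero`).
-/

set_option autoImplicit false

namespace Pool.Agent.SymCone

open Pool.Agent.H93Cone

variable {n : ℕ} {B : Matrix (Fin n) (Fin n) ℤ} {h : Fin n → ℝ}

lemma finite_box (K : ℤ) :
    {M : Matrix (Fin n) (Fin n) ℤ | ∀ i j, |M i j| ≤ K}.Finite := by
  refine (Set.finite_Icc (fun _ _ => -K : Fin n → Fin n → ℤ) (fun _ _ => K)).subset fun M hM => ?_
  exact ⟨fun i j => (abs_le.1 (hM i j)).1, fun i j => (abs_le.1 (hM i j)).2⟩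

lemma finite_vec_box (K : ℤ) : {v : Fin n → ℤ | ∀ i, |v i| ≤ K}.Finite := by
  refine (Set.finite_Icc (fun _ => -K : Fin n → ℤ) (fun _ => K)).subset fun M hM => ?_
  exact ⟨fun i => (abs_le.1 (hM i)).1, fun i => (abs_le.1 (hM i)).2⟩

/-- The type of a frame and a vector. -/
def frameType (B : Matrix (Fin n) (Fin n) ℤ) (p : Matrix (Fin n) (Fin n) ℤ × (Fin n → ℤ)) :
    (Matrix (Fin n) (Fin n) ℤ × ℤ) × (Matrix (Fin n) (Fin n) ℤ × (Fin n → ℤ)) :=
  ((p.1.transpose * B * p.1, p.1.det), (p.1.map fun z => z % p.1.det,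
    p.1.transpose.mulVec (B.mulVec p.2)))

/-- Up to isometries there are finitely many bounded frames with a bounded vector. -/
lemma finite_frames (hB : Hyperbolic B h) (C : ℝ) :
    ∃ F : Finset (Matrix (Fin n) (Fin n) ℤ × (Fin n → ℤ)), (∀ p ∈ F, p.1.det ≠ 0) ∧
      ∀ (x : Fin n → ℝ) (A : Matrix (Fin n) (Fin n) ℤ) (u : Fin n → ℤ), form B x x = 1 →
        A.det ≠ 0 → (∀ j, maj B x (intVec fun i => A i j) ≤ C) → maj B x (intVec u) ≤ C →
        ∃ p ∈ F, ∃ g ∈ isoms B, g.val * A = p.1 ∧ g.val.mulVec u = p.2 := by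
  classical
  set 𝒜 : Set (Matrix (Fin n) (Fin n) ℤ × (Fin n → ℤ)) :=
    {p | p.1.det ≠ 0 ∧ ∃ x : Fin n → ℝ, form B x x = 1 ∧
      (∀ j, maj B x (intVec fun i => p.1 i j) ≤ C) ∧ maj B x (intVec p.2) ≤ C} with h𝒜
  obtain ⟨K, hK⟩ := exists_int_ge (3 * C)
  -- the entries of the Gram matrix
  have hgram : ∀ p ∈ 𝒜, p.1.transpose * B * p.1 ∈
      {M : Matrix (Fin n) (Fin n) ℤ | ∀ i j, |M i j| ≤ K} := by
    rintro p ⟨_, x, hx, h1, h2⟩ i j
    have h3 := abs_form_le hB hx (h1 i) (h1 j)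
    have h4 : (p.1.transpose * B * p.1) i j =
        (fun k => p.1 k i) ⬝ᵥ B.mulVec (fun k => p.1 k j) := by
      rw [Matrix.mul_assoc, Matrix.mul_apply, dotProduct]
      rfl
    rw [form_intVec, ← h4] at h3
    have h5 : |(((p.1.transpose * B * p.1) i j : ℤ) : ℝ)| ≤ (K : ℝ) := h3.trans hK
    exact_mod_cast h5
  have hvec : ∀ p ∈ 𝒜, p.1.transpose.mulVec (B.mulVec p.2) ∈ {v : Fin n → ℤ | ∀ i, |v i| ≤ K} := by
    rintro p ⟨_, x, hx, h1, h2⟩ i
    have h3 := abs_form_le hB hx (h1 i) h2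
    have h4 : p.1.transpose.mulVec (B.mulVec p.2) i =
        (fun k => p.1 k i) ⬝ᵥ B.mulVec p.2 := rfl
    rw [form_intVec, ← h4] at h3
    have h5 : |((p.1.transpose.mulVec (B.mulVec p.2) i : ℤ) : ℝ)| ≤ (K : ℝ) := h3.trans hK
    exact_mod_cast h5
  -- the determinants
  have hdetfin : ((fun M : Matrix (Fin n) (Fin n) ℤ => |M.det|) ''
      {M : Matrix (Fin n) (Fin n) ℤ | ∀ i j, |M i j| ≤ K}).Finite := (finite_box K).image _
  obtain ⟨N, hN⟩ := hdetfin.bddAbove
  have hdet : ∀ p ∈ 𝒜, |p.1.det| ≤ N := by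
    intro p hp
    have h1 : |(p.1.transpose * B * p.1).det| ≤ N := hN ⟨_, hgram p hp, rfl⟩
    rw [Matrix.det_mul, Matrix.det_mul, Matrix.det_transpose, abs_mul, abs_mul] at h1
    have h2 : 1 ≤ |B.det| := Int.one_le_abs hB.det_ne_zero
    have h3 : 1 ≤ |p.1.det| := Int.one_le_abs hp.1
    nlinarith [mul_le_mul h3 h2 zero_le_one (by linarith : (0:ℤ) ≤ |p.1.det|)]
  -- finitely many types
  have hfin : (frameType B '' 𝒜).Finite := by
    refine (((finite_box K).prod (Set.finite_Icc (-N) N)).prod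
      ((finite_box N).prod (finite_vec_box K))).subset ?_
    rintro _ ⟨p, hp, rfl⟩
    refine ⟨⟨hgram p hp, ?_⟩, ?_, hvec p hp⟩
    · exact ⟨(abs_le.1 (hdet p hp)).1, (abs_le.1 (hdet p hp)).2⟩
    · intro i j
      show |p.1 i j % p.1.det| ≤ N
      rw [abs_of_nonneg (Int.emod_nonneg _ hp.1)]
      exact (Int.emod_lt_abs _ hp.1).le.trans (hdet p hp)
  obtain ⟨F, hF𝒜, hbij⟩ := (Set.surjOn_image (frameType B) 𝒜).exists_bijOn_subset
  have hFfin : F.Finite := by
    rw [hbij.finite_iff_finite]; exact hfin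
  refine ⟨hFfin.toFinset, fun p hp => (hF𝒜 (hFfin.mem_toFinset.1 hp)).1, ?_⟩
  intro x A u hx hA h1 h2
  have hmem : (A, u) ∈ 𝒜 := ⟨hA, x, hx, h1, h2⟩
  obtain ⟨p, hpF, hp⟩ := hbij.surjOn ⟨_, hmem, rfl⟩
  refine ⟨p, hFfin.mem_toFinset.2 hpF, ?_⟩
  have e1 : p.1.transpose * B * p.1 = A.transpose * B * A := congrArg (fun t => t.1.1) hp
  have e2 : p.1.det = A.det := congrArg (fun t => t.1.2) hp
  have e3 : (p.1.map fun z => z % p.1.det) = A.map fun z => z % A.det :=
    congrArg (fun t => t.2.1) hp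
  have e4 : p.1.transpose.mulVec (B.mulVec p.2) = A.transpose.mulVec (B.mulVec u) :=
    congrArg (fun t => t.2.2) hp
  have hmod : ∀ i j, A.det ∣ p.1 i j - A i j := by
    intro i j
    have h3 := congrFun (congrFun e3 i) j
    simp only [Matrix.map_apply] at h3
    rw [e2] at h3
    exact Int.ModEq.dvd (h3.symm : A i j ≡ p.1 i j [ZMOD A.det])
  obtain ⟨g, hg, hgA⟩ := exists_isom hB hA e1 hmod
  refine ⟨g, hg, hgA, ?_⟩
  -- the vector
  have hginv : g.val.transpose * B * g.val = B := hg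
  have h3 : A.transpose.mulVec (g.val.transpose.mulVec (B.mulVec (g.val.mulVec u - p.2))) = 0 := by
    rw [Matrix.mulVec_sub, Matrix.mulVec_sub, Matrix.mulVec_sub, sub_eq_zero]
    have h4 : g.val.transpose.mulVec (B.mulVec (g.val.mulVec u)) = B.mulVec u := by
      rw [Matrix.mulVec_mulVec, Matrix.mulVec_mulVec, hginv]
    have h5 : A.transpose.mulVec (g.val.transpose.mulVec (B.mulVec p.2)) =
        p.1.transpose.mulVec (B.mulVec p.2) := by
      rw [Matrix.mulVec_mulVec, ← Matrix.transpose_mul, hgA]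
    rw [h4, h5, e4]
  have hinj : ∀ (M : Matrix (Fin n) (Fin n) ℤ), M.det ≠ 0 → ∀ v, M.mulVec v = 0 → v = 0 := by
    intro M hM v hv
    by_contra hv0
    exact hM (Matrix.exists_mulVec_eq_zero_iff.1 ⟨v, hv0, hv⟩)
  have h4 := hinj _ (by rw [Matrix.det_transpose]; exact hA) _ h3
  have h5 := hinj _ (by
    rw [Matrix.det_transpose]
    exact (Matrix.isUnits_det_units g).ne_zero) _ h4
  have h6 := hinj _ hB.det_ne_zero _ h5
  exact sub_eq_zero.1 h6

end Pool.Agent.SymCone
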