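import Pool.Agent.SymCone.Thn
import Pool.Agent.SymCone.Typ
import Pool.Agent.SymCone.Cpt

/-!
# Reduction theory

PROOF of `reduction`. Let `C` be the constant of `exists_frame hB` (`1 <= C`), `F` the finite set of
`finite_frames hB C`, and for `p ∈ F` let `S_p` be the set of `frame_cone hB p.1 _ C`
(`choose`). Put
`S = ⋃_{p ∈ F} (S_p ∪ {the vectors ± p.2 (as rational vectors) which are in closedPos B h})`.

Let `x ∈ openPos`. By homogeneity (`x = c • x₀` with `c = √(form B x x) > 0`, `form B x₀ x₀ = 1`, `act` linear, `ratCone S`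
a cone) we may assume `form B x x = 1`. `thicken` gives `x = s x' + t u`. `exists_frame` for `x'` gives `A`; `finite_frames` for
`x', A, u` (`maj B x' u <= 1/2 <= C`) gives `p ∈ F` and `g ∈ isoms B` with `g A = p.1`, `g u = p.2`.
Let `z = act g x'`: `form B z z = 1`, and for the column `a_j` of `A`, `act g (intVec a_j)` is the
column `j` of `p.1` (`act_intVec`), so `(form B z (column j of p.1))^2 = (form B x' a_j)^2 <= maj B x' a_j <= C`
(`form_act`, `sq_le_maj`).
If `form B h z > 0`: `z ∈ openPos`, so `z ∈ ratCone S_p`, `act_openPos`/`act_closedPos` (with the point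
`x'`) give `act g x ∈ openPos` and `intVec p.2 = act g (intVec u) ∈ closedPos`, so
`act g x = s z + t intVec p.2 ∈ ratCone S`.
Otherwise `form B h z < 0` (`form B h z ≠ 0` as `form B z z = 1`, `hB.neg`), use `-g ∈ isoms B`
(`(-g)ᵀ B (-g) = B`; `act (-g) = - act g`), the point `-z ∈ openPos` and the vector `-p.2`.
-/

set_option autoImplicit false

namespace Pool.Agent.SymCone

open Pool.Agent.H93Cone Pool.Agent.H55.Cone

variable {n : ℕ} {B : Matrix (Fin n) (Fin n) ℤ} {h : Fin n → ℝ}

private lemma int_rat (v : Fin n → ℤ) : ratVec (fun i => (v i : ℚ)) = intVec v := by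
  funext i
  simp [ratVec, intVec]

private lemma ratCone_add {S : Finset (Fin n → ℚ)} {x y : Fin n → ℝ} (hx : x ∈ ratCone S)
    (hy : y ∈ ratCone S) : x + y ∈ ratCone S :=
  Submodule.add_mem _ hx hy

private lemma ratCone_smul {S : Finset (Fin n → ℚ)} {x : Fin n → ℝ} {c : ℝ} (hc : 0 ≤ c)
    (hx : x ∈ ratCone S) : c • x ∈ ratCone S :=
  Submodule.smul_mem (PointedCone.hull ℝ (ratVec '' (S : Set (Fin n → ℚ)))) (⟨c, hc⟩ : {c : ℝ // 0 ≤ c}) hx

private lemma ratCone_mono {S T : Finset (Fin n → ℚ)} (h : S ⊆ T) : ratCone S ⊆ ratCone T :=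
  Submodule.span_mono (Set.image_mono (by exact_mod_cast h))

private lemma ratCone_self {S : Finset (Fin n → ℚ)} {s : Fin n → ℚ} (hs : s ∈ S) :
    ratVec s ∈ ratCone S :=
  Submodule.subset_span ⟨s, by exact_mod_cast hs, rfl⟩

private lemma act_neg' (g : GL (Fin n) ℤ) (x : Fin n → ℝ) :
    act (-g).val x = -(act g.val x) := by
  funext i
  simp [act, Matrix.mulVec, dotProduct]

private lemma neg_isoms {g : GL (Fin n) ℤ} (hg : g ∈ isoms B) : -g ∈ isoms B := by
  have h1 : g.val.transpose * B * g.val = B := hg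
  show (-g).val.transpose * B * (-g).val = B
  rw [Units.val_neg, Matrix.transpose_neg]
  simp only [neg_mul, mul_neg, neg_neg]
  exact h1

private lemma col_eq (g : GL (Fin n) ℤ) (A P : Matrix (Fin n) (Fin n) ℤ) (h : g.val * A = P)
    (j : Fin n) : act g.val (intVec fun i => A i j) = intVec fun i => P i j := by
  rw [act_intVec]
  congr 1
  rw [← h]
  rfl

/-- Reduction theory: the positive cone is covered by the translates under the isometries of a
rational polyhedral cone in the closed positive cone. -/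
theorem reduction (hB : Hyperbolic B h) :
    ∃ S : Finset (Fin n → ℚ), (∀ s ∈ S, ratVec s ∈ closedPos B h) ∧
      ∀ x ∈ openPos B h, ∃ g ∈ isoms B, act g.val x ∈ openPos B h ∧ act g.val x ∈ ratCone S := by
  classical
  obtain ⟨C, hC1, hfr⟩ := exists_frame hB
  obtain ⟨F, hF, hfin⟩ := finite_frames hB C
  have key : ∀ p : F, ∃ S : Finset (Fin n → ℚ), (∀ s ∈ S, ratVec s ∈ openPos B h) ∧
      ∀ z ∈ openPos B h, form B z z = 1 →
        (∀ j, (form B z (intVec fun i => p.1.1 i j)) ^ 2 ≤ C) → z ∈ ratCone S :=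
    fun p => frame_cone hB p.1.1 (hF p.1 p.2) C
  choose Sp hSp1 hSp2 using key
  let S : Finset (Fin n → ℚ) := F.attach.biUnion fun p => Sp p ∪
    (({(fun i => (p.1.2 i : ℚ)), (fun i => ((-p.1.2) i : ℚ))} : Finset (Fin n → ℚ)).filter
      fun s => ratVec s ∈ closedPos B h)
  have hSsub : ∀ p : F, Sp p ⊆ S := by
    intro p s hs
    refine Finset.mem_biUnion.2 ⟨p, Finset.mem_attach _ _, ?_⟩
    exact Finset.mem_union_left _ hs
  have hSu : ∀ p : F, ∀ v : Fin n → ℤ, (v = p.1.2 ∨ v = -p.1.2) → intVec v ∈ closedPos B h →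
      intVec v ∈ ratCone S := by
    intro p v hv hcl
    rw [← int_rat]
    apply ratCone_self
    refine Finset.mem_biUnion.2 ⟨p, Finset.mem_attach _ _, Finset.mem_union_right _ ?_⟩
    rw [Finset.mem_filter]
    refine ⟨?_, by rw [int_rat]; exact hcl⟩
    rcases hv with rfl | rfl
    · simp
    · simp
  refine ⟨S, ?_, ?_⟩
  · intro s hs
    obtain ⟨p, _, hp⟩ := Finset.mem_biUnion.1 hs
    rcases Finset.mem_union.1 hp with h1 | h1
    · exact openPos_subset (hSp1 p s h1)
    · exact (Finset.mem_filter.1 h1).2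
  -- normalised points
  have main : ∀ x ∈ openPos B h, form B x x = 1 →
      ∃ g ∈ isoms B, act g.val x ∈ openPos B h ∧ act g.val x ∈ ratCone S := by
    intro x hx hx1
    obtain ⟨x', u, s, t, hth, hx', hmu, hucl, hs, ht, hxe⟩ := thicken hB hx hx1
    obtain ⟨A, hAd, hA⟩ := hfr x' hth
    obtain ⟨p, hpF, g, hg, hgA, hgu⟩ := hfin x' A u hth.1 hAd hA (hmu.trans (by linarith))
    have hz1 : form B (act g.val x') (act g.val x') = 1 := by rw [form_act hg]; exact hth.1
    have hzj : ∀ j, (form B (act g.val x') (intVec fun i => p.1 i j)) ^ 2 ≤ C := by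
      intro j
      rw [← col_eq g A p.1 hgA j, form_act hg]
      exact (sq_le_maj hB hth.1 _).trans (hA j)
    have hzu : act g.val (intVec u) = intVec p.2 := by rw [act_intVec, hgu]
    have hz0 : act g.val x' ≠ 0 := by
      intro h0; rw [h0] at hz1; simp at hz1
    have hne : form B h (act g.val x') ≠ 0 := by
      intro h0
      have := hB.neg _ h0 hz0
      linarith
    rcases lt_or_gt_of_ne hne with hneg | hpos
    · -- use the negative
      have hg' : -g ∈ isoms B := neg_isoms hg
      have hzo : act (-g).val x' ∈ openPos B h := by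
        rw [act_neg']
        refine ⟨?_, ?_⟩
        · rw [form_neg_left, form_neg_right, neg_neg, hz1]; exact one_pos
        · rw [form_neg_right]; linarith
      refine ⟨-g, hg', act_openPos hB hg' hx' hzo hx, ?_⟩
      rw [hxe, map_add, map_smul, map_smul]
      refine ratCone_add (ratCone_smul hs ?_) (ratCone_smul ht ?_)
      · refine ratCone_mono (hSsub ⟨p, hpF⟩) (hSp2 ⟨p, hpF⟩ _ hzo ?_ ?_)
        · rw [form_act hg']; exact hth.1
        · intro j
          rw [act_neg', form_neg_left, neg_sq]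
          exact hzj j
      · have h1 : act (-g).val (intVec u) = intVec (-p.2) := by
          rw [act_neg', hzu]
          funext i
          simp [intVec]
        have h2 := act_closedPos hB hg' hx' hzo hucl
        rw [h1] at h2 ⊢
        exact hSu ⟨p, hpF⟩ _ (Or.inr rfl) h2
    · have hzo : act g.val x' ∈ openPos B h := ⟨by rw [hz1]; exact one_pos, hpos⟩
      refine ⟨g, hg, act_openPos hB hg hx' hzo hx, ?_⟩
      rw [hxe, map_add, map_smul, map_smul]
      refine ratCone_add (ratCone_smul hs ?_) (ratCone_smul ht ?_)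
      · exact ratCone_mono (hSsub ⟨p, hpF⟩) (hSp2 ⟨p, hpF⟩ _ hzo hz1 hzj)
      · have h2 := act_closedPos hB hg hx' hzo hucl
        rw [hzu] at h2 ⊢
        exact hSu ⟨p, hpF⟩ _ (Or.inl rfl) h2
  intro x hx
  have hxx : 0 < form B x x := hx.1
  set c := Real.sqrt (form B x x) with hc
  have hc0 : 0 < c := Real.sqrt_pos.2 hxx
  have hcc : c * c = form B x x := Real.mul_self_sqrt hxx.le
  have hx0 : c⁻¹ • x ∈ openPos B h := by
    refine ⟨?_, ?_⟩
    · rw [form_smul_left, form_smul_right]
      positivity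
    · rw [form_smul_right]
      exact mul_pos (inv_pos.2 hc0) hx.2
  have hx1 : form B (c⁻¹ • x) (c⁻¹ • x) = 1 := by
    rw [form_smul_left, form_smul_right, ← hcc]
    field_simp
  obtain ⟨g, hg, h1, h2⟩ := main _ hx0 hx1
  have hxe : x = c • (c⁻¹ • x) := by
    rw [smul_smul, mul_inv_cancel₀ hc0.ne', one_smul]
  refine ⟨g, hg, ?_, ?_⟩
  · rw [hxe, map_smul]
    refine ⟨?_, ?_⟩
    · rw [form_smul_left, form_smul_right]
      exact mul_pos hc0 (mul_pos hc0 h1.1)
    · rw [form_smul_right]
      exact mul_pos hc0 h1.2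
  · rw [hxe, map_smul]
    exact ratCone_smul hc0.le h2

end Pool.Agent.SymCone
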