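import Pool.Agent.SymCone.Red

/-!
# Reduction theory for subgroups of finite index

PROOF of `reduction_index`. Let `S₀` be the set of `reduction hB`. Let `C` be a finite set of
representatives of the left cosets `g Γ`, `g ∈ isoms B` (`hfin`: `Γ` has finite relative index in
`isoms B`; `Pool.Agent.H92Cone.finite_cosets` or `Subgroup.relIndex`, `Finite (isoms B ⧸ Γ.subgroupOf (isoms B))`).
For `x ∈ openPos` take `g ∈ isoms B` with `act g x ∈ openPos ∩ ratCone S₀`, write `g = c γ` with `γ ∈ Γ`,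
`c ∈ C`. Every `γ ∈ Γ` preserves the open cone (`hside`, `act_openPos` with the point `h`;
`h ∈ openPos B h`). So `y = act γ x ∈ openPos`, `act c y = act g x ∈ openPos`, and `c⁻¹` maps the
closed cone to itself (`act_inv_closedPos` with the point `y`). `act γ x = act c⁻¹ (act g x)` is in the
cone over `c⁻¹ S₀` (`act_hull`, `ra`, `ratVec_ra` in `Pool.Agent.H55.Cone.Dom`). Let `S` be the union over
those `c ∈ C` for which there is a `y ∈ openPos` with `act c y ∈ openPos`, of the sets `c⁻¹ S₀`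
(`S₀.image (ra (c⁻¹).val)`).
-/

set_option autoImplicit false

namespace Pool.Agent.SymCone

open Pool.Agent.H93Cone Pool.Agent.H55.Cone

variable {n : ℕ} {B : Matrix (Fin n) (Fin n) ℤ} {h : Fin n → ℝ}

/-- Reduction theory for a subgroup of finite index which preserves the positive cone. -/
theorem reduction_index (hB : Hyperbolic B h) (Γ : Subgroup (GL (Fin n) ℤ)) (hΓ : Γ ≤ isoms B)
    (hfin : Γ.relIndex (isoms B) ≠ 0) (hside : ∀ γ ∈ Γ, 0 < form B h (act γ.val h)) :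
    ∃ S : Finset (Fin n → ℚ), (∀ s ∈ S, ratVec s ∈ closedPos B h) ∧
      ∀ x ∈ openPos B h, ∃ γ ∈ Γ, act γ.val x ∈ ratCone S := by
  classical
  obtain ⟨S₀, hS₀, hcov⟩ := reduction hB
  have hh : h ∈ openPos B h := ⟨hB.pos, hB.pos⟩
  have hfi : Finite (isoms B ⧸ Γ.subgroupOf (isoms B)) := by
    have : (Γ.subgroupOf (isoms B)).FiniteIndex := ⟨hfin⟩
    exact Subgroup.finite_quotient_of_finiteIndex
  let f : (isoms B ⧸ Γ.subgroupOf (isoms B)) → GL (Fin n) ℤ := fun q => (Quotient.out q).val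
  have hfin' : (Set.range f).Finite := Set.finite_range f
  let C : Finset (GL (Fin n) ℤ) :=
    hfin'.toFinset.filter fun c => ∃ y ∈ openPos B h, act c.val y ∈ openPos B h
  have hC : ∀ c ∈ C, c ∈ isoms B ∧ ∃ y ∈ openPos B h, act c.val y ∈ openPos B h := by
    intro c hc
    obtain ⟨h1, h2⟩ := Finset.mem_filter.1 hc
    obtain ⟨q, rfl⟩ := (Set.Finite.mem_toFinset _).1 h1
    exact ⟨(Quotient.out q).2, h2⟩
  refine ⟨C.biUnion fun c => S₀.image (ra (c⁻¹).val), fun s hs => ?_, fun x hx => ?_⟩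
  · obtain ⟨c, hc, hs⟩ := Finset.mem_biUnion.1 hs
    obtain ⟨s₀, hs₀, rfl⟩ := Finset.mem_image.1 hs
    obtain ⟨hci, y, hy, hcy⟩ := hC c hc
    rw [ratVec_ra]
    exact act_inv_closedPos hB hci hy hcy (hS₀ s₀ hs₀)
  · obtain ⟨g, hg, hgx, hgS⟩ := hcov x hx
    let q : isoms B ⧸ Γ.subgroupOf (isoms B) := QuotientGroup.mk ⟨g, hg⟩
    have hq : QuotientGroup.mk (Quotient.out q) = q := Quotient.out_eq' q
    have hmem : (Quotient.out q)⁻¹ * (⟨g, hg⟩ : isoms B) ∈ Γ.subgroupOf (isoms B) :=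
      QuotientGroup.eq.1 hq
    have hγ : (f q)⁻¹ * g ∈ Γ := Subgroup.mem_subgroupOf.1 hmem
    have hγi : (f q)⁻¹ * g ∈ isoms B := hΓ hγ
    have h1 : act ((f q)⁻¹ * g : GL (Fin n) ℤ).val x ∈ openPos B h :=
      act_openPos hB hγi hh ⟨by rw [form_act hγi]; exact hB.pos, hside _ hγ⟩ hx
    have h2 : act (f q).val (act ((f q)⁻¹ * g : GL (Fin n) ℤ).val x) = act g.val x := by
      rw [← act_mul_apply, ← Units.val_mul, mul_inv_cancel_left]
    have h3 : act ((f q)⁻¹ * g : GL (Fin n) ℤ).val x = act ((f q)⁻¹).val (act g.val x) := by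
      rw [← act_mul_apply, ← Units.val_mul]
    have hcC : f q ∈ C := by
      refine Finset.mem_filter.2 ⟨(Set.Finite.mem_toFinset _).2 ⟨q, rfl⟩, _, h1, ?_⟩
      rw [h2]
      exact hgx
    refine ⟨(f q)⁻¹ * g, hγ, ?_⟩
    rw [h3]
    have h4 := (mem_hull_ra ((f q)⁻¹) S₀ (act ((f q)⁻¹).val (act g.val x))).2
      ⟨act g.val x, hgS, rfl⟩
    refine Submodule.span_mono (Set.image_mono ?_) h4
    intro v hv
    exact Finset.mem_coe.2 (Finset.mem_biUnion.2 ⟨f q, hcC, Finset.mem_coe.1 hv⟩)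

end Pool.Agent.SymCone
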