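import Pool.Agent.SymCone.Frm

/-!
# Thickening

PROOF of `thicken` (write `(v, w) = form B v w`, `q(v) = (v, v)`).
If `x` is thick take `x' = x`, `u = 0`, `s = 1`, `t = 0`. Otherwise there is an integral `v ≠ 0` with
`maj B x v < 1/2`; dividing by the gcd of the entries (`maj` is multiplied by the square of the
factor, `maj_smul`, and is nonnegative) we may assume that `v` is primitive: every integral vector
proportional to `v` is an integral multiple of `v`.
`v` is isotropic: `(x, v)^2 <= maj < 1/2` (`sq_le_maj`), and `q(v) = 2 (x, v)^2 - maj`; from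
`hB.reverse` `q(v) <= (x, v)^2 < 1/2`, and `q(v) >= - maj > -1/2`; `q(v)` is an integer
(`form_intVec`), so `q(v) = 0`, and `2 (x, v)^2 = maj < 1/2`, `|(x, v)| < 1/2`.
Replacing `v` by `-v` let `u = ± v` with `(x, u) >= 0`; then `u ∈ closedPos` (`mem_closedPos_iff`), and
`δ = (x, u) > 0` by `pos_mul_open`; `0 < δ < 1/2`. Put `t = 1 / (2 δ) > 1` and
`x' = t x - (t^2 - 1) u`. Then `q(x') = t^2 - 2 t (t^2 - 1) δ = 1`, `(x', u) = t δ = 1/2`, so
`maj B x' u = 2 * (1/4) - 0 = 1/2`, `x' ∈ openPos` (`(x', u) > 0` with `u ≠ 0` in the closed cone: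
otherwise `-x'` is in the open cone (`q(x') = 1 > 0`) and `(-x', u) > 0`), and
`x = (1/t) x' + ((t^2 - 1)/t) u` with nonnegative coefficients.
`x'` is thick: let `w ≠ 0` be integral with `maj B x' w < 1/2`. As above `q(w) = 0` and
`|(x', w)| < 1/2`; replace `w` by `± w` so that `(x', w) > 0`, `w ∈ closedPos`. If `w` is
proportional to `u` then `w = m u` with an integer `m ≠ 0` (primitive) and `|(x', w)| = |m|/2 >= 1/2`,
a contradiction. If not, `(u, w) > 0` by `pos_mul` (the condition `hprop` says that they are not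
proportional), so `(u, w) >= 1` (integer). For `λ = (x', u) / (x', w) > 0` `hB.reverse` for `x'` and
`u + λ w` gives `2 λ (u, w) = q(u + λ w) <= ((x', u) + λ (x', w))^2 = 4 (x', u)^2 = 1`, i.e.
`(u, w) <= 2 (x', u) (x', w) = (x', w) < 1/2`, a contradiction.
-/

set_option autoImplicit false

namespace Pool.Agent.SymCone

open Pool.Agent.H93Cone

variable {n : ℕ} {B : Matrix (Fin n) (Fin n) ℤ} {h : Fin n → ℝ}

/-- A nonzero integral vector is a multiple of a primitive one. -/
lemma exists_primitive (v : Fin n → ℤ) (hv : v ≠ 0) : ∃ (d : ℤ) (u : Fin n → ℤ), d ≠ 0 ∧ v = d • u ∧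
    u ≠ 0 ∧ ∀ (w : Fin n → ℤ) (c : ℝ), intVec w = c • intVec u → ∃ m : ℤ, w = m • u := by
  classical
  obtain ⟨i1, hi1⟩ := Function.ne_iff.1 hv
  obtain ⟨u, hu, hu1⟩ := Finset.extract_gcd v (s := (Finset.univ : Finset (Fin n)))
    ⟨i1, Finset.mem_univ _⟩
  set d : ℤ := (Finset.univ : Finset (Fin n)).gcd v with hd
  have hvd : v = d • u := by
    funext i
    simpa using hu i (Finset.mem_univ _)
  have hd0 : d ≠ 0 := by
    intro h0
    apply hv
    rw [hvd, h0, zero_smul]
  have hu0 : u ≠ 0 := by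
    intro h0
    apply hv
    rw [hvd, h0, smul_zero]
  refine ⟨d, u, hd0, hvd, hu0, ?_⟩
  intro w c hw
  obtain ⟨i0, hi0⟩ := Function.ne_iff.1 hu0
  have hi0' : u i0 ≠ 0 := hi0
  have hcomp : ∀ i, (w i : ℝ) = c * (u i : ℝ) := by
    intro i
    have := congrFun hw i
    simpa [intVec] using this
  have hcross : ∀ i, w i * u i0 = w i0 * u i := by
    intro i
    have h1 : ((w i * u i0 : ℤ) : ℝ) = ((w i0 * u i : ℤ) : ℝ) := by
      push_cast
      rw [hcomp i, hcomp i0]; ring
    exact_mod_cast h1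
  have hdvd : u i0 ∣ w i0 := by
    have h1 : u i0 ∣ (Finset.univ : Finset (Fin n)).gcd (fun i => w i0 * u i) := by
      apply Finset.dvd_gcd
      intro i _
      exact ⟨w i, by rw [← hcross i]; ring⟩
    rw [Finset.gcd_mul_left, hu1, mul_one] at h1
    exact (dvd_normalize_iff).1 h1
  obtain ⟨m, hm⟩ := hdvd
  refine ⟨m, ?_⟩
  funext i
  have h2 := hcross i
  rw [hm] at h2
  have h3 : u i0 * (w i) = u i0 * (m * u i) := by linarith
  have h4 := mul_left_cancel₀ hi0' h3
  simpa using h4

/-- A short lattice vector is isotropic. -/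
lemma isotropic_of_short (hB : Hyperbolic B h) {x : Fin n → ℝ} (hx : form B x x = 1)
    (v : Fin n → ℤ) (hv : maj B x (intVec v) < 1 / 2) :
    form B (intVec v) (intVec v) = 0 ∧ |form B x (intVec v)| < 1 / 2 := by
  have h1 := sq_le_maj hB hx (intVec v)
  have h2 := hB.reverse (by rw [hx]; norm_num : 0 < form B x x) (intVec v)
  rw [hx, one_mul] at h2
  have h3 : form B (intVec v) (intVec v) = 2 * (form B x (intVec v)) ^ 2 - maj B x (intVec v) := by
    unfold maj; ring
  have h4 : form B (intVec v) (intVec v) < 1 / 2 := by linarith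
  have h5 : -(1 / 2) < form B (intVec v) (intVec v) := by
    rw [h3]; nlinarith [sq_nonneg (form B x (intVec v))]
  have h6 : form B (intVec v) (intVec v) = 0 := by
    rw [form_intVec] at h4 h5 ⊢
    have h7 : ((v ⬝ᵥ B.mulVec v : ℤ) : ℝ) < 1 := by linarith
    have h8 : (-1 : ℝ) < ((v ⬝ᵥ B.mulVec v : ℤ) : ℝ) := by linarith
    have h9 : (v ⬝ᵥ B.mulVec v : ℤ) < 1 := by exact_mod_cast h7
    have h10 : (-1 : ℤ) < (v ⬝ᵥ B.mulVec v : ℤ) := by exact_mod_cast h8
    have h11 : (v ⬝ᵥ B.mulVec v : ℤ) = 0 := by omega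
    rw [h11]; simp
  refine ⟨h6, ?_⟩
  rw [h6] at h3
  have h7 : (form B x (intVec v)) ^ 2 < (1 / 2) ^ 2 := by nlinarith
  exact abs_lt_of_sq_lt_sq h7 (by norm_num)

/-- Every point of the positive cone is in the cone over a thick point and a lattice vector. -/
lemma thicken (hB : Hyperbolic B h) {x : Fin n → ℝ} (hx : x ∈ openPos B h)
    (hx1 : form B x x = 1) :
    ∃ (x' : Fin n → ℝ) (u : Fin n → ℤ) (s t : ℝ), Thick B x' ∧ x' ∈ openPos B h ∧
      maj B x' (intVec u) ≤ 1 / 2 ∧ intVec u ∈ closedPos B h ∧ 0 ≤ s ∧ 0 ≤ t ∧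
      x = s • x' + t • intVec u := by
  classical
  have hneg : ∀ v : Fin n → ℤ, intVec (-v) = -intVec v := by
    intro v; funext i; simp [intVec]
  have hz : intVec (0 : Fin n → ℤ) = 0 := by funext i; simp [intVec]
  have hinj : ∀ v : Fin n → ℤ, v ≠ 0 → intVec v ≠ 0 := by
    intro v hv h0
    apply hv
    funext i
    have := congrFun h0 i
    simpa [intVec] using this
  by_cases hth : Thick B x
  · refine ⟨x, 0, 1, 0, hth, hx, ?_, ?_, by norm_num, le_refl _, ?_⟩
    · rw [hz]; simp [maj]
    · rw [hz]; exact ⟨by simp, by simp⟩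
    · simp
  -- a short vector
  have hex : ∃ v : Fin n → ℤ, v ≠ 0 ∧ maj B x (intVec v) < 1 / 2 := by
    by_contra hc
    push Not at hc
    exact hth ⟨hx1, hc⟩
  obtain ⟨v, hv0, hv⟩ := hex
  obtain ⟨d, u0, hd0, hvu, hu00, hprim⟩ := exists_primitive v hv0
  have hu0short : maj B x (intVec u0) < 1 / 2 := by
    have h1 : intVec v = (d : ℝ) • intVec u0 := by
      rw [hvu]; funext i; simp [intVec]
    rw [h1, maj_smul] at hv
    have h2 := maj_nonneg hB hx1 (intVec u0)
    have h3 : (1 : ℝ) ≤ (d : ℝ) ^ 2 := by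
      have h4 : (1 : ℤ) ≤ d ^ 2 := by
        have := pow_pos (abs_pos.2 hd0) 2
        rw [sq_abs] at this
        linarith
      exact_mod_cast h4
    nlinarith
  -- a representative on the right side
  obtain ⟨u, hu_ne, hu_short, hu_nonneg, hu_prim⟩ : ∃ u : Fin n → ℤ, u ≠ 0 ∧
      maj B x (intVec u) < 1 / 2 ∧ 0 ≤ form B x (intVec u) ∧
      ∀ (w : Fin n → ℤ) (c : ℝ), intVec w = c • intVec u → ∃ m : ℤ, w = m • u := by
    rcases le_total 0 (form B x (intVec u0)) with h0 | h0
    · exact ⟨u0, hu00, hu0short, h0, hprim⟩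
    · refine ⟨-u0, neg_ne_zero.2 hu00, ?_, ?_, ?_⟩
      · have : maj B x (intVec (-u0)) = maj B x (intVec u0) := by
          rw [hneg, show -intVec u0 = (-1 : ℝ) • intVec u0 by simp, maj_smul]; norm_num
        rw [this]; exact hu0short
      · rw [hneg, form_neg_right]; linarith
      · intro w c hw
        obtain ⟨m, hm⟩ := hprim w (-c) (by rw [hw, hneg]; simp)
        exact ⟨-m, by rw [hm]; simp⟩
  obtain ⟨hqu, hδ⟩ := isotropic_of_short hB hx1 u hu_short
  have hucl : intVec u ∈ closedPos B h :=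
    (hB.mem_closedPos_iff hx (le_of_eq hqu.symm)).2 hu_nonneg
  have hδpos : 0 < form B x (intVec u) := hB.pos_mul_open hx hucl (hinj u hu_ne)
  set δ := form B x (intVec u) with hδdef
  have hδhalf : δ < 1 / 2 := by
    rw [abs_of_pos hδpos] at hδ; exact hδ
  set t : ℝ := 1 / (2 * δ) with ht
  have htδ : t * δ = 1 / 2 := by
    rw [ht]; field_simp
  have ht1 : 1 < t := by
    rw [ht, lt_div_iff₀ (by positivity)]
    linarith
  set x' : Fin n → ℝ := t • x - (t ^ 2 - 1) • intVec u with hx'
  have hqx' : form B x' x' = 1 := by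
    rw [hx', form_sub_right, form_sub_left, form_sub_left]
    simp only [form_smul_left, form_smul_right]
    rw [hB.comm (intVec u) x, hx1, hqu, ← hδdef]
    have : t * t * 1 - (t ^ 2 - 1) * (t * δ) - (t * ((t ^ 2 - 1) * δ)) = 1 := by
      have h1 : t * ((t ^ 2 - 1) * δ) = (t ^ 2 - 1) * (t * δ) := by ring
      rw [h1, htδ]; ring
    linarith
  have hx'u : form B x' (intVec u) = 1 / 2 := by
    rw [hx', form_sub_left, form_smul_left, form_smul_left, hqu, ← hδdef, htδ]; ring
  have hmaju : maj B x' (intVec u) = 1 / 2 := by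
    unfold maj; rw [hx'u, hqu]; norm_num
  have hx'open : x' ∈ openPos B h := by
    by_cases hs : 0 ≤ form B h x'
    · exact hB.mem_openPos ⟨by rw [hqx']; norm_num, hs⟩ (by rw [hqx']; norm_num)
    · exfalso
      push Not at hs
      have h1 : -x' ∈ openPos B h := by
        refine ⟨?_, ?_⟩
        · rw [form_neg_left, form_neg_right, neg_neg, hqx']; norm_num
        · rw [form_neg_right]; linarith
      have h2 := hB.pos_mul_open h1 hucl (hinj u hu_ne)
      rw [form_neg_left, hx'u] at h2
      linarith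
  refine ⟨x', u, 1 / t, (t ^ 2 - 1) / t, ⟨hqx', ?_⟩, hx'open, le_of_eq hmaju, hucl, by positivity,
    div_nonneg (by nlinarith) (by linarith), ?_⟩
  · -- thickness
    intro w0 hw0
    by_contra hc
    push Not at hc
    -- right side
    obtain ⟨w, hw_ne, hw_short, hw_nonneg⟩ : ∃ w : Fin n → ℤ, w ≠ 0 ∧
        maj B x' (intVec w) < 1 / 2 ∧ 0 ≤ form B x' (intVec w) := by
      rcases le_total 0 (form B x' (intVec w0)) with h0 | h0
      · exact ⟨w0, hw0, hc, h0⟩
      · refine ⟨-w0, neg_ne_zero.2 hw0, ?_, ?_⟩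
        · have : maj B x' (intVec (-w0)) = maj B x' (intVec w0) := by
            rw [hneg, show -intVec w0 = (-1 : ℝ) • intVec w0 by simp, maj_smul]; norm_num
          rw [this]; exact hc
        · rw [hneg, form_neg_right]; linarith
    obtain ⟨hqw, hwabs⟩ := isotropic_of_short hB hqx' w hw_short
    have hwcl : intVec w ∈ closedPos B h :=
      (hB.mem_closedPos_iff hx'open (le_of_eq hqw.symm)).2 hw_nonneg
    have hwpos : 0 < form B x' (intVec w) := hB.pos_mul_open hx'open hwcl (hinj w hw_ne)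
    rw [abs_of_pos hwpos] at hwabs
    by_cases hprop : form B h (intVec w) • intVec u = form B h (intVec u) • intVec w
    · -- proportional
      have hhu := hB.pos_of_mem hucl (hinj u hu_ne)
      have hw2 : intVec w = (form B h (intVec w) / form B h (intVec u)) • intVec u := by
        have h1 : intVec w = (form B h (intVec u))⁻¹ • (form B h (intVec w) • intVec u) := by
          rw [hprop, smul_smul, inv_mul_cancel₀ hhu.ne', one_smul]
        rw [div_eq_inv_mul, ← smul_smul]
        exact h1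
      obtain ⟨m, hm⟩ := hu_prim w _ hw2
      have hwm : intVec w = (m : ℝ) • intVec u := by
        rw [hm]; funext i; simp [intVec]
      rw [hwm, form_smul_right, hx'u] at hwpos hwabs
      have hm1 : 0 < (m : ℝ) := by linarith
      have hm2 : (m : ℝ) < 1 := by linarith
      have hm3 : (0 : ℤ) < m := by exact_mod_cast hm1
      have hm4 : m < (1 : ℤ) := by exact_mod_cast hm2
      omega
    · have hpos := hB.pos_mul hucl hwcl (hinj u hu_ne) (hinj w hw_ne) hprop
      have hge1 : 1 ≤ form B (intVec u) (intVec w) := by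
        rw [form_intVec] at hpos ⊢
        have h1 : (0 : ℤ) < (u ⬝ᵥ B.mulVec w : ℤ) := by exact_mod_cast hpos
        have h2 : (1 : ℤ) ≤ (u ⬝ᵥ B.mulVec w : ℤ) := by omega
        exact_mod_cast h2
      set β := form B x' (intVec w) with hβ
      -- reversed Cauchy-Schwarz for β u + (1/2) w
      have hrev := hB.reverse (by rw [hqx']; norm_num : 0 < form B x' x')
        (β • intVec u + (1 / 2 : ℝ) • intVec w)
      have e1 : form B (β • intVec u + (1 / 2 : ℝ) • intVec w)
          (β • intVec u + (1 / 2 : ℝ) • intVec w) = β * form B (intVec u) (intVec w) := by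
        rw [form_add_right, form_add_left, form_add_left]
        simp only [form_smul_left, form_smul_right]
        rw [hB.comm (intVec w) (intVec u), hqu, hqw]; ring
      have e2 : form B x' (β • intVec u + (1 / 2 : ℝ) • intVec w) = β := by
        rw [form_add_right, form_smul_right, form_smul_right, hx'u, ← hβ]; ring
      rw [e1, e2, hqx', one_mul] at hrev
      have h3 : β * 1 ≤ β * form B (intVec u) (intVec w) :=
        mul_le_mul_of_nonneg_left hge1 hwpos.le
      nlinarith
  · -- the decomposition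
    rw [hx', smul_sub, smul_smul, smul_smul]
    have ht0 : t ≠ 0 := by linarith
    rw [one_div, inv_mul_cancel₀ ht0, one_smul]
    have : (t⁻¹ * (t ^ 2 - 1)) = (t ^ 2 - 1) / t := by rw [div_eq_inv_mul]
    rw [this]; simp

end Pool.Agent.SymCone
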